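import Pool.Agent.H85L.Basic

/-!
# Simulations
-/

set_option autoImplicit false

namespace H85L

open Mach

variable {Δ Q Γ K Δ' Q' Γ' K' : Type}

/-- `M'` on the view `v'` simulates every move of `M` on the view `v` by `τ + 1` moves; only the
last of them uses the guess. -/
structure Sim (M : Mach Δ Q Γ K) (M' : Mach Δ' Q' Γ' K') (v : View Δ) (v' : View Δ') (τ : ℕ)
    (φ : Cfg Q Γ K → Cfg Q' Γ' K') : Prop where
  out : ∀ c, M'.out (φ c).q = M.out c.q
  mid : ∀ c, M.out c.q = none → ∀ g s, 1 ≤ s → s ≤ τ →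
    M'.out (M'.runFrom v' g (φ c) s).q = none
  step : ∀ c, M.out c.q = none → ∀ g, M'.runFrom v' g (φ c) (τ + 1) = φ (M.step v (g τ) c)

namespace Sim

variable {M : Mach Δ Q Γ K} {M' : Mach Δ' Q' Γ' K'} {v : View Δ} {v' : View Δ'} {τ : ℕ}
  {φ : Cfg Q Γ K → Cfg Q' Γ' K'}

theorem run (h : Sim M M' v v' τ φ) (g : ℕ → Bool) (c : Cfg Q Γ K) (t : ℕ) :
    M'.runFrom v' g (φ c) ((τ + 1) * t) =
      φ (M.runFrom v (fun i => g ((τ + 1) * i + τ)) c t) := by
  induction t with
  | zero => rfl
  | succ t ih =>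
    rw [Nat.mul_succ, runFrom_add, ih]
    rw [show M.runFrom v (fun i => g ((τ + 1) * i + τ)) c (t + 1) =
      M.step v (g ((τ + 1) * t + τ)) (M.runFrom v (fun i => g ((τ + 1) * i + τ)) c t) from rfl]
    by_cases ho : M.out (M.runFrom v (fun i => g ((τ + 1) * i + τ)) c t).q = none
    · exact h.step _ ho _
    · have h1 : (M.out (M.runFrom v (fun i => g ((τ + 1) * i + τ)) c t).q).isSome :=
        Option.isSome_iff_ne_none.2 ho
      rw [step_halted _ _ _ _ h1]
      have h2 : (M'.out (M'.runFrom v' (fun i => g ((τ + 1) * t + i))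
          (φ (M.runFrom v (fun i => g ((τ + 1) * i + τ)) c t)) 0).q).isSome := by
        rw [runFrom_zero, h.out]; exact h1
      have h3 := runFrom_halted M' v' (fun i => g ((τ + 1) * t + i))
        (φ (M.runFrom v (fun i => g ((τ + 1) * i + τ)) c t)) 0 (τ + 1) h2
      rw [zero_add] at h3
      exact h3

theorem accepts (h : Sim M M' v v' τ φ) (c : Cfg Q Γ K) :
    (∃ g t, M'.out (M'.runFrom v' g (φ c) t).q = some true) ↔
      ∃ g t, M.out (M.runFrom v g c t).q = some true := by
  constructor
  · rintro ⟨g, T, hT⟩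
    have hT' : T = (τ + 1) * (T / (τ + 1)) + T % (τ + 1) := (Nat.div_add_mod _ _).symm
    set t := T / (τ + 1)
    set s := T % (τ + 1) with hs
    have hsl : s < τ + 1 := Nat.mod_lt _ (Nat.succ_pos _)
    refine ⟨fun i => g ((τ + 1) * i + τ), t, ?_⟩
    rw [hT', runFrom_add, h.run] at hT
    by_cases ho : M.out (M.runFrom v (fun i => g ((τ + 1) * i + τ)) c t).q = none
    · rcases Nat.eq_zero_or_pos s with h0 | h0
      · rw [h0, runFrom_zero, h.out] at hT
        exact hT
      · rw [h.mid _ ho _ s h0 (by omega)] at hT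
        simp at hT
    · have h1 : (M.out (M.runFrom v (fun i => g ((τ + 1) * i + τ)) c t).q).isSome :=
        Option.isSome_iff_ne_none.2 ho
      have h3 := runFrom_halted M' v' (fun i => g ((τ + 1) * t + i))
        (φ (M.runFrom v (fun i => g ((τ + 1) * i + τ)) c t)) 0 s
        (by rw [runFrom_zero, h.out]; exact h1)
      rw [zero_add, runFrom_zero] at h3
      rw [h3, h.out] at hT
      exact hT
  · rintro ⟨g, t, ht⟩
    refine ⟨fun i => g (i / (τ + 1)), (τ + 1) * t, ?_⟩
    rw [h.run, h.out]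
    have : (fun i => (fun i => g (i / (τ + 1))) ((τ + 1) * i + τ)) = g := by
      funext i
      show g (((τ + 1) * i + τ) / (τ + 1)) = g i
      congr 1
      rw [Nat.mul_add_div (Nat.succ_pos τ), Nat.div_eq_of_lt (Nat.lt_succ_self τ), add_zero]
    rw [this]
    exact ht

theorem time (h : Sim M M' v v' τ φ) (c : Cfg Q Γ K) (T : ℕ)
    (hT : ∀ g, (M.out (M.runFrom v g c T).q).isSome) (g : ℕ → Bool) :
    (M'.out (M'.runFrom v' g (φ c) ((τ + 1) * T)).q).isSome := by
  rw [h.run, h.out]
  exact hT _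

theorem space (h : Sim M M' v v' τ φ) (c : Cfg Q Γ K) (S : ℕ)
    (hS : ∀ g t i, ((φ (M.runFrom v g c t)).s i).length ≤ S) (g : ℕ → Bool) (T : ℕ) (i : K') :
    ((M'.runFrom v' g (φ c) T).s i).length ≤ S + τ := by
  have hT' : T = (τ + 1) * (T / (τ + 1)) + T % (τ + 1) := (Nat.div_add_mod _ _).symm
  have hsl : T % (τ + 1) < τ + 1 := Nat.mod_lt _ (Nat.succ_pos _)
  rw [hT', runFrom_add, h.run]
  refine (runFrom_length_le _ _ _ _ _ _).trans ?_
  exact Nat.add_le_add (hS _ _ _) (by omega)

end Sim

/-- simulations from the initial configuration -/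
theorem sim_init {M : Mach Δ Q Γ K} {M' : Mach Δ' Q' Γ' K'} {v : View Δ} {v' : View Δ'} {τ : ℕ}
    {φ : Cfg Q Γ K → Cfg Q' Γ' K'} (h : Sim M M' v v' τ φ) (h0 : φ M.init = M'.init) (e : ℕ)
    (hlen : ∀ c S, (∀ i, (c.s i).length ≤ S) → ∀ i, ((φ c).s i).length ≤ S + e) :
    (∀ time B, M.Bounded time v B → M'.Bounded time v' (B + (e + τ))) ∧
      (M'.Accepts v' ↔ M.Accepts v) := by
  refine ⟨fun time B hB => ?_, ?_⟩
  · unfold Bounded at *
    cases time with
    | true =>
      simp only [if_true] at hB ⊢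
      intro g
      have h1 := h.time M.init (2 ^ B) hB g
      rw [h0] at h1
      refine M'.halted_mono v' g _ ?_ h1
      rw [pow_add, mul_comm]
      refine Nat.mul_le_mul_left _ ?_
      exact (Nat.lt_two_pow_self (n := τ)).trans_le (Nat.pow_le_pow_right (by norm_num) (by omega))
    | false =>
      simp only [Bool.false_eq_true, if_false] at hB ⊢
      intro g t i
      have h1 := h.space M.init (B + e) (fun g t i => hlen _ _ (hB g t) i) g t i
      rw [h0] at h1
      rw [← add_assoc]
      exact h1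
  · have h1 := h.accepts M.init
    rw [h0] at h1
    exact h1

/-! ### Relabelling of what is read -/

/-- change what is read -/
def relabel (M : Mach Δ Q Γ K) (f : Option Δ' → Option Δ) : Mach Δ' Q Γ K where
  adr := M.adr
  bit := M.bit
  start := M.start
  out := M.out
  next := fun q h o b => M.next q h (f o) b

theorem relabel_sim (M : Mach Δ Q Γ K) (f : Option Δ' → Option Δ) (v' : View Δ') :
    Sim M (relabel M f) (fun q => f (v' q)) v' 0 id where
  out := fun _ => rfl
  mid := fun c _ g s h1 h2 => by omega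
  step := by
    intro c _ g
    show (relabel M f).step v' (g 0) c = M.step _ (g 0) c
    rfl

theorem relabel_det (M : Mach Δ Q Γ K) (f : Option Δ' → Option Δ) (h : M.Det) :
    (relabel M f).Det := fun q hh o b b' => h q hh (f o) b b'

theorem relabel_run (M : Mach Δ Q Γ K) (f : Option Δ' → Option Δ) (v' : View Δ') (g : ℕ → Bool)
    (t : ℕ) : (relabel M f).run v' g t = M.run (fun q => f (v' q)) g t := by
  induction t with
  | zero => rfl
  | succ t ih =>
    show (relabel M f).step v' (g t) ((relabel M f).run v' g t) = _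
    rw [ih]; rfl

theorem relabel_bounded (M : Mach Δ Q Γ K) (f : Option Δ' → Option Δ) (v' : View Δ') (time : Bool)
    (B : ℕ) : (relabel M f).Bounded time v' B ↔ M.Bounded time (fun q => f (v' q)) B := by
  unfold Bounded
  simp only [relabel_run]
  rfl

theorem relabel_accepts (M : Mach Δ Q Γ K) (f : Option Δ' → Option Δ) (v' : View Δ') :
    (relabel M f).Accepts v' ↔ M.Accepts (fun q => f (v' q)) := by
  unfold Accepts
  simp only [relabel_run]
  rfl

end H85L
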