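import Pool.Agent.H85L.Defs

/-!
# Elementary facts about runs
-/

set_option autoImplicit false

namespace H85L

namespace Mach

variable {Δ Q Γ K : Type} (M : Mach Δ Q Γ K)

theorem runFrom_zero (v : View Δ) (g : ℕ → Bool) (c : Cfg Q Γ K) : M.runFrom v g c 0 = c := rfl

theorem runFrom_succ (v : View Δ) (g : ℕ → Bool) (c : Cfg Q Γ K) (t : ℕ) :
    M.runFrom v g c (t + 1) = M.step v (g t) (M.runFrom v g c t) := rfl

theorem runFrom_add (v : View Δ) (g : ℕ → Bool) (c : Cfg Q Γ K) (s t : ℕ) :
    M.runFrom v g c (s + t) = M.runFrom v (fun i => g (s + i)) (M.runFrom v g c s) t := by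
  induction t with
  | zero => rfl
  | succ t ih => rw [← add_assoc, runFrom_succ, runFrom_succ, ih]

theorem step_halted (v : View Δ) (b : Bool) (c : Cfg Q Γ K) (h : (M.out c.q).isSome) :
    M.step v b c = c := by
  unfold step; rw [if_pos h]

theorem step_live (v : View Δ) (b : Bool) (c : Cfg Q Γ K) (h : M.out c.q = none) :
    M.step v b c =
      ⟨(M.next c.q (fun i => (c.s i).head?) (v ((c.s M.adr).map M.bit)) b).1,
        fun i => ((M.next c.q (fun i => (c.s i).head?)
          (v ((c.s M.adr).map M.bit)) b).2 i).app (c.s i)⟩ := by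
  unfold step; rw [if_neg (by simp [h])]

theorem runFrom_halted (v : View Δ) (g : ℕ → Bool) (c : Cfg Q Γ K) (s t : ℕ)
    (h : (M.out (M.runFrom v g c s).q).isSome) :
    M.runFrom v g c (s + t) = M.runFrom v g c s := by
  induction t with
  | zero => rfl
  | succ t ih => rw [← add_assoc, runFrom_succ, ih, step_halted _ _ _ _ h]

theorem halted_mono (v : View Δ) (g : ℕ → Bool) (c : Cfg Q Γ K) {s t : ℕ} (hst : s ≤ t)
    (h : (M.out (M.runFrom v g c s).q).isSome) :
    (M.out (M.runFrom v g c t).q).isSome := by
  obtain ⟨k, rfl⟩ := Nat.exists_eq_add_of_le hst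
  rwa [runFrom_halted _ _ _ _ _ _ h]

theorem app_length_le (o : Op Γ) (l : List Γ) : (o.app l).length ≤ l.length + 1 := by
  cases o <;> simp [Op.app]
  omega

theorem step_length_le (v : View Δ) (b : Bool) (c : Cfg Q Γ K) (i : K) :
    ((M.step v b c).s i).length ≤ (c.s i).length + 1 := by
  unfold step
  split_ifs
  · omega
  · exact app_length_le _ _

theorem runFrom_length_le (v : View Δ) (g : ℕ → Bool) (c : Cfg Q Γ K) (t : ℕ) (i : K) :
    ((M.runFrom v g c t).s i).length ≤ (c.s i).length + t := by
  induction t with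
  | zero => exact le_rfl
  | succ t ih => exact (M.step_length_le v (g t) _ i).trans (by omega)

/-- two guess sequences that agree before `t` give the same run up to `t` -/
theorem runFrom_congr (v : View Δ) (g g' : ℕ → Bool) (c : Cfg Q Γ K) (t : ℕ)
    (h : ∀ i, i < t → g i = g' i) : M.runFrom v g c t = M.runFrom v g' c t := by
  induction t with
  | zero => rfl
  | succ t ih =>
    rw [runFrom_succ, runFrom_succ, ih (fun i hi => h i (by omega)), h t (by omega)]

theorem Bounded.mono {M : Mach Δ Q Γ K} {time : Bool} {v : View Δ} {B B' : ℕ} (hB : B ≤ B')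
    (h : M.Bounded time v B) : M.Bounded time v B' := by
  unfold Bounded at *
  split_ifs with ht
  · rw [if_pos ht] at h
    intro g
    exact M.halted_mono v g _ (Nat.pow_le_pow_right (by norm_num) hB) (h g)
  · rw [if_neg ht] at h
    intro g t i
    exact (h g t i).trans hB

end Mach

end H85L
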