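import Mathlib

/-!
# A clock with two stacks: depth first search in a binary tree
-/

set_option autoImplicit false

namespace H85L

/-- the states of the clock -/
inductive Dir
  | down
  | up
  | mid

instance : Finite Dir := by
  have : Function.Injective (fun x : Dir => match x with
    | .down => (0 : Fin 3) | .up => 1 | .mid => 2) := by
    intro x y h
    cases x <;> cases y <;> simp_all
  exact Finite.of_injective _ this

/-- one move of the clock: state, path stack, number of tokens -/
def clkStep : Dir × List Bool × ℕ → Option (Dir × List Bool × ℕ)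
  | (.down, p, m + 1) => some (.down, false :: p, m)
  | (.down, p, 0) => some (.up, p, 0)
  | (.up, [], _) => none
  | (.up, false :: p, m) => some (.mid, p, m)
  | (.up, true :: p, m) => some (.up, p, m + 1)
  | (.mid, p, m) => some (.down, true :: p, m)

/-- `t` moves of the clock -/
def clkRun (s : Dir × List Bool × ℕ) : ℕ → Option (Dir × List Bool × ℕ)
  | 0 => some s
  | t + 1 => (clkRun s t).bind clkStep

theorem clkRun_add (s : Dir × List Bool × ℕ) (a b : ℕ) :
    clkRun s (a + b) = (clkRun s a).bind (fun s' => clkRun s' b) := by
  induction b with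
  | zero => simp [clkRun]
  | succ b ih =>
    rw [← add_assoc, clkRun, ih]
    cases clkRun s a with
    | none => rfl
    | some s' => rfl

theorem clkRun_none_mono (s : Dir × List Bool × ℕ) (a b : ℕ) (hab : a ≤ b)
    (h : clkRun s a = none) : clkRun s b = none := by
  obtain ⟨k, rfl⟩ := Nat.exists_eq_add_of_le hab
  rw [clkRun_add, h]; rfl

/-- the time of the search in the tree of depth `m` -/
def clkTime : ℕ → ℕ
  | 0 => 1
  | m + 1 => 2 * clkTime m + 4

theorem clkTime_eq (m : ℕ) : clkTime m + 4 = 5 * 2 ^ m := by
  induction m with
  | zero => rfl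
  | succ m ih => rw [clkTime, pow_succ]; omega

theorem le_clkTime (m : ℕ) : 2 ^ m ≤ clkTime m := by
  have := clkTime_eq m
  have h2 : 1 ≤ 2 ^ m := Nat.one_le_two_pow
  omega

theorem clk_search (m : ℕ) : ∀ p : List Bool,
    clkRun (.down, p, m) (clkTime m) = some (.up, p, m) := by
  induction m with
  | zero => intro p; rfl
  | succ m ih =>
    intro p
    have h1 : clkTime (m + 1) = 1 + (clkTime m + (1 + (1 + (clkTime m + 1)))) := by
      rw [clkTime]; ring
    rw [h1, clkRun_add]
    show (some (Dir.down, false :: p, m)).bind _ = _
    simp only [Option.bind_some]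
    rw [clkRun_add, ih]
    simp only [Option.bind_some]
    rw [clkRun_add]
    show (some (Dir.mid, p, m)).bind _ = _
    simp only [Option.bind_some]
    rw [clkRun_add]
    show (some (Dir.down, true :: p, m)).bind _ = _
    simp only [Option.bind_some]
    rw [clkRun_add, ih]
    rfl

theorem clk_end (m : ℕ) : clkRun (.down, [], m) (clkTime m + 1) = none := by
  rw [clkRun_add, clk_search]; rfl

theorem clk_alive (m : ℕ) (p : List Bool) (t : ℕ) (ht : t ≤ clkTime m) :
    ∃ s, clkRun (.down, p, m) t = some s := by
  cases h : clkRun (.down, p, m) t with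
  | some s => exact ⟨s, rfl⟩
  | none =>
    have := clkRun_none_mono _ _ _ ht h
    rw [clk_search] at this
    simp at this

end H85L
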