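import Pool.Agent.H85L.Lower

/-!
# Codes of machines, and the empty oracle
-/

set_option autoImplicit false

namespace H85L

open Mach

/-! ### Machines with states, letters and stacks in `Fin` -/

instance {Γ : Type} [Finite Γ] : Finite (Op Γ) := by
  have : Function.Injective (fun x : Op Γ => match x with
    | .stay => (Sum.inl false : Bool ⊕ Γ)
    | .pop => Sum.inl true
    | .push g => Sum.inr g) := by
    intro x y h
    cases x <;> cases y <;> simp_all
  exact Finite.of_injective _ this

instance {Δ Q Γ K : Type} [Finite Δ] [Finite Q] [Finite Γ] [Finite K] :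
    Finite (Mach Δ Q Γ K) := by
  have : Function.Injective (fun M : Mach Δ Q Γ K => (M.adr, M.bit, M.start, M.out, M.next)) := by
    intro M M' h
    cases M
    cases M'
    simp only [Prod.mk.injEq] at h
    obtain ⟨h1, h2, h3, h4, h5⟩ := h
    subst h1 h2 h3 h4 h5
    rfl
  have f1 : Finite (Op Γ) := inferInstance
  have f2 : Finite (K → Op Γ) := inferInstance
  have f3 : Finite (Option Δ → Bool → Q × (K → Op Γ)) := inferInstance
  have f4 : Finite (K → Option Γ) := inferInstance
  have f5 : Finite ((K → Option Γ) → Option Δ → Bool → Q × (K → Op Γ)) := inferInstance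
  have f6 : Finite (Q → (K → Option Γ) → Option Δ → Bool → Q × (K → Op Γ)) := inferInstance
  have f7 : Finite (Γ → Bool) := inferInstance
  have f8 : Finite (Q → Option Bool) := inferInstance
  exact Finite.of_injective _ this

section

variable {Δ Q Γ K Q' Γ' K' : Type} (M : Mach Δ Q Γ K) (eQ : Q ≃ Q') (eΓ : Γ ≃ Γ') (eK : K ≃ K')

/-- renaming of states, letters and stacks -/
def rename : Mach Δ Q' Γ' K' where
  adr := eK M.adr
  bit := fun g => M.bit (eΓ.symm g)
  start := eQ M.start
  out := fun q => M.out (eQ.symm q)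
  next := fun q h o b =>
    (eQ (M.next (eQ.symm q) (fun i => (h (eK i)).map eΓ.symm) o b).1,
      fun i => ((M.next (eQ.symm q) (fun i => (h (eK i)).map eΓ.symm) o b).2 (eK.symm i)).map eΓ)

theorem rename_det (h : M.Det) : (rename M eQ eΓ eK).Det := by
  intro q hh o b b'
  show (eQ (M.next _ _ o b).1, _) = (eQ (M.next _ _ o b').1, _)
  rw [h _ _ o b b']

/-- the renamed configuration -/
def renameF (c : Cfg Q Γ K) : Cfg Q' Γ' K' := ⟨eQ c.q, fun i => (c.s (eK.symm i)).map eΓ⟩

theorem rename_sim (v : View Δ) : Sim M (rename M eQ eΓ eK) v v 0 (renameF eQ eΓ eK) where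
  out := by
    intro c
    show M.out (eQ.symm (eQ c.q)) = _
    rw [Equiv.symm_apply_apply]
  mid := fun c _ g s h1 h2 => by omega
  step := by
    intro c hc g
    show (rename M eQ eΓ eK).step v (g 0) (renameF eQ eΓ eK c) = _
    have hc' : (rename M eQ eΓ eK).out (renameF eQ eΓ eK c).q = none := by
      show M.out (eQ.symm (eQ c.q)) = _
      rw [Equiv.symm_apply_apply]; exact hc
    rw [step_live _ _ _ _ hc, step_live _ _ _ _ hc']
    have h1 : (((renameF eQ eΓ eK c).s (rename M eQ eΓ eK).adr).map (rename M eQ eΓ eK).bit) =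
        (c.s M.adr).map M.bit := by
      show ((c.s (eK.symm (eK M.adr))).map eΓ).map (fun g => M.bit (eΓ.symm g)) = _
      rw [Equiv.symm_apply_apply, List.map_map]
      congr 1
      funext g
      simp
    have h2 : (fun i => (((renameF eQ eΓ eK c).s (eK i)).head?).map eΓ.symm) =
        fun i => (c.s i).head? := by
      funext i
      show (((c.s (eK.symm (eK i))).map eΓ).head?).map eΓ.symm = _
      rw [Equiv.symm_apply_apply]
      cases c.s i <;> simp
    have h3 : (rename M eQ eΓ eK).next (renameF eQ eΓ eK c).q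
        (fun i => ((renameF eQ eΓ eK c).s i).head?)
        (v (((renameF eQ eΓ eK c).s (rename M eQ eΓ eK).adr).map (rename M eQ eΓ eK).bit)) (g 0) =
        (eQ (M.next c.q (fun i => (c.s i).head?) (v ((c.s M.adr).map M.bit)) (g 0)).1, fun i =>
          ((M.next c.q (fun i => (c.s i).head?) (v ((c.s M.adr).map M.bit)) (g 0)).2
            (eK.symm i)).map eΓ) := by
      rw [h1]
      show (eQ (M.next (eQ.symm (eQ c.q)) (fun i => (((renameF eQ eΓ eK c).s (eK i)).head?).map
        eΓ.symm) _ (g 0)).1, fun i => ((M.next (eQ.symm (eQ c.q)) (fun i =>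
          (((renameF eQ eΓ eK c).s (eK i)).head?).map eΓ.symm) _ (g 0)).2 (eK.symm i)).map eΓ) = _
      rw [h2, Equiv.symm_apply_apply]
    rw [h3]
    ext1
    · rfl
    · funext i
      exact Op.app_map _ _ _

theorem rename_main (v : View Δ) :
    (∀ time B, M.Bounded time v B → (rename M eQ eΓ eK).Bounded time v B) ∧
      ((rename M eQ eΓ eK).Accepts v ↔ M.Accepts v) := by
  have h := sim_init (rename_sim M eQ eΓ eK v) (by
    ext1
    · rfl
    · funext i; rfl) 0 (fun c S hS i => by
    show ((c.s (eK.symm i)).map eΓ).length ≤ S + 0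
    rw [List.length_map]
    exact hS _)
  simpa using h

end

/-- a code: a machine and two constants -/
abbrev Code (Δ : Type) :=
  (Σ (a b k : ℕ), Mach (Bool × Option Δ) (Fin a) (Fin b) (Fin k)) × ℕ × ℕ

/-- the code `p` decides the language `L` relative to the oracle `A` -/
def Code.Dec {Δ : Type} (κ : Kind) (p : Code Δ) (A : List Bool → Bool) (L : Set (List Δ)) : Prop :=
  ∀ x : List Δ, p.1.2.2.2.Bounded κ.time (oracleView A p.2.1 x) (p.2.2 * (x.length + 1)) ∧
    (x ∈ L ↔ p.1.2.2.2.Accepts (oracleView A p.2.1 x))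

theorem oracleClass_code {Δ : Type} {κ : Kind} {A : List Bool → Bool} {L : Set (List Δ)}
    (h : OracleClass κ A L) : ∃ p : Code Δ, (κ.det = true → p.1.2.2.2.Det) ∧ p.Dec κ A L := by
  obtain ⟨c, Q, Γ, K, hQ, hΓ, hK, M, hdet, C, hM⟩ := h
  obtain ⟨a, ⟨eQ⟩⟩ := Finite.exists_equiv_fin Q
  obtain ⟨b, ⟨eΓ⟩⟩ := Finite.exists_equiv_fin Γ
  obtain ⟨k, ⟨eK⟩⟩ := Finite.exists_equiv_fin K
  refine ⟨(⟨a, b, k, rename M eQ eΓ eK⟩, c, C), fun h => rename_det M eQ eΓ eK (hdet h),
    fun x => ⟨?_, ?_⟩⟩
  · exact (rename_main M eQ eΓ eK _).1 _ _ (hM x).1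
  · rw [(hM x).2]
    exact (rename_main M eQ eΓ eK _).2.symm

/-! ### Oracles with finitely many values `true` -/

theorem lin_of_finite {κ : Kind} {Δ : Type} {L : Set (List Δ)} (A : List Bool → Bool) (K0 : ℕ)
    (hA : ∀ q, K0 ≤ q.length → A q = false) (h : OracleClass κ A L) : LinClass κ L := by
  classical
  obtain ⟨c, Q, Γ, K, hQ, hΓ, hK, D, hdet, C, hD⟩ := h
  let obs : List Bool → (Fin 3 → Bool) → Option Δ → Option (Bool × Option Δ) :=
    fun tp f o => if f 1 then some (A tp, o) else none
  refine ⟨_, _, _, inferInstance, inferInstance, inferInstance,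
    spL D K0 0 obs ![0, 1, 0] ![0, c + 1, 0], fun h => spL_det _ _ _ _ _ _ (hdet h),
    C + (∑ i : Fin 3, ((![0, 1, 0] : Fin 3 → ℕ) i + (![0, c + 1, 0] : Fin 3 → ℕ) i) + 3) + 1,
    fun x => ?_⟩
  have hmain := spL_main D K0 0 obs ![0, 1, 0] ![0, c + 1, 0] x.length
    (Nat.zero_le _) (Nat.zero_le _) (oracleView A c x) (headView x)
    (by
      intro L
      have h0 : (![0, 1, 0] : Fin 3 → ℕ) 0 + x.length * (![0, c + 1, 0] : Fin 3 → ℕ) 0 = 0 := by
        simp
      have h1 : (![0, 1, 0] : Fin 3 → ℕ) 1 + x.length * (![0, c + 1, 0] : Fin 3 → ℕ) 1 =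
          (c + 1) * x.length + 1 := by
        show 1 + x.length * (c + 1) = _
        ring
      have hAt : A (L.take K0) = A L := by
        by_cases h : L.length ≤ K0
        · rw [List.take_of_length_le h]
        · rw [hA L (by omega), hA (L.take K0) (by rw [List.length_take]; omega)]
      rw [h0, List.drop_zero, Nat.sub_zero, List.take_length]
      show (if L.length ≤ (c + 1) * x.length then some (A L, x[L.length]?) else none) =
        if decide (L.length < (![0, 1, 0] : Fin 3 → ℕ) 1 +
          x.length * (![0, c + 1, 0] : Fin 3 → ℕ) 1) = true then some (A (L.take K0), headView x L)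
          else none
      rw [h1, hAt]
      by_cases h : L.length ≤ (c + 1) * x.length
      · rw [if_pos h, if_pos (by simp; omega)]
        rfl
      · rw [if_neg h, if_neg (by simp; omega)])
    (fun i hi => (headView_zeros x i).2 hi)
    (by
      have := (headView_zeros x x.length).not.2 (lt_irrefl _)
      simpa using this)
  constructor
  · refine (hmain.1 κ.time _ (hD x).1).mono ?_
    set S := ∑ i : Fin 3, ((![0, 1, 0] : Fin 3 → ℕ) i + (![0, c + 1, 0] : Fin 3 → ℕ) i)
    nlinarith
  · rw [hmain.2, ← (hD x).2]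

theorem oracle_of_lin {κ : Kind} {Δ : Type} {L : Set (List Δ)} (A : List Bool → Bool)
    (h : LinClass κ L) : OracleClass κ A L := by
  obtain ⟨Q, Γ, K, hQ, hΓ, hK, M, hdet, C, hM⟩ := h
  have hview : ∀ x : List Δ, (fun q => (oracleView A 0 x q).bind Prod.snd) = headView x := by
    intro x
    funext q
    unfold oracleView headView
    by_cases h : q.length ≤ (0 + 1) * x.length
    · rw [if_pos h]
      rfl
    · rw [if_neg h]
      show none = x[q.length]?
      symm
      rw [List.getElem?_eq_none_iff]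
      omega
  refine ⟨0, Q, Γ, K, hQ, hΓ, hK, relabel M (fun o => o.bind Prod.snd),
    fun h => relabel_det _ _ (hdet h), C, fun x => ⟨?_, ?_⟩⟩
  · rw [relabel_bounded, hview]
    exact (hM x).1
  · rw [relabel_accepts, hview]
    exact (hM x).2

end H85L
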