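import Pool.Agent.H85L.Star

/-!
# An oracle relative to which all the classes coincide
-/

set_option autoImplicit false

namespace H85L

open Mach

theorem blk_length (w j : ℕ) : (blk w j).length = j := by
  induction j with
  | zero => rfl
  | succ j ih => simp [blk, ih]

theorem blk_inj (w w' : ℕ) : ∀ j, w < j → blk w j = blk w' j → w = w' := by
  intro j
  induction j with
  | zero => intro h; omega
  | succ j ih =>
    intro h h1
    simp only [blk, List.cons.injEq] at h1
    by_cases hj : j = w
    · have h2 : decide (j = w') = true := by
        rw [← h1.1]; simp [hj]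
      rw [decide_eq_true_eq] at h2
      omega
    · exact ih (by omega) h1.2

theorem flat_length {m : ℕ} (e : ℕ) (x : List (Fin m)) :
    (x.flatMap (fun w => blk w.val e)).length = x.length * e := by
  induction x with
  | nil => simp
  | cons w x ih => rw [List.flatMap_cons, List.length_append, blk_length, ih, List.length_cons]; ring

theorem flat_inj {m e : ℕ} (he : m ≤ e) : ∀ (x x' : List (Fin m)) (r r' : List Bool),
    x.length = x'.length → x.flatMap (fun w => blk w.val e) ++ r =
      x'.flatMap (fun w => blk w.val e) ++ r' → x = x' := by
  intro x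
  induction x with
  | nil =>
    intro x' r r' h _
    exact (List.length_eq_zero_iff.1 h.symm).symm
  | cons w x ih =>
    intro x' r r' h h1
    cases x' with
    | nil => simp at h
    | cons w' x' =>
      rw [List.flatMap_cons, List.flatMap_cons, List.append_assoc, List.append_assoc] at h1
      have h2 := List.append_inj h1 (by rw [blk_length, blk_length])
      have h3 : w = w' := Fin.ext (blk_inj w.val w'.val e (by omega) h2.1)
      rw [h3, ih x' r r' (by simpa using h) h2.2]

theorem ones_inj : ∀ (n n' : ℕ) (a a' : List Bool),
    List.replicate n true ++ false :: a = List.replicate n' true ++ false :: a' →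
      n = n' ∧ a = a' := by
  intro n
  induction n with
  | zero =>
    intro n' a a' h
    cases n' with
    | zero => simpa using h
    | succ n' => simp [List.replicate_succ] at h
  | succ n ih =>
    intro n' a a' h
    cases n' with
    | zero => simp [List.replicate_succ] at h
    | succ n' =>
      simp only [List.replicate_succ, List.cons_append, List.cons.injEq, true_and] at h
      have := ih n' a a' h
      exact ⟨by omega, this.2⟩

theorem quest_length {m : ℕ} (e N : ℕ) (x : List (Fin m)) :
    (quest e N x).length = N + 1 + (e + 2) * x.length := by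
  unfold quest
  rw [List.length_append, List.length_replicate, List.length_cons, List.length_append,
    flat_length, List.length_replicate]
  ring

theorem quest_inj {m e : ℕ} (he : m ≤ e) (N : ℕ) (x x' : List (Fin m))
    (h : quest e N x = quest e N x') : x = x' := by
  have h1 : x.length = x'.length := by
    have := congrArg List.length h
    rw [quest_length, quest_length] at this
    have h2 : (e + 2) * x.length = (e + 2) * x'.length := by omega
    exact Nat.eq_of_mul_eq_mul_left (by omega) h2
  exact flat_inj (by omega) x x' _ _ h1 (ones_inj _ _ _ _ h).2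

/-- all machines: number of input letters, machine, constant of the view -/
abbrev UCode := Σ (m a b k : ℕ), Mach (Bool × Option (Fin m)) (Fin a) (Fin b) (Fin k) × ℕ

/-- the number of a code -/
noncomputable def unum : UCode → ℕ := (exists_injective_nat UCode).choose

theorem unum_inj : Function.Injective unum := (exists_injective_nat UCode).choose_spec

/-- acceptance by the machine with the code `p` -/
def UAcc (p : UCode) (A : List Bool → Bool) (x : List (Fin p.1)) : Prop :=
  p.2.2.2.2.1.Accepts (oracleView A p.2.2.2.2.2 x)

/-- the question about the machine with the code `p` -/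
noncomputable def uq (p : UCode) (x : List (Fin p.1)) : List Bool :=
  quest (p.1 + p.2.2.2.2.2) (unum p) x

theorem uq_inj (p p' : UCode) (x : List (Fin p.1)) (x' : List (Fin p'.1))
    (h : uq p x = uq p' x') : (⟨p, x⟩ : Σ p : UCode, List (Fin p.1)) = ⟨p', x'⟩ := by
  have h1 : unum p = unum p' := (ones_inj _ _ _ _ h).1
  have h2 : p = p' := unum_inj h1
  subst h2
  rw [quest_inj (Nat.le_add_right _ _) _ x x' h]

open Classical in
/-- approximations to the oracle: the values at addresses of length less than `k` -/
noncomputable def uapp : ℕ → List Bool → Bool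
  | 0 => fun _ => false
  | k + 1 => fun q => if q.length = k then
      decide (∃ (p : UCode) (x : List (Fin p.1)), uq p x = q ∧ UAcc p (uapp k) x)
    else uapp k q

open Classical in
theorem uapp_succ (k : ℕ) (q : List Bool) : uapp (k + 1) q = if q.length = k then
    decide (∃ (p : UCode) (x : List (Fin p.1)), uq p x = q ∧ UAcc p (uapp k) x)
    else uapp k q := rfl

/-- the oracle -/
noncomputable def uor : List Bool → Bool := fun q => uapp (q.length + 1) q

theorem uapp_eq (k : ℕ) (q : List Bool) (h : q.length < k) : uapp k q = uor q := by
  induction k with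
  | zero => omega
  | succ k ih =>
    by_cases hq : q.length = k
    · rw [uor, hq]
    · rw [uapp_succ, if_neg hq]
      exact ih (by omega)

theorem uor_uq (p : UCode) (x : List (Fin p.1)) : uor (uq p x) = true ↔ UAcc p uor x := by
  classical
  have hview : oracleView (uapp (uq p x).length) p.2.2.2.2.2 x =
      oracleView uor p.2.2.2.2.2 x := by
    funext q
    unfold oracleView
    split_ifs with h
    · rw [uapp_eq _ _ (by
        rw [uq, quest_length]
        have h2 : (p.2.2.2.2.2 + 1) * x.length ≤ (p.1 + p.2.2.2.2.2 + 2) * x.length :=
          Nat.mul_le_mul_right _ (by omega)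
        omega)]
    · rfl
  rw [show uor (uq p x) = decide (∃ (p' : UCode) (x' : List (Fin p'.1)), uq p' x' = uq p x ∧
      UAcc p' (uapp (uq p x).length) x') by
    rw [uor, uapp_succ, if_pos rfl], decide_eq_true_eq]
  constructor
  · rintro ⟨p', x', h1, h2⟩
    have h3 := uq_inj _ _ _ _ h1
    obtain ⟨rfl, h4⟩ := Sigma.mk.inj_iff.1 h3
    rw [heq_eq_eq] at h4
    subst h4
    unfold UAcc at *
    rw [hview] at h2
    exact h2
  · intro h
    refine ⟨p, x, rfl, ?_⟩
    unfold UAcc at *
    rw [hview]
    exact h

/-- relative to this oracle all kinds of machines are equally powerful -/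
theorem collapse (κ₁ κ₂ : Kind) {Ω : Type} [Finite Ω] (L : Set (List Ω))
    (h : OracleClass κ₂ uor L) : OracleClass κ₁ uor L := by
  classical
  obtain ⟨c, Q, Γ, K, hQ, hΓ, hK, M, _, C, hM⟩ := h
  obtain ⟨m, ⟨eΩ⟩⟩ := Finite.exists_equiv_fin Ω
  obtain ⟨a, ⟨eQ⟩⟩ := Finite.exists_equiv_fin Q
  obtain ⟨b, ⟨eΓ⟩⟩ := Finite.exists_equiv_fin Γ
  obtain ⟨k, ⟨eK⟩⟩ := Finite.exists_equiv_fin K
  -- the machine on inputs over `Fin m`
  set f : Option (Bool × Option (Fin m)) → Option (Bool × Option Ω) :=
    fun o => o.map (fun y => (y.1, y.2.map eΩ.symm)) with hf
  set p : UCode := ⟨m, a, b, k, rename (relabel M f) eQ eΓ eK, c⟩ with hp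
  have hview : ∀ x : List Ω, (fun q => f (oracleView uor c (x.map eΩ) q)) =
      oracleView uor c x := by
    intro x
    funext q
    unfold oracleView
    rw [List.length_map]
    split_ifs with h
    · simp only [hf, Option.map_some, List.getElem?_map, Option.map_map]
      congr 2
      cases x[q.length]? <;> simp
    · rfl
  have hacc : ∀ x : List Ω, UAcc p uor (x.map eΩ) ↔ x ∈ L := by
    intro x
    rw [(hM x).2]
    show (rename (relabel M f) eQ eΓ eK).Accepts (oracleView uor c (x.map eΩ)) ↔ _
    rw [(rename_main (relabel M f) eQ eΓ eK _).2, relabel_accepts, hview]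
  -- the machine which asks one question
  set e := m + c with he
  set N := unum p with hN
  set b0 : Bool := decide (([] : List Ω) ∈ L) with hb0
  set f' : Option (Bool × Option Ω) → Option (Bool × Option (Fin m)) :=
    fun o => o.map (fun y => (y.1, y.2.map eΩ)) with hf'
  refine ⟨e + N + 2, _, _, _, inferInstance, inferInstance, inferInstance,
    relabel (star (m := m) e N b0) f', fun _ => relabel_det _ _ (star_det e N b0),
    e + N + 6, fun x => ?_⟩
  set x' := x.map eΩ with hx'
  have hlen : x'.length = x.length := by rw [hx', List.length_map]
  have hview' : (fun q => f' (oracleView uor (e + N + 2) x q)) =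
      oracleView uor (e + N + 2) x' := by
    funext q
    unfold oracleView
    rw [hlen]
    split_ifs with h
    · simp only [hf', Option.map_some, hx', List.getElem?_map]
    · rfl
  rw [relabel_bounded, relabel_accepts, hview']
  have hmain := star_main (e := e) (N := N) (b0 := b0) (v := oracleView uor (e + N + 2) x') x'
    (by
      intro i w hw
      obtain ⟨hi, _⟩ := List.getElem?_eq_some_iff.1 hw
      refine ⟨uor (List.replicate i false), ?_⟩
      unfold oracleView
      rw [List.length_replicate, if_pos (by nlinarith), hw])
    (by
      refine ⟨uor (List.replicate x'.length false), ?_⟩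
      unfold oracleView
      rw [List.length_replicate, if_pos (by nlinarith), List.getElem?_eq_none le_rfl])
  set T := x'.length + 1 + x'.length * (e + 1) + 1 + (N + 1) + 1 with hT
  set ans := ((oracleView uor (e + N + 2) x' (quest e N x')).map Prod.fst).getD b0 with hans
  have hdet := det_run_main (star e N b0) (oracleView uor (e + N + 2) x') T ans (by
    intro g
    show (star e N b0).out ((star e N b0).runFrom _ g (star e N b0).init T).q = _
    rw [hmain g]
    rfl)
  have hTle : T ≤ (e + N + 6) * (x.length + 1) := by
    rw [hT, hlen]
    nlinarith [Nat.zero_le (N * x.length)]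
  refine ⟨(hdet.2 κ₁.time).mono hTle, ?_⟩
  rw [hdet.1]
  have hanseq : ans = true ↔ x ∈ L := by
    rw [hans]
    unfold oracleView
    rw [quest_length, hlen]
    rcases Nat.eq_zero_or_pos x.length with h0 | h0
    · have hx0 : x = [] := List.length_eq_zero_iff.1 h0
      rw [if_neg (by rw [h0]; omega)]
      show b0 = true ↔ _
      rw [hb0, hx0, decide_eq_true_eq]
    · rw [if_pos (by nlinarith)]
      show uor (quest e N x') = true ↔ _
      rw [← hacc x]
      exact uor_uq p x'
  exact hanseq.symm

end H85L
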