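import Mathlib

/-!
# Machines with stacks, their views of the input, and the eight kinds of classes
-/

set_option autoImplicit false

namespace H85L

/-- what one move does to one stack -/
inductive Op (Γ : Type)
  | stay
  | pop
  | push (g : Γ)

/-- the stack `l` (top letter first) after the operation; `pop` does nothing to an empty stack -/
def Op.app {Γ : Type} : Op Γ → List Γ → List Γ
  | .stay, l => l
  | .pop, l => l.tail
  | .push g, l => g :: l

/-- What a machine can read: a partial function from binary words (addresses) to letters. -/
abbrev View (Δ : Type) := List Bool → Option Δ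

/-- A machine with states `Q` and a family of stacks, indexed by `K` and over the alphabet `Γ`
(two stacks are a tape). Every letter of `Γ` carries a bit; the bits of the letters on the stack
`adr` form the current address. In one move the machine sees its state, the top letters of all
stacks (`none` for an empty stack), what it can read at the current address (a letter of `Δ` or
`none`) and a guessed bit. `out` is `some true` in accepting and `some false` in rejecting
states. -/
structure Mach (Δ Q Γ K : Type) where
  adr : K
  bit : Γ → Bool
  start : Q
  out : Q → Option Bool
  next : Q → (K → Option Γ) → Option Δ → Bool → Q × (K → Op Γ)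

/-- a configuration: the state and the contents of the stacks (top letters first) -/
@[ext] structure Cfg (Q Γ K : Type) where
  q : Q
  s : K → List Γ

namespace Mach

variable {Δ Q Γ K : Type} (M : Mach Δ Q Γ K)

/-- the initial configuration: all stacks are empty -/
def init : Cfg Q Γ K := ⟨M.start, fun _ => []⟩

/-- one move; a machine that has accepted or rejected does not move any more -/
def step (v : View Δ) (b : Bool) (c : Cfg Q Γ K) : Cfg Q Γ K :=
  if (M.out c.q).isSome then c else
    let r := M.next c.q (fun i => (c.s i).head?) (v ((c.s M.adr).map M.bit)) b
    ⟨r.1, fun i => (r.2 i).app (c.s i)⟩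

/-- the configuration after `t` moves from `c` with the guesses `g 0, g 1, ...` -/
def runFrom (v : View Δ) (g : ℕ → Bool) (c : Cfg Q Γ K) : ℕ → Cfg Q Γ K
  | 0 => c
  | t + 1 => M.step v (g t) (runFrom v g c t)

/-- the configuration after `t` moves from the initial configuration -/
def run (v : View Δ) (g : ℕ → Bool) (t : ℕ) : Cfg Q Γ K := M.runFrom v g M.init t

/-- some computation reaches an accepting state -/
def Accepts (v : View Δ) : Prop := ∃ g t, M.out (M.run v g t).q = some true

/-- the machine makes no use of the guessed bits -/
def Det : Prop := ∀ q h o b b', M.next q h o b = M.next q h o b'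

/-- `time = true`: every computation accepts or rejects within `2 ^ B` moves;
`time = false`: in every computation no stack is ever higher than `B` -/
def Bounded (time : Bool) (v : View Δ) (B : ℕ) : Prop :=
  if time then ∀ g, (M.out (M.run v g (2 ^ B)).q).isSome
  else ∀ g t i, ((M.run v g t).s i).length ≤ B

end Mach

/-- A kind of machines: deterministic or nondeterministic, with a bound on time or on space. -/
structure Kind where
  det : Bool
  time : Bool

/-- The set `B` of inputs is decided by a machine of the kind `κ` with finitely many states,
letters and stacks; `size` is the size of an input and `view` is what can be read. The space bound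
is `c * (size + 1)` and the time bound is `2 ^ (c * (size + 1))` for a constant `c`. -/
def DecidedBy {I Δ : Type} (κ : Kind) (size : I → ℕ) (view : I → View Δ) (B : Set I) : Prop :=
  ∃ (Q Γ K : Type) (_ : Finite Q) (_ : Finite Γ) (_ : Finite K) (M : Mach Δ Q Γ K),
    (κ.det = true → M.Det) ∧ ∃ c, ∀ x, M.Bounded κ.time (view x) (c * (size x + 1)) ∧
      (x ∈ B ↔ M.Accepts (view x))

/-- the number of an address in the enumeration of all binary words by length -/
def idx : List Bool → ℕ
  | [] => 0
  | b :: l => 2 * idx l + 1 + b.toNat

/-- random access to the word `w`: the letter with number `idx q` is read at the address `q` -/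
def wordView {Δ : Type} (w : List Δ) : View Δ := fun q => w[idx q]?

/-- `L`, `NL`, `P`, `NP`: the size of a word is the number of binary digits of its length -/
def LogClass {Δ : Type} (κ : Kind) (B : Set (List Δ)) : Prop :=
  DecidedBy κ (fun w => Nat.size w.length) wordView B

/-- the height of the address stack is the position of the head on the input -/
def headView {Δ : Type} (x : List Δ) : View Δ := fun q => x[q.length]?

/-- `DLBA`, `LBA`, `E`, `NE` -/
def LinClass {Δ : Type} (κ : Kind) (L : Set (List Δ)) : Prop :=
  DecidedBy κ List.length headView L

/-- At the address `q` the answer `A q` of the oracle and the input letter at the position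
`q.length` can be read (`none` beyond the end of the input); queries longer than
`(c + 1) * x.length` are not answered. -/
def oracleView {Θ Δ : Type} (A : List Bool → Θ) (c : ℕ) (x : List Δ) : View (Θ × Option Δ) :=
  fun q => if q.length ≤ (c + 1) * x.length then some (A q, x[q.length]?) else none

/-- `DLBA`, `LBA`, `E`, `NE` relative to the oracle `A`, with queries of linear length -/
def OracleClass {Θ Δ : Type} (κ : Kind) (A : List Bool → Θ) (L : Set (List Δ)) : Prop :=
  ∃ c, DecidedBy κ List.length (oracleView A c) L

/-- the inclusion between two of the classes `L`, `NL`, `P`, `NP` -/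
def LogIncl (κ₂ κ₁ : Kind) : Prop :=
  ∀ (Δ : Type) (_ : Finite Δ) (B : Set (List Δ)), LogClass κ₂ B → LogClass κ₁ B

/-- the inclusion between two of the classes `DLBA`, `LBA`, `E`, `NE` -/
def LinIncl (κ₂ κ₁ : Kind) : Prop :=
  ∀ (Δ : Type) (_ : Finite Δ) (L : Set (List Δ)), LinClass κ₂ L → LinClass κ₁ L

/-- the inclusion between two of the classes `DLBA`, `LBA`, `E`, `NE` relative to the oracle `A` -/
def OracleIncl (A : List Bool → Bool) (κ₂ κ₁ : Kind) : Prop :=
  ∀ (Δ : Type) (_ : Finite Δ) (L : Set (List Δ)), OracleClass κ₂ A L → OracleClass κ₁ A L

end H85L
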