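import Pool.Agent.H85L.Shift

/-!
# Reading pairs, and trees, of letters
-/

set_option autoImplicit false

namespace H85L

open Mach

/-- the stages of one move -/
inductive Stage (Θ : Type)
  | a
  | b
  | c (x : Option Θ)
  | d (x : Option Θ)
  | e (x y : Option Θ)

instance {Θ : Type} [Finite Θ] : Finite (Stage Θ) := by
  have : Function.Injective (fun x : Stage Θ => match x with
    | .a => (Sum.inl false : Bool ⊕ ((Bool × Option Θ) ⊕ (Option Θ × Option Θ)))
    | .b => Sum.inl true
    | .c x => Sum.inr (Sum.inl (false, x))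
    | .d x => Sum.inr (Sum.inl (true, x))
    | .e x y => Sum.inr (Sum.inr (x, y))) := by
    intro x y h
    cases x <;> cases y <;> simp_all
  exact Finite.of_injective _ this

/-- a pair if both parts are there -/
def pair2 {Θ Θ' : Type} (x : Option Θ) (y : Option Θ') : Option (Θ × Θ') :=
  x.bind fun x => y.map fun y => (x, y)

variable {Θ Q Γ K : Type} [DecidableEq K] (M : Mach (Θ × Θ) Q Γ K)

/-- transitions -/
def dblNext : Q × Stage Θ → (K → Option (Γ ⊕ Bool)) → Option Θ → Bool →
    (Q × Stage Θ) × (K → Op (Γ ⊕ Bool))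
  | (q, .a), _, _, _ => ((q, .b), fun i => if i = M.adr then .push (Sum.inr false) else .stay)
  | (q, .b), _, o, _ => ((q, .c o), fun i => if i = M.adr then .pop else .stay)
  | (q, .c x), _, _, _ => ((q, .d x), fun i => if i = M.adr then .push (Sum.inr true) else .stay)
  | (q, .d x), _, o, _ => ((q, .e x o), fun i => if i = M.adr then .pop else .stay)
  | (q, .e x y), h, _, b =>
    (((M.next q (fun i => lft (h i)) (pair2 x y) b).1, .a),
      fun i => ((M.next q (fun i => lft (h i)) (pair2 x y) b).2 i).map Sum.inl)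

/-- a machine which reads pairs, on a view with single letters -/
def dbl : Mach Θ (Q × Stage Θ) (Γ ⊕ Bool) K where
  adr := M.adr
  bit := Sum.elim M.bit id
  start := (M.start, .a)
  out := fun x => match x with
    | (q, .a) => M.out q
    | _ => none
  next := dblNext M

theorem dbl_det (h : M.Det) : (dbl M).Det := by
  intro q hh o b b'
  obtain ⟨q, s⟩ := q
  cases s with
  | a => rfl
  | b => rfl
  | c x => rfl
  | d x => rfl
  | e x y =>
    show (((M.next q _ (pair2 x y) b).1, _), _) = (((M.next q _ (pair2 x y) b').1, _), _)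
    rw [h q _ (pair2 x y) b b']

/-- the configuration -/
def dblF (c : Cfg Q Γ K) : Cfg (Q × Stage Θ) (Γ ⊕ Bool) K :=
  ⟨(c.q, .a), fun i => (c.s i).map Sum.inl⟩

omit [DecidableEq K] in
theorem dblF_init (M : Mach (Θ × Θ) Q Γ K) [DecidableEq K] :
    dblF (Θ := Θ) M.init = (dbl M).init := rfl

/-- the view in pairs -/
def view2 {Θ : Type} (u : View Θ) : View (Θ × Θ) := fun r => pair2 (u (false :: r)) (u (true :: r))

theorem dbl_steps (u : View Θ) (c : Cfg Q Γ K) (hc : M.out c.q = none) (g : ℕ → Bool) :
    (dbl M).runFrom u g (dblF c) 1 = ⟨(c.q, .b), fun i =>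
      if i = M.adr then Sum.inr false :: (c.s i).map Sum.inl else (c.s i).map Sum.inl⟩ ∧
    (dbl M).runFrom u g (dblF c) 2 = ⟨(c.q, .c (u (false :: (c.s M.adr).map M.bit))), fun i =>
      (c.s i).map Sum.inl⟩ ∧
    (dbl M).runFrom u g (dblF c) 3 = ⟨(c.q, .d (u (false :: (c.s M.adr).map M.bit))), fun i =>
      if i = M.adr then Sum.inr true :: (c.s i).map Sum.inl else (c.s i).map Sum.inl⟩ ∧
    (dbl M).runFrom u g (dblF c) 4 = ⟨(c.q, .e (u (false :: (c.s M.adr).map M.bit))
      (u (true :: (c.s M.adr).map M.bit))), fun i => (c.s i).map Sum.inl⟩ ∧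
    (dbl M).runFrom u g (dblF c) 5 = dblF (M.step (view2 u) (g 4) c) := by
  have hbit : ∀ l : List Γ, (l.map (Sum.inl : Γ → Γ ⊕ Bool)).map (Sum.elim M.bit id) =
      l.map M.bit := by
    intro l
    rw [List.map_map]
    rfl
  have h1 : (dbl M).runFrom u g (dblF c) 1 = ⟨(c.q, .b), fun i =>
      if i = M.adr then Sum.inr false :: (c.s i).map Sum.inl else (c.s i).map Sum.inl⟩ := by
    rw [runFrom_succ, runFrom_zero, step_live _ _ _ _ (show (dbl M).out (dblF c).q = none from hc)]
    ext1
    · rfl
    · funext i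
      show Op.app (if i = M.adr then .push (Sum.inr false) else .stay) ((c.s i).map Sum.inl) =
        if i = M.adr then Sum.inr false :: (c.s i).map Sum.inl else (c.s i).map Sum.inl
      split_ifs <;> rfl
  have h2 : (dbl M).runFrom u g (dblF c) 2 = ⟨(c.q, .c (u (false :: (c.s M.adr).map M.bit))),
      fun i => (c.s i).map Sum.inl⟩ := by
    rw [runFrom_succ, h1, step_live _ _ _ _ rfl]
    ext1
    · show (c.q, Stage.c (u ((if M.adr = M.adr then Sum.inr false :: (c.s M.adr).map Sum.inl
        else (c.s M.adr).map Sum.inl).map (Sum.elim M.bit id)))) = _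
      rw [if_pos rfl, List.map_cons, hbit]
      rfl
    · funext i
      show Op.app (if i = M.adr then .pop else .stay)
        (if i = M.adr then Sum.inr false :: (c.s i).map Sum.inl else (c.s i).map Sum.inl) = _
      split_ifs <;> rfl
  have h3 : (dbl M).runFrom u g (dblF c) 3 = ⟨(c.q, .d (u (false :: (c.s M.adr).map M.bit))),
      fun i => if i = M.adr then Sum.inr true :: (c.s i).map Sum.inl
        else (c.s i).map Sum.inl⟩ := by
    rw [runFrom_succ, h2, step_live _ _ _ _ rfl]
    ext1
    · rfl
    · funext i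
      show Op.app (if i = M.adr then .push (Sum.inr true) else .stay) ((c.s i).map Sum.inl) =
        if i = M.adr then Sum.inr true :: (c.s i).map Sum.inl else (c.s i).map Sum.inl
      split_ifs <;> rfl
  have h4 : (dbl M).runFrom u g (dblF c) 4 = ⟨(c.q, .e (u (false :: (c.s M.adr).map M.bit))
      (u (true :: (c.s M.adr).map M.bit))), fun i => (c.s i).map Sum.inl⟩ := by
    rw [runFrom_succ, h3, step_live _ _ _ _ rfl]
    ext1
    · show (c.q, Stage.e _ (u ((if M.adr = M.adr then Sum.inr true :: (c.s M.adr).map Sum.inl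
        else (c.s M.adr).map Sum.inl).map (Sum.elim M.bit id)))) = _
      rw [if_pos rfl, List.map_cons, hbit]
      rfl
    · funext i
      show Op.app (if i = M.adr then .pop else .stay)
        (if i = M.adr then Sum.inr true :: (c.s i).map Sum.inl else (c.s i).map Sum.inl) = _
      split_ifs <;> rfl
  refine ⟨h1, h2, h3, h4, ?_⟩
  rw [runFrom_succ, h4, step_live _ _ _ _ rfl, step_live _ _ _ _ hc]
  have h5 : (fun i => lft (((c.s i).map (Sum.inl : Γ → Γ ⊕ Bool)).head?)) =
      fun i => (c.s i).head? := by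
    funext i
    exact lft_head _
  have h6 : (dbl M).next (c.q, .e (u (false :: (c.s M.adr).map M.bit))
      (u (true :: (c.s M.adr).map M.bit))) (fun i => ((c.s i).map Sum.inl).head?)
      (u (((c.s (dbl M).adr).map Sum.inl).map (dbl M).bit)) (g 4) =
      (((M.next c.q (fun i => (c.s i).head?) (view2 u ((c.s M.adr).map M.bit)) (g 4)).1, .a),
      fun i => ((M.next c.q (fun i => (c.s i).head?) (view2 u ((c.s M.adr).map M.bit))
        (g 4)).2 i).map Sum.inl) := by
    rw [← h5]
    rfl
  show (⟨_, _⟩ : Cfg (Q × Stage Θ) (Γ ⊕ Bool) K) = _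
  rw [h6]
  ext1
  · rfl
  · funext i
    exact Op.app_map _ _ _

theorem dbl_sim (u : View Θ) : Sim M (dbl M) (view2 u) u 4 dblF where
  out := fun _ => rfl
  mid := by
    intro c hc g s hs1 hs4
    obtain ⟨h1, h2, h3, h4, _⟩ := dbl_steps M u c hc g
    have : s = 1 ∨ s = 2 ∨ s = 3 ∨ s = 4 := by omega
    rcases this with rfl | rfl | rfl | rfl
    · rw [h1]; rfl
    · rw [h2]; rfl
    · rw [h3]; rfl
    · rw [h4]; rfl
  step := fun c hc g => (dbl_steps M u c hc g).2.2.2.2

theorem dbl_main (u : View Θ) :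
    (∀ time B, M.Bounded time (view2 u) B → (dbl M).Bounded time u (B + 4)) ∧
      ((dbl M).Accepts u ↔ M.Accepts (view2 u)) := by
  have h := sim_init (dbl_sim M u) (dblF_init M) 0 (fun c S hS i => by
    show ((c.s i).map Sum.inl).length ≤ S + 0
    rw [List.length_map]
    exact hS i)
  simpa using h

end H85L
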