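import Pool.Agent.H85L.Codes

/-!
# Generic oracles
-/

set_option autoImplicit false

namespace H85L

open Mach Topology

/-- a property of oracles which depends on finitely many values only is open -/
theorem isOpen_local {ι : Type} {P : (ι → Bool) → Prop} {S : Set ι} (hS : S.Finite)
    (h : ∀ A A' : ι → Bool, (∀ q ∈ S, A q = A' q) → (P A ↔ P A')) : IsOpen {A | P A} := by
  rw [isOpen_iff_forall_mem_open]
  intro A hA
  refine ⟨⋂ q ∈ S, (fun A' : ι → Bool => A' q) ⁻¹' {A q}, ?_, ?_, ?_⟩
  · intro A' hA'
    simp only [Set.mem_iInter, Set.mem_preimage, Set.mem_singleton_iff] at hA'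
    exact (h A A' fun q hq => (hA' q hq).symm).1 hA
  · exact hS.isOpen_biInter fun q _ => (isOpen_discrete _).preimage (continuous_apply q)
  · simp

theorem isClosed_local {ι : Type} {P : (ι → Bool) → Prop} {S : Set ι} (hS : S.Finite)
    (h : ∀ A A' : ι → Bool, (∀ q ∈ S, A q = A' q) → (P A ↔ P A')) : IsClosed {A | P A} := by
  rw [← isOpen_compl_iff]
  exact isOpen_local (P := fun A => ¬ P A) hS fun A A' hA => not_congr (h A A' hA)

/-- A countable family of conditions, each of which is determined by finitely many values for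
every input, and none of which holds on a cylinder, fails for generic oracles. -/
theorem generic_schema {ι X C : Type} [Countable C] (P : C → X → (ι → Bool) → Prop)
    (hloc : ∀ p x, ∃ S : Set ι, S.Finite ∧ ∀ A A' : ι → Bool, (∀ q ∈ S, A q = A' q) →
      (P p x A ↔ P p x A'))
    (hcyl : ∀ p (σ : ι → Bool) (I : Finset ι), ¬ ∀ A : ι → Bool, (∀ q ∈ I, A q = σ q) →
      ∀ x, P p x A) :
    ∀ᶠ A in residual (ι → Bool), ∀ p, ¬ ∀ x, P p x A := by
  rw [eventually_countable_forall]
  intro p
  set G : Set (ι → Bool) := {A | ∀ x, P p x A} with hG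
  have hclosed : IsClosed G := by
    have : G = ⋂ x : X, {A | P p x A} := by
      ext A
      simp only [hG, Set.mem_iInter, Set.mem_ofPred_eq]
    rw [this]
    refine isClosed_iInter fun x => ?_
    obtain ⟨S, hS, h⟩ := hloc p x
    exact isClosed_local hS h
  have hint : interior G = ∅ := by
    rw [Set.eq_empty_iff_forall_notMem]
    intro σ hσ
    obtain ⟨I, u, hu, hsub⟩ := isOpen_pi_iff.1 isOpen_interior σ hσ
    refine hcyl p σ I fun A hA x => ?_
    have hAG : A ∈ G := by
      apply interior_subset
      apply hsub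
      intro q hq
      rw [hA q hq]
      exact (hu q hq).2
    exact hAG x
  have hres : Gᶜ ∈ residual (ι → Bool) :=
    residual_of_dense_open hclosed.isOpen_compl (interior_eq_empty_iff_dense_compl.1 hint)
  filter_upwards [hres] with A hA hA'
  exact hA hA'

/-- codes for letters -/
theorem exists_enc (Δ : Type) [Finite Δ] :
    ∃ (j : ℕ) (enc : Option Δ → Tr Bool j) (dec : Tr Bool j → Option Δ),
      ∀ x, dec (enc x) = x := by
  classical
  have hΔ := Fintype.ofFinite (Option Δ)
  set j := Nat.card (Option Δ) with hj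
  have hT := Fintype.ofFinite (Tr Bool j)
  have h1 : Fintype.card (Option Δ) ≤ Fintype.card (Tr Bool j) := by
    rw [← Nat.card_eq_fintype_card, ← Nat.card_eq_fintype_card, card_tr, ← hj]
    exact (Nat.lt_two_pow_self).le.trans (Nat.lt_two_pow_self).le
  obtain ⟨f⟩ := Function.Embedding.nonempty_of_card_le h1
  exact ⟨j, f, Function.invFun f, Function.leftInverse_invFun f.injective⟩

theorem oracleView_congr {Δ : Type} {A A' : List Bool → Bool} {c : ℕ} {x : List Δ}
    (h : ∀ q : List Bool, q.length ≤ (c + 2) * x.length → A q = A' q) :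
    oracleView A c x = oracleView A' c x := by
  funext q
  unfold oracleView
  split_ifs with hq
  · rw [h q (hq.trans (Nat.mul_le_mul_right _ (by omega)))]
  · rfl

theorem generic {κ₁ κ₂ : Kind} {Δ : Type} [Finite Δ] {B : Set (List Δ)} (h2 : LogClass κ₂ B)
    (h1 : ¬ LogClass κ₁ B) :
    ∀ᶠ A in residual (List Bool → Bool), ∃ L : Set (List Unit),
      OracleClass κ₂ A L ∧ ¬ OracleClass κ₁ A L := by
  classical
  obtain ⟨j, enc, dec, hdec⟩ := exists_enc Δ
  obtain ⟨L, hL1, hL2, hL3⟩ := upper h2 j dec
  have key := generic_schema (ι := List Bool) (X := List Unit) (C := Code Unit)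
    (fun p x A => (κ₁.det = true → p.1.2.2.2.Det) ∧
      p.1.2.2.2.Bounded κ₁.time (oracleView A p.2.1 x) (p.2.2 * (x.length + 1)) ∧
      (x ∈ L A ↔ p.1.2.2.2.Accepts (oracleView A p.2.1 x)))
    (by
      intro p x
      refine ⟨{q | q.length ≤ (p.2.1 + 2) * x.length}, List.finite_length_le Bool _,
        fun A A' hA => ?_⟩
      have hx : x ∈ L A ↔ x ∈ L A' := hL2 A A' x fun q hq =>
        hA q (hq.trans (Nat.mul_le_mul_right _ (by omega)))
      rw [oracleView_congr (A := A) (A' := A') (fun q hq => hA q hq), hx])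
    (by
      intro p σ I h
      obtain ⟨K0, hK0⟩ : ∃ K0, ∀ q ∈ I, q.length < K0 := by
        refine ⟨I.sup List.length + 1, fun q hq => ?_⟩
        have := Finset.le_sup (f := List.length) hq
        omega
      refine h1 (lower (κ := κ₁) j enc dec hdec L hL3 σ K0 p.2.1 p.2.2 p.1.2.2.2
        (h σ (fun _ _ => rfl) []).1 ?_)
      intro A hA x
      exact (h A (fun q hq => hA q (hK0 q hq)) x).2)
  filter_upwards [key] with A hA
  refine ⟨L A, hL1 A, fun hno => ?_⟩
  obtain ⟨p, hp1, hp2⟩ := oracleClass_code hno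
  exact hA p fun x => ⟨hp1, hp2 x⟩

/-- generic tally oracles -/
theorem generic_tally {κ₁ : Kind} {Δ : Type} [Finite Δ] {L : Set (List Δ)}
    (h1 : ¬ LinClass κ₁ L) :
    ∀ᶠ T in residual (ℕ → Bool), ¬ OracleClass κ₁ (fun q => T q.length) L := by
  classical
  have key := generic_schema (ι := ℕ) (X := List Δ) (C := Code Δ)
    (fun p x T => (κ₁.det = true → p.1.2.2.2.Det) ∧
      p.1.2.2.2.Bounded κ₁.time (oracleView (fun q => T q.length) p.2.1 x)
        (p.2.2 * (x.length + 1)) ∧
      (x ∈ L ↔ p.1.2.2.2.Accepts (oracleView (fun q => T q.length) p.2.1 x)))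
    (by
      intro p x
      refine ⟨{n | n ≤ (p.2.1 + 2) * x.length}, Set.finite_le_nat _, fun T T' hT => ?_⟩
      rw [oracleView_congr (A := fun q => T q.length) (A' := fun q => T' q.length)
        (fun q hq => hT q.length hq)])
    (by
      intro p σ I h
      obtain ⟨K0, hK0⟩ : ∃ K0, ∀ n ∈ I, n < K0 := by
        refine ⟨I.sup id + 1, fun n hn => ?_⟩
        have := Finset.le_sup (f := id) hn
        simp only [id] at this
        omega
      set T : ℕ → Bool := fun n => if n < K0 then σ n else false with hT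
      have h3 := h T (fun n hn => by
        show (if n < K0 then σ n else false) = σ n
        rw [if_pos (hK0 n hn)])
      refine h1 (lin_of_finite (fun q => T q.length) K0 (fun q hq => ?_) ⟨p.2.1, _, _, _,
        inferInstance, inferInstance, inferInstance, p.1.2.2.2, (h3 []).1, p.2.2, fun x => (h3 x).2⟩)
      show (if q.length < K0 then σ q.length else false) = false
      rw [if_neg (by omega)])
  filter_upwards [key] with T hT hno
  obtain ⟨p, hp1, hp2⟩ := oracleClass_code hno
  exact hT p fun x => ⟨hp1, hp2 x⟩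

end H85L
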