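import Pool.Agent.H85L.GuardT

/-!
# Machines with a guard; views
-/

set_option autoImplicit false

namespace H85L

open Mach

theorem guard_exists {Δ Q Γ K : Type} [Finite Q] [Finite Γ] [Finite K] (M : Mach Δ Q Γ K)
    (time : Bool) (C : ℕ) :
    ∃ (Q' Γ' K' : Type) (_ : Finite Q') (_ : Finite Γ') (_ : Finite K') (M' : Mach Δ Q' Γ' K'),
      (M.Det → M'.Det) ∧ ∀ (v : View Δ) (k : ℕ),
        (∀ j, j < k → v (List.replicate j false) ≠ none) → v (List.replicate k false) = none →
        M'.Bounded time v ((C + 4) * (k + 1)) ∧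
          (M.Bounded time v (C * (k + 1)) → (M'.Accepts v ↔ M.Accepts v)) := by
  classical
  cases time with
  | false =>
    refine ⟨_, _, _, inferInstance, inferInstance, inferInstance, gsM M C, gsM_det M C,
      fun v k hv hk => ?_⟩
    have h := gsM_main M C v k hv hk
    refine ⟨?_, fun hM => h.2 ?_⟩
    · show if false = true then _ else _
      rw [if_neg (by simp)]
      exact fun g t i => (h.1 g t i).trans (by nlinarith)
    · simpa [Bounded] using hM
  | true =>
    refine ⟨_, _, _, inferInstance, inferInstance, inferInstance, gtM M C, gtM_det M C,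
      fun v k hv hk => ?_⟩
    have h := gtM_main M C v k hv hk
    refine ⟨?_, fun hM => h.2 ?_⟩
    · show if true = true then _ else _
      rw [if_pos rfl]
      exact h.1
    · simpa [Bounded] using hM

/-! ### Addresses -/

theorem idx_lt (q : List Bool) : idx q + 1 < 2 ^ (q.length + 1) := by
  induction q with
  | nil => simp [idx]
  | cons b l ih =>
    simp only [idx, List.length_cons]
    rw [pow_succ]
    cases b <;> simp <;> omega

theorem le_idx (q : List Bool) : 2 ^ q.length ≤ idx q + 1 := by
  induction q with
  | nil => simp [idx]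
  | cons b l ih =>
    simp only [idx, List.length_cons]
    rw [pow_succ]
    omega

theorem idx_zeros (k : ℕ) : idx (List.replicate k false) + 1 = 2 ^ k := by
  induction k with
  | zero => rfl
  | succ k ih =>
    rw [List.replicate_succ]
    simp only [idx]
    rw [pow_succ]
    simp
    omega

theorem idx_inj : ∀ q q' : List Bool, idx q = idx q' → q = q' := by
  intro q
  induction q with
  | nil =>
    intro q' h
    cases q' with
    | nil => rfl
    | cons b l => simp [idx] at h; omega
  | cons b l ih =>
    intro q' h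
    cases q' with
    | nil => simp [idx] at h
    | cons b' l' =>
      simp only [idx] at h
      have : b = b' ∧ idx l = idx l' := by
        cases b <;> cases b' <;> simp at h ⊢ <;> omega
      rw [this.1, ih l' this.2]

/-- the address with a given number -/
def unidx (n : ℕ) : List Bool :=
  if h : n = 0 then [] else (n % 2 == 0) :: unidx ((n - 1) / 2)
decreasing_by omega

theorem idx_unidx (n : ℕ) : idx (unidx n) = n := by
  induction n using Nat.strong_induction_on with
  | _ n ih =>
    rw [unidx]
    split_ifs with h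
    · subst h; rfl
    · simp only [idx]
      rw [ih ((n - 1) / 2) (by omega)]
      by_cases h2 : n % 2 = 0
      · simp [h2]; omega
      · have : (n % 2 == 0) = false := by simp [h2]
        rw [this]; simp; omega

theorem unidx_idx (q : List Bool) : unidx (idx q) = q := idx_inj _ _ (idx_unidx _)

/-- `q` is short iff its number is small -/
theorem idx_lt_iff (q : List Bool) (m : ℕ) : idx q + 1 < 2 ^ (m + 1) ↔ q.length ≤ m := by
  constructor
  · intro h
    by_contra h2
    have h3 := le_idx q
    have h4 : 2 ^ (m + 1) ≤ 2 ^ q.length := Nat.pow_le_pow_right (by norm_num) (by omega)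
    omega
  · intro h
    have h3 := idx_lt q
    have h4 : 2 ^ (q.length + 1) ≤ 2 ^ (m + 1) := Nat.pow_le_pow_right (by norm_num) (by omega)
    omega

/-! ### Probing -/

variable {Δ : Type}

theorem wordView_zeros (w : List Δ) (j : ℕ) :
    wordView w (List.replicate j false) ≠ none ↔ j < Nat.size w.length := by
  have h := idx_zeros j
  have h1 : 1 ≤ 2 ^ j := Nat.one_le_two_pow
  rw [Nat.lt_size]
  unfold wordView
  rw [ne_eq, List.getElem?_eq_none_iff]
  omega

theorem headView_zeros (x : List Δ) (j : ℕ) :
    headView x (List.replicate j false) ≠ none ↔ j < x.length := by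
  unfold headView
  rw [ne_eq, List.getElem?_eq_none_iff, List.length_replicate]
  omega

/-- the guess view of a machine with oracle as the view of a long word -/
def table (f : List Bool → Δ) (m : ℕ) : List Δ :=
  (List.range (2 ^ (m + 1) - 1)).map (fun n => f (unidx n))

theorem wordView_table (f : List Bool → Δ) (m : ℕ) (q : List Bool) :
    wordView (table f m) q = if q.length ≤ m then some (f q) else none := by
  unfold wordView table
  have h1 := idx_lt_iff q m
  split_ifs with h
  · have h2 := h1.2 h
    rw [List.getElem?_map, List.getElem?_range (by omega)]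
    simp [unidx_idx]
  · have h2 : ¬ idx q + 1 < 2 ^ (m + 1) := fun h3 => h (h1.1 h3)
    rw [List.getElem?_eq_none_iff]
    simp
    omega

theorem size_table (f : List Bool → Δ) (m : ℕ) : Nat.size (table f m).length = m + 1 := by
  have h1 : (table f m).length = 2 ^ (m + 1) - 1 := by simp [table]
  have h2 : 1 ≤ 2 ^ m := Nat.one_le_two_pow
  have h4 : 2 ^ (m + 1) = 2 * 2 ^ m := by rw [pow_succ]; ring
  apply le_antisymm
  · rw [Nat.size_le, h1]; omega
  · have : m < Nat.size (table f m).length := by
      rw [Nat.lt_size, h1]; omega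
    exact this

/-- the same for the head view -/
def tableU (f : ℕ → Δ) (m : ℕ) : List Δ := (List.range (m + 1)).map f

theorem headView_tableU (f : ℕ → Δ) (m : ℕ) (q : List Bool) :
    headView (tableU f m) q = if q.length ≤ m then some (f q.length) else none := by
  unfold headView tableU
  split_ifs with h
  · rw [List.getElem?_map, List.getElem?_range (by omega)]
    simp
  · rw [List.getElem?_eq_none_iff]
    simp
    omega

theorem length_tableU (f : ℕ → Δ) (m : ℕ) : (tableU f m).length = m + 1 := by simp [tableU]

/-! ### A class of languages contains the accepted sets of guarded machines -/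

theorem logClass_guard {κ : Kind} {Q Γ K : Type} [Finite Q] [Finite Γ] [Finite K]
    (M : Mach Δ Q Γ K) (hdet : κ.det = true → M.Det) (C : ℕ) :
    ∃ B : Set (List Δ), LogClass κ B ∧
      ∀ w, M.Bounded κ.time (wordView w) (C * (Nat.size w.length + 1)) →
        (w ∈ B ↔ M.Accepts (wordView w)) := by
  obtain ⟨Q', Γ', K', hQ, hΓ, hK, M', hd, hM'⟩ := guard_exists M κ.time C
  have hM'' := fun w : List Δ => hM' (wordView w) (Nat.size w.length)
    (fun j hj => (wordView_zeros w j).2 hj)
    (by
      have := (wordView_zeros w (Nat.size w.length)).not.2 (lt_irrefl _)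
      simpa using this)
  refine ⟨{w | M'.Accepts (wordView w)}, ⟨Q', Γ', K', hQ, hΓ, hK, M', fun h => hd (hdet h),
    C + 4, fun w => ⟨(hM'' w).1, Iff.rfl⟩⟩, fun w hw => (hM'' w).2 hw⟩

theorem linClass_guard {κ : Kind} {Q Γ K : Type} [Finite Q] [Finite Γ] [Finite K]
    (M : Mach Δ Q Γ K) (hdet : κ.det = true → M.Det) (C : ℕ) :
    ∃ B : Set (List Δ), LinClass κ B ∧
      ∀ w, M.Bounded κ.time (headView w) (C * (w.length + 1)) →
        (w ∈ B ↔ M.Accepts (headView w)) := by
  obtain ⟨Q', Γ', K', hQ, hΓ, hK, M', hd, hM'⟩ := guard_exists M κ.time C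
  have hM'' := fun w : List Δ => hM' (headView w) w.length
    (fun j hj => (headView_zeros w j).2 hj)
    (by
      have := (headView_zeros w w.length).not.2 (lt_irrefl _)
      simpa using this)
  refine ⟨{w | M'.Accepts (headView w)}, ⟨Q', Γ', K', hQ, hΓ, hK, M', fun h => hd (hdet h),
    C + 4, fun w => ⟨(hM'' w).1, Iff.rfl⟩⟩, fun w hw => (hM'' w).2 hw⟩

/-! ### Upward translation -/

/-- if the inclusion holds for words with random access, it holds relative to every oracle -/
theorem upward_log (κ₁ κ₂ : Kind)
    (h : ∀ (Δ : Type) (_ : Finite Δ) (B : Set (List Δ)), LogClass κ₂ B → LogClass κ₁ B)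
    {Θ Ω : Type} [Finite Θ] [Finite Ω] (A : List Bool → Θ) (L : Set (List Ω))
    (hL : OracleClass κ₂ A L) : OracleClass κ₁ A L := by
  obtain ⟨c, Q, Γ, K, hQ, hΓ, hK, M, hdet, C, hM⟩ := hL
  obtain ⟨B, hB, hB2⟩ := logClass_guard M hdet C
  obtain ⟨Q', Γ', K', hQ', hΓ', hK', D, hdet', C', hD⟩ := h _ inferInstance B hB
  -- the word for an input
  let W : List Ω → List (Θ × Option Ω) := fun x =>
    table (fun q => (A q, x[q.length]?)) ((c + 1) * x.length)
  have hW : ∀ x, wordView (W x) = oracleView A c x := by
    intro x
    funext q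
    exact wordView_table _ _ _
  have hS : ∀ x, Nat.size (W x).length = (c + 1) * x.length + 1 := fun x => size_table _ _
  refine ⟨c, Q', Γ', K', hQ', hΓ', hK', D, hdet', C' * (c + 3), fun x => ⟨?_, ?_⟩⟩
  · have := (hD (W x)).1
    simp only [] at this
    rw [hW, hS] at this
    refine this.mono ?_
    rw [mul_assoc]
    exact Nat.mul_le_mul_left _ (by nlinarith)
  · have h1 := (hD (W x)).2
    have h2 := hB2 (W x) (by
      rw [hW, hS]
      refine (hM x).1.mono (Nat.mul_le_mul_left _ ?_)
      nlinarith)
    rw [hW] at h1 h2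
    rw [(hM x).2, ← h2, h1]

/-- if the inclusion holds for the unrelativized classes, it holds relative to every tally
oracle -/
theorem upward_lin (κ₁ κ₂ : Kind)
    (h : ∀ (Δ : Type) (_ : Finite Δ) (B : Set (List Δ)), LinClass κ₂ B → LinClass κ₁ B)
    {Θ Ω : Type} [Finite Θ] [Finite Ω] (A : ℕ → Θ) (L : Set (List Ω))
    (hL : OracleClass κ₂ (fun q => A q.length) L) : OracleClass κ₁ (fun q => A q.length) L := by
  obtain ⟨c, Q, Γ, K, hQ, hΓ, hK, M, hdet, C, hM⟩ := hL
  obtain ⟨B, hB, hB2⟩ := linClass_guard M hdet C
  obtain ⟨Q', Γ', K', hQ', hΓ', hK', D, hdet', C', hD⟩ := h _ inferInstance B hB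
  let W : List Ω → List (Θ × Option Ω) := fun x =>
    tableU (fun n => (A n, x[n]?)) ((c + 1) * x.length)
  have hW : ∀ x, headView (W x) = oracleView (fun q => A q.length) c x := by
    intro x
    funext q
    exact headView_tableU _ _ _
  have hS : ∀ x, (W x).length = (c + 1) * x.length + 1 := fun x => length_tableU _ _
  refine ⟨c, Q', Γ', K', hQ', hΓ', hK', D, hdet', C' * (c + 3), fun x => ⟨?_, ?_⟩⟩
  · have := (hD (W x)).1
    rw [hW, hS] at this
    refine this.mono ?_
    rw [mul_assoc]
    exact Nat.mul_le_mul_left _ (by nlinarith)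
  · have h1 := (hD (W x)).2
    have h2 := hB2 (W x) (by
      rw [hW, hS]
      refine (hM x).1.mono (Nat.mul_le_mul_left _ ?_)
      nlinarith)
    rw [hW] at h1 h2
    rw [(hM x).2, ← h2, h1]

end H85L
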