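import Pool.Agent.H85L.Loader

/-!
# The space guard
-/

set_option autoImplicit false

namespace H85L

open Mach

/-- change the letters of an operation -/
def Op.map {Γ Γ' : Type} (f : Γ → Γ') : Op Γ → Op Γ'
  | .stay => .stay
  | .pop => .pop
  | .push g => .push (f g)

theorem Op.app_map {Γ Γ' : Type} (f : Γ → Γ') (o : Op Γ) (l : List Γ) :
    (o.map f).app (l.map f) = (o.app l).map f := by
  cases o <;> simp [Op.map, Op.app]

/-- is it a push? -/
def Op.isPush {Γ : Type} : Op Γ → Bool
  | .push _ => true
  | _ => false

variable {Δ Q Γ K : Type} (M : Mach Δ Q Γ K)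

open Classical in
/-- transitions of the machine with a space guard -/
noncomputable def gsNext : Option Q → (K ⊕ K → Option (Option Γ)) → Option Δ → Bool →
    Option Q × (K ⊕ K → Op (Option Γ))
  | none, _, _, _ => (none, fun _ => .stay)
  | some q, h, o, b =>
    if ∃ i, ((M.next q (fun i => (h (Sum.inl i)).join) o b).2 i).isPush = true ∧
        h (Sum.inr i) = none then (none, fun _ => .stay)
    else (some (M.next q (fun i => (h (Sum.inl i)).join) o b).1,
      Sum.elim
        (fun i => ((M.next q (fun i => (h (Sum.inl i)).join) o b).2 i).map some)
        (fun i => match (M.next q (fun i => (h (Sum.inl i)).join) o b).2 i with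
          | .stay => .stay
          | .push _ => .pop
          | .pop => if (h (Sum.inl i)).isSome then .push none else .stay))

/-- machine with a space guard -/
noncomputable def gs : Mach Δ (Option Q) (Option Γ) (K ⊕ K) where
  adr := Sum.inl M.adr
  bit := fun x => x.elim false M.bit
  start := some M.start
  out := fun x => x.elim (some false) M.out
  next := gsNext M

theorem gs_det (h : M.Det) : (gs M).Det := by
  intro q hh o b b'
  cases q with
  | none => rfl
  | some q =>
    show gsNext M (some q) hh o b = gsNext M (some q) hh o b'
    simp only [gsNext]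
    rw [h q _ o b b']

/-- the configuration of the guarded machine -/
def gsF (cap : ℕ) (c : Cfg Q Γ K) : Cfg (Option Q) (Option Γ) (K ⊕ K) :=
  ⟨some c.q, Sum.elim (fun i => (c.s i).map some)
    (fun i => List.replicate (cap - (c.s i).length) none)⟩

theorem head_map_join (l : List Γ) : ((l.map (some : Γ → Option Γ)).head?).join = l.head? := by
  cases l <;> rfl

theorem gs_step_live (cap : ℕ) (v : View Δ) (b : Bool) (c : Cfg Q Γ K)
    (hc : ∀ i, (c.s i).length ≤ cap) (hout : M.out c.q = none) :
    ((∀ i, ((M.step v b c).s i).length ≤ cap) ∧
      (gs M).step v b (gsF cap c) = gsF cap (M.step v b c)) ∨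
    ((¬ ∀ i, ((M.step v b c).s i).length ≤ cap) ∧ ((gs M).step v b (gsF cap c)).q = none ∧
      ∀ x, (((gs M).step v b (gsF cap c)).s x).length ≤ cap) := by
  have h1 : (gs M).out (gsF cap c).q = none := hout
  rw [step_live _ _ _ _ h1, step_live _ _ _ _ hout]
  have h2 : (((gsF cap c).s (gs M).adr).map (gs M).bit) = (c.s M.adr).map M.bit := by
    show (((c.s M.adr).map some).map fun x : Option Γ => x.elim false M.bit) = _
    rw [List.map_map]; rfl
  have h3 : (fun i => (((gsF cap c).s (Sum.inl i)).head?).join) = fun i => (c.s i).head? := by
    funext i
    exact head_map_join _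
  have hnext : (gs M).next (gsF cap c).q (fun i => ((gsF cap c).s i).head?)
      (v (((gsF cap c).s (gs M).adr).map (gs M).bit)) b =
      gsNext M (some c.q) (fun i => ((gsF cap c).s i).head?)
      (v ((c.s M.adr).map M.bit)) b := by
    rw [h2]; rfl
  rw [hnext]
  simp only [gsNext]
  rw [h3]
  set r := M.next c.q (fun i => (c.s i).head?) (v ((c.s M.adr).map M.bit)) b with hr
  by_cases hex : ∃ i, (r.2 i).isPush = true ∧ ((gsF cap c).s (Sum.inr i)).head? = none
  · rw [if_pos hex]
    right
    obtain ⟨i, hi, hi2⟩ := hex
    refine ⟨fun hall => ?_, rfl, ?_⟩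
    · have h4 := hall i
      change ((r.2 i).app (c.s i)).length ≤ cap at h4
      cases hri : r.2 i with
      | stay => rw [hri] at hi; simp [Op.isPush] at hi
      | pop => rw [hri] at hi; simp [Op.isPush] at hi
      | push g =>
        rw [hri] at h4
        simp only [Op.app, List.length_cons] at h4
        change (List.replicate (cap - (c.s i).length) (none : Option Γ)).head? = none at hi2
        rw [List.head?_replicate] at hi2
        split_ifs at hi2 with h5
        omega
    · rintro (i | i)
      · show (Op.app Op.stay ((c.s i).map some)).length ≤ cap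
        simp only [Op.app, List.length_map]
        exact hc i
      · show (Op.app Op.stay (List.replicate (cap - (c.s i).length) (none : Option Γ))).length ≤ cap
        simp only [Op.app, List.length_replicate]
        omega
  · rw [if_neg hex]
    push Not at hex
    left
    refine ⟨fun i => ?_, ?_⟩
    · show ((r.2 i).app (c.s i)).length ≤ cap
      cases hri : r.2 i with
      | stay => exact hc i
      | pop => simp only [Op.app, List.length_tail]; exact (Nat.sub_le _ _).trans (hc i)
      | push g =>
        have h4 := hex i (by rw [hri]; rfl)
        change (List.replicate (cap - (c.s i).length) (none : Option Γ)).head? ≠ none at h4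
        rw [List.head?_replicate] at h4
        simp only [Op.app, List.length_cons]
        split_ifs at h4 with h5
        · simp at h4
        · have := hc i
          omega
    · ext1
      · rfl
      · funext x
        rcases x with i | i
        · show (((r.2 i).map some).app ((c.s i).map some)) = ((r.2 i).app (c.s i)).map some
          exact Op.app_map _ _ _
        · show Op.app (match r.2 i with
            | .stay => .stay
            | .push _ => .pop
            | .pop => if (((gsF cap c).s (Sum.inl i)).head?).isSome then .push none else .stay)
            (List.replicate (cap - (c.s i).length) none) =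
            List.replicate (cap - ((r.2 i).app (c.s i)).length) none
          cases hri : r.2 i with
          | stay => rfl
          | push g =>
            have h4 := hex i (by rw [hri]; rfl)
            change (List.replicate (cap - (c.s i).length) (none : Option Γ)).head? ≠ none at h4
            rw [List.head?_replicate] at h4
            split_ifs at h4 with h5
            · simp at h4
            simp only [Op.app, List.length_cons, List.tail_replicate]
            congr 1
          | pop =>
            have h6 : ((gsF cap c).s (Sum.inl i)).head? = (c.s i).head?.map some := by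
              show ((c.s i).map some).head? = _
              rw [List.head?_map]
            have h7 := hc i
            simp only [h6, Option.isSome_map]
            cases hl : c.s i with
            | nil => simp [Op.app]
            | cons a l =>
              simp only [List.head?_cons, Option.isSome_some, if_true, Op.app,
                List.tail_cons, List.length_cons]
              rw [hl] at h7
              simp only [List.length_cons] at h7
              rw [← List.replicate_succ]
              congr 1
              omega

/-- `M` respects the bound `cap` up to time `t` -/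
def Safe (cap : ℕ) (v : View Δ) (g : ℕ → Bool) (c : Cfg Q Γ K) (t : ℕ) : Prop :=
  ∀ t' ≤ t, ∀ i, ((M.runFrom v g c t').s i).length ≤ cap

theorem gs_run (cap : ℕ) (v : View Δ) (g : ℕ → Bool) (c : Cfg Q Γ K)
    (hc : ∀ i, (c.s i).length ≤ cap) (t : ℕ) :
    (Safe M cap v g c t ∧ (gs M).runFrom v g (gsF cap c) t = gsF cap (M.runFrom v g c t)) ∨
    (¬ Safe M cap v g c t ∧ ((gs M).runFrom v g (gsF cap c) t).q = none ∧
      ∀ x, (((gs M).runFrom v g (gsF cap c) t).s x).length ≤ cap) := by
  induction t with
  | zero =>
    left
    refine ⟨fun t' ht' i => ?_, rfl⟩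
    rw [Nat.le_zero.1 ht']
    exact hc i
  | succ t ih =>
    rcases ih with ⟨hs, he⟩ | ⟨hs, hq, hb⟩
    · by_cases hout : M.out (M.runFrom v g c t).q = none
      · rcases gs_step_live M cap v (g t) (M.runFrom v g c t) (hs t le_rfl) hout with
          ⟨h1, h2⟩ | ⟨h1, h2, h3⟩
        · left
          refine ⟨fun t' ht' i => ?_, ?_⟩
          · rcases Nat.lt_or_eq_of_le ht' with h | h
            · exact hs t' (by omega) i
            · rw [h]; exact h1 i
          · rw [runFrom_succ, he, h2]; rfl
        · right
          refine ⟨fun hs' => h1 (hs' (t + 1) le_rfl), ?_, ?_⟩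
          · rw [runFrom_succ, he]; exact h2
          · rw [runFrom_succ, he]; exact h3
      · have hh : (M.out (M.runFrom v g c t).q).isSome := Option.isSome_iff_ne_none.2 hout
        have h4 : M.runFrom v g c (t + 1) = M.runFrom v g c t := by
          rw [runFrom_succ, step_halted _ _ _ _ hh]
        left
        refine ⟨fun t' ht' i => ?_, ?_⟩
        · rcases Nat.lt_or_eq_of_le ht' with h | h
          · exact hs t' (by omega) i
          · rw [h, h4]; exact hs t le_rfl i
        · rw [runFrom_succ, he, h4]
          exact step_halted _ _ _ _ hh
    · right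
      have h5 : ((gs M).out ((gs M).runFrom v g (gsF cap c) t).q).isSome := by
        rw [hq]; rfl
      refine ⟨fun hs' => hs fun t' ht' => hs' t' (by omega), ?_, ?_⟩
      · rw [runFrom_succ, step_halted _ _ _ _ h5]; exact hq
      · rw [runFrom_succ, step_halted _ _ _ _ h5]; exact hb

theorem gs_bounded (cap : ℕ) (v : View Δ) (g : ℕ → Bool) (c : Cfg Q Γ K)
    (hc : ∀ i, (c.s i).length ≤ cap) (t : ℕ) (x : K ⊕ K) :
    (((gs M).runFrom v g (gsF cap c) t).s x).length ≤ cap := by
  rcases gs_run M cap v g c hc t with ⟨h1, h2⟩ | ⟨_, _, h3⟩
  · rw [h2]
    rcases x with i | i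
    · show ((((M.runFrom v g c t).s i)).map some).length ≤ cap
      rw [List.length_map]
      exact h1 t le_rfl i
    · show (List.replicate _ none).length ≤ cap
      rw [List.length_replicate]
      omega
  · exact h3 x

theorem gs_accepts (cap : ℕ) (v : View Δ) (c : Cfg Q Γ K)
    (hc : ∀ g t i, ((M.runFrom v g c t).s i).length ≤ cap) :
    (∃ g t, (gs M).out ((gs M).runFrom v g (gsF cap c) t).q = some true) ↔
      ∃ g t, M.out (M.runFrom v g c t).q = some true := by
  have key : ∀ g t, (gs M).runFrom v g (gsF cap c) t = gsF cap (M.runFrom v g c t) := by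
    intro g t
    rcases gs_run M cap v g c (hc g 0) t with ⟨_, h2⟩ | ⟨h1, _, _⟩
    · exact h2
    · exact absurd (fun t' _ i => hc g t' i) h1
  constructor
  · rintro ⟨g, t, h⟩
    rw [key] at h
    exact ⟨g, t, h⟩
  · rintro ⟨g, t, h⟩
    refine ⟨g, t, ?_⟩
    rw [key]
    exact h

/-- the complete machine with a space guard -/
noncomputable def gsM [DecidableEq K] (C : ℕ) : Mach Δ (LQ (Option Q) C) (Option Γ) (K ⊕ K) :=
  loader (gs M) C (Sum.elim (fun _ => 0) (fun _ => C)) (Sum.elim (fun _ => 0) (fun _ => C))
    (fun _ => none) none (fun o => o.isSome) false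

theorem gsM_main [DecidableEq K] (C : ℕ) (v : View Δ) (k : ℕ)
    (hv : ∀ j, j < k → v (List.replicate j false) ≠ none)
    (hk : v (List.replicate k false) = none) :
    (∀ g t i, (((gsM M C).run v g t).s i).length ≤ (C + 3) * (k + 1)) ∧
    ((∀ g t i, ((M.run v g t).s i).length ≤ C * (k + 1)) →
      ((gsM M C).Accepts v ↔ M.Accepts v)) := by
  have hex : ∀ i : K ⊕ K, (Sum.elim (fun _ => 0) (fun _ => C) : K ⊕ K → ℕ) i ≤ C := by
    rintro (i | i) <;> simp
  have h1 : loaded (gs M) (Sum.elim (fun _ => 0) (fun _ => C)) (Sum.elim (fun _ => 0) (fun _ => C))
      (fun _ => none) none false k = gsF (C * (k + 1)) M.init := by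
    ext1
    · rfl
    · funext x
      rcases x with i | i
      · show (if (Sum.inl i : K ⊕ K) = Sum.inl M.adr then _ else List.replicate (0 + k * 0) none) =
          ([] : List (Option Γ))
        split_ifs <;> simp_all
      · show (if (Sum.inr i : K ⊕ K) = Sum.inl M.adr then
            (if false = true then List.replicate k none else [])
            else List.replicate (C + k * C) none) =
          List.replicate (C * (k + 1) - 0) (none : Option Γ)
        rw [if_neg (by simp)]
        congr 1
        rw [Nat.sub_zero]; ring
  have hv' : ∀ j, j < k → (fun o : Option Δ => o.isSome) (v (List.replicate j false)) = true :=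
    fun j hj => Option.isSome_iff_ne_none.2 (hv j hj)
  have hk' : (fun o : Option Δ => o.isSome) (v (List.replicate k false)) = false := by
    rw [hk]; rfl
  have hT : loadTime C false k ≤ (C + 3) * (k + 1) := by
    simp only [loadTime, Bool.false_eq_true, if_false]
    nlinarith
  constructor
  · intro g t i
    refine (loader_space (gs M) C _ _ _ none _ false v hex hex rfl rfl rfl k hv' hk'
      (C * (k + 1)) ?_ g t i).trans ?_
    · intro g t i
      rw [h1]
      exact gs_bounded M _ v g M.init (fun i => by simp [init]) t i
    · exact max_le hT (by nlinarith)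
  · intro hM
    rw [show (gsM M C).Accepts v ↔ _ from loader_accepts (gs M) C _ _ _ none _ false v hex hex
      rfl rfl rfl k hv' hk', h1]
    exact gs_accepts M _ v M.init hM

theorem gsM_det [DecidableEq K] (C : ℕ) (h : M.Det) : (gsM M C).Det :=
  loader_det _ _ _ _ _ _ _ _ (gs_det M h)

end H85L
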