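import Pool.Agent.H85L.GuardS
import Pool.Agent.H85L.Clock

/-!
# The time guard
-/

set_option autoImplicit false

namespace H85L

open Mach

variable {Δ Q Γ K : Type} (M : Mach Δ Q Γ K)

/-- what the clock does, given its state and the tops of its two stacks: new state and the
operations on the path stack and on the token stack -/
def clkNext : Dir → Option (Γ ⊕ Bool) → Option (Γ ⊕ Bool) →
    Option (Dir × Op (Γ ⊕ Bool) × Op (Γ ⊕ Bool))
  | .down, _, some _ => some (.down, .push (Sum.inr false), .pop)
  | .down, _, none => some (.up, .stay, .stay)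
  | .up, some (Sum.inr false), _ => some (.mid, .pop, .stay)
  | .up, some (Sum.inr true), _ => some (.up, .pop, .push (Sum.inr false))
  | .up, _, _ => none
  | .mid, _, _ => some (.down, .push (Sum.inr true), .stay)

/-- the left part of a letter -/
def lft : Option (Γ ⊕ Bool) → Option Γ
  | some (Sum.inl g) => some g
  | _ => none

/-- transitions of the machine with a clock -/
def gtNext : Option (Q × Dir) → (K ⊕ Bool → Option (Γ ⊕ Bool)) → Option Δ → Bool →
    Option (Q × Dir) × (K ⊕ Bool → Op (Γ ⊕ Bool))
  | none, _, _, _ => (none, fun _ => .stay)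
  | some (q, d), h, o, b =>
    match clkNext d (h (Sum.inr true)) (h (Sum.inr false)) with
    | none => (none, fun _ => .stay)
    | some (d', op, ot) =>
      (some ((M.next q (fun i => lft (h (Sum.inl i))) o b).1, d'),
        Sum.elim (fun i => ((M.next q (fun i => lft (h (Sum.inl i))) o b).2 i).map Sum.inl)
          (fun x => if x then op else ot))

/-- machine with a clock -/
def gt : Mach Δ (Option (Q × Dir)) (Γ ⊕ Bool) (K ⊕ Bool) where
  adr := Sum.inl M.adr
  bit := Sum.elim M.bit (fun _ => false)
  start := some (M.start, .down)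
  out := fun x => x.elim (some false) (fun y => M.out y.1)
  next := gtNext M

theorem gt_det (h : M.Det) : (gt M).Det := by
  intro q hh o b b'
  cases q with
  | none => rfl
  | some q =>
    obtain ⟨q, d⟩ := q
    show gtNext M (some (q, d)) hh o b = gtNext M (some (q, d)) hh o b'
    simp only [gtNext]
    rw [h q _ o b b']

/-- the configuration of the machine with a clock -/
def gtF (c : Cfg Q Γ K) (s : Dir × List Bool × ℕ) :
    Cfg (Option (Q × Dir)) (Γ ⊕ Bool) (K ⊕ Bool) :=
  ⟨some (c.q, s.1), Sum.elim (fun i => (c.s i).map Sum.inl)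
    (fun x => if x then s.2.1.map Sum.inr else List.replicate s.2.2 (Sum.inr false))⟩

theorem lft_head (l : List Γ) : lft ((l.map (Sum.inl : Γ → Γ ⊕ Bool)).head?) = l.head? := by
  cases l <;> rfl

theorem gt_step_live (v : View Δ) (b : Bool) (c : Cfg Q Γ K) (s : Dir × List Bool × ℕ)
    (hout : M.out c.q = none) :
    (∀ s', clkStep s = some s' → (gt M).step v b (gtF c s) = gtF (M.step v b c) s') ∧
    (clkStep s = none → ((gt M).step v b (gtF c s)).q = none) := by
  have h1 : (gt M).out (gtF c s).q = none := hout
  rw [step_live _ _ _ _ h1, step_live _ _ _ _ hout]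
  have h2 : (((gtF c s).s (gt M).adr).map (gt M).bit) = (c.s M.adr).map M.bit := by
    show ((c.s M.adr).map Sum.inl).map (Sum.elim M.bit fun _ => false) = _
    rw [List.map_map]; rfl
  have h3 : (fun i => lft (((gtF c s).s (Sum.inl i)).head?)) = fun i => (c.s i).head? := by
    funext i
    exact lft_head _
  have hnext : (gt M).next (gtF c s).q (fun i => ((gtF c s).s i).head?)
      (v (((gtF c s).s (gt M).adr).map (gt M).bit)) b =
      gtNext M (some (c.q, s.1)) (fun i => ((gtF c s).s i).head?)
      (v ((c.s M.adr).map M.bit)) b := by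
    rw [h2]; rfl
  rw [hnext]
  simp only [gtNext]
  rw [h3]
  set r := M.next c.q (fun i => (c.s i).head?) (v ((c.s M.adr).map M.bit)) b with hr
  have hP : ((gtF c s).s (Sum.inr true)).head? = s.2.1.head?.map Sum.inr := by
    show (s.2.1.map Sum.inr).head? = _
    rw [List.head?_map]
  have hC : ((gtF c s).s (Sum.inr false)).head? =
      if s.2.2 = 0 then none else some (Sum.inr false : Γ ⊕ Bool) := by
    show (List.replicate s.2.2 (Sum.inr false : Γ ⊕ Bool)).head? = _
    rw [List.head?_replicate]
  rw [hP, hC]
  have fin : ∀ (d' : Dir) (op ot : Op (Γ ⊕ Bool)) (s' : Dir × List Bool × ℕ), s'.1 = d' →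
      op.app (s.2.1.map Sum.inr) = s'.2.1.map Sum.inr →
      ot.app (List.replicate s.2.2 (Sum.inr false : Γ ⊕ Bool)) =
        List.replicate s'.2.2 (Sum.inr false) →
      (⟨some (r.1, d'), fun i => (Sum.elim (fun i => (r.2 i).map Sum.inl)
          (fun x => if x = true then op else ot) i : Op (Γ ⊕ Bool)).app ((gtF c s).s i)⟩ :
        Cfg (Option (Q × Dir)) (Γ ⊕ Bool) (K ⊕ Bool)) =
      gtF ⟨r.1, fun i => (r.2 i).app (c.s i)⟩ s' := by
    intro d' op ot s' hd hp hc
    ext1
    · show some (r.1, d') = some (r.1, s'.1)
      rw [hd]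
    · funext x
      rcases x with i | x
      · exact Op.app_map _ _ _
      · cases x with
        | true => exact hp
        | false => exact hc
  obtain ⟨d, p, m⟩ := s
  simp only at hP hC fin ⊢
  cases d with
  | down =>
    cases m with
    | zero =>
      refine ⟨fun s' hs' => ?_, fun hs' => ?_⟩
      · simp only [clkStep, Option.some.injEq] at hs'
        subst hs'
        simp only [if_true]
        exact fin .up .stay .stay _ rfl rfl rfl
      · simp [clkStep] at hs'
    | succ m =>
      refine ⟨fun s' hs' => ?_, fun hs' => ?_⟩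
      · simp only [clkStep, Option.some.injEq] at hs'
        subst hs'
        simp only [Nat.add_eq_zero_iff, one_ne_zero, and_false, if_false]
        refine fin .down (.push (Sum.inr false)) .pop _ rfl rfl ?_
        simp [Op.app]
      · simp [clkStep] at hs'
  | mid =>
    refine ⟨fun s' hs' => ?_, fun hs' => ?_⟩
    · simp only [clkStep, Option.some.injEq] at hs'
      subst hs'
      exact fin .down (.push (Sum.inr true)) .stay _ rfl rfl rfl
    · simp [clkStep] at hs'
  | up =>
    cases p with
    | nil =>
      refine ⟨fun s' hs' => ?_, fun hs' => ?_⟩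
      · simp [clkStep] at hs'
      · simp [clkNext]
    | cons x p =>
      cases x with
      | false =>
        refine ⟨fun s' hs' => ?_, fun hs' => ?_⟩
        · simp only [clkStep, Option.some.injEq] at hs'
          subst hs'
          exact fin .mid .pop .stay _ rfl rfl rfl
        · simp [clkStep] at hs'
      | true =>
        refine ⟨fun s' hs' => ?_, fun hs' => ?_⟩
        · simp only [clkStep, Option.some.injEq] at hs'
          subst hs'
          exact fin .up .pop (.push (Sum.inr false)) _ rfl rfl rfl
        · simp [clkStep] at hs'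

/-- up to the time of the clock -/
theorem gt_run (m : ℕ) (v : View Δ) (g : ℕ → Bool) (c : Cfg Q Γ K) (t : ℕ)
    (ht : t ≤ clkTime m) :
    ∃ s, (gt M).runFrom v g (gtF c (.down, [], m)) t = gtF (M.runFrom v g c t) s ∧
      (M.out (M.runFrom v g c t).q = none → clkRun (.down, [], m) t = some s) := by
  induction t with
  | zero => exact ⟨_, rfl, fun _ => rfl⟩
  | succ t ih =>
    obtain ⟨s, h1, h2⟩ := ih (by omega)
    by_cases hout : M.out (M.runFrom v g c t).q = none
    · have h3 := h2 hout
      obtain ⟨s', hs'⟩ := clk_alive m [] (t + 1) ht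
      have h4 : clkStep s = some s' := by
        rw [clkRun, h3] at hs'
        exact hs'
      refine ⟨s', ?_, fun _ => hs'⟩
      rw [runFrom_succ, h1, (gt_step_live M v (g t) _ s hout).1 s' h4]
      rfl
    · have hh : (M.out (M.runFrom v g c t).q).isSome := Option.isSome_iff_ne_none.2 hout
      have h4 : M.runFrom v g c (t + 1) = M.runFrom v g c t := by
        rw [runFrom_succ, step_halted _ _ _ _ hh]
      refine ⟨s, ?_, fun h5 => ?_⟩
      · rw [runFrom_succ, h1, h4]
        exact step_halted _ _ _ _ hh
      · rw [h4] at h5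
        exact absurd h5 hout

theorem gt_end (m : ℕ) (v : View Δ) (g : ℕ → Bool) (c : Cfg Q Γ K) :
    ((gt M).out ((gt M).runFrom v g (gtF c (.down, [], m)) (clkTime m + 1)).q).isSome ∧
    (∀ t, (gt M).out ((gt M).runFrom v g (gtF c (.down, [], m)) t).q = some true →
      ∃ t', M.out (M.runFrom v g c t').q = some true) := by
  obtain ⟨s, h1, h2⟩ := gt_run M m v g c (clkTime m) le_rfl
  by_cases hout : M.out (M.runFrom v g c (clkTime m)).q = none
  · have h3 := h2 hout
    rw [clk_search] at h3
    have hnone : ((gt M).runFrom v g (gtF c (.down, [], m)) (clkTime m + 1)).q = none := by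
      rw [runFrom_succ, h1]
      refine (gt_step_live M v _ _ s hout).2 ?_
      rw [← (Option.some.inj h3)]
      rfl
    refine ⟨by rw [hnone]; rfl, fun t ht => ?_⟩
    by_cases htt : t ≤ clkTime m
    · obtain ⟨s', h4, _⟩ := gt_run M m v g c t htt
      rw [h4] at ht
      exact ⟨t, ht⟩
    · obtain ⟨r, rfl⟩ := Nat.exists_eq_add_of_le (Nat.lt_of_not_le htt)
      have h5 : ((gt M).out ((gt M).runFrom v g (gtF c (.down, [], m)) (clkTime m + 1)).q).isSome := by
        rw [hnone]; rfl
      rw [show (clkTime m).succ + r = (clkTime m + 1) + r from rfl,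
        runFrom_halted _ _ _ _ _ _ h5, hnone] at ht
      simp [gt] at ht
  · have hh : (M.out (M.runFrom v g c (clkTime m)).q).isSome := Option.isSome_iff_ne_none.2 hout
    have h5 : ((gt M).out ((gt M).runFrom v g (gtF c (.down, [], m)) (clkTime m)).q).isSome := by
      rw [h1]; exact hh
    refine ⟨?_, fun t ht => ?_⟩
    · exact halted_mono _ _ _ _ (by omega) h5
    · by_cases htt : t ≤ clkTime m
      · obtain ⟨s', h4, _⟩ := gt_run M m v g c t htt
        rw [h4] at ht
        exact ⟨t, ht⟩
      · obtain ⟨r, rfl⟩ := Nat.exists_eq_add_of_le (Nat.le_of_not_le htt)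
        rw [runFrom_halted _ _ _ _ _ _ h5, h1] at ht
        exact ⟨_, ht⟩

theorem gt_accepts (m : ℕ) (v : View Δ) (c : Cfg Q Γ K)
    (hM : ∀ g, (M.out (M.runFrom v g c (2 ^ m)).q).isSome) :
    (∃ g t, (gt M).out ((gt M).runFrom v g (gtF c (.down, [], m)) t).q = some true) ↔
      ∃ g t, M.out (M.runFrom v g c t).q = some true := by
  constructor
  · rintro ⟨g, t, h⟩
    exact ⟨g, (gt_end M m v g c).2 t h⟩
  · rintro ⟨g, t, h⟩
    have h3 : M.out (M.runFrom v g c (clkTime m)).q = some true := by
      have h4 := hM g
      rcases le_total t (clkTime m) with htt | htt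
      · obtain ⟨r, hr⟩ := Nat.exists_eq_add_of_le htt
        rw [hr, runFrom_halted _ _ _ _ _ _ (by rw [h]; rfl)]
        exact h
      · obtain ⟨r, hr⟩ := Nat.exists_eq_add_of_le htt
        have h5 := halted_mono M v g c (le_clkTime m) h4
        rw [hr, runFrom_halted _ _ _ _ _ _ h5] at h
        exact h
    obtain ⟨s, h1, _⟩ := gt_run M m v g c (clkTime m) le_rfl
    refine ⟨g, clkTime m, ?_⟩
    rw [h1]
    exact h3

/-- the complete machine with a clock -/
def gtM [DecidableEq K] (C : ℕ) : Mach Δ (LQ (Option (Q × Dir)) C) (Γ ⊕ Bool) (K ⊕ Bool) :=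
  loader (gt M) C (Sum.elim (fun _ => 0) (fun x => if x then 0 else C))
    (Sum.elim (fun _ => 0) (fun x => if x then 0 else C))
    (fun _ => Sum.inr false) (Sum.inr false) (fun o => o.isSome) false

theorem gtM_main [DecidableEq K] (C : ℕ) (v : View Δ) (k : ℕ)
    (hv : ∀ j, j < k → v (List.replicate j false) ≠ none)
    (hk : v (List.replicate k false) = none) :
    (∀ g, ((gtM M C).out ((gtM M C).run v g (2 ^ ((C + 4) * (k + 1)))).q).isSome) ∧
    ((∀ g, (M.out (M.run v g (2 ^ (C * (k + 1)))).q).isSome) →
      ((gtM M C).Accepts v ↔ M.Accepts v)) := by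
  have hex : ∀ i : K ⊕ Bool,
      (Sum.elim (fun _ => 0) (fun x => if x then 0 else C) : K ⊕ Bool → ℕ) i ≤ C := by
    rintro (i | i)
    · simp
    · cases i <;> simp
  have h1 : loaded (gt M) (Sum.elim (fun _ => 0) (fun x => if x then 0 else C))
      (Sum.elim (fun _ => 0) (fun x => if x then 0 else C))
      (fun _ => Sum.inr false) (Sum.inr false) false k =
      gtF M.init (.down, [], C * (k + 1)) := by
    ext1
    · rfl
    · funext x
      rcases x with i | i
      · show (if (Sum.inl i : K ⊕ Bool) = Sum.inl M.adr then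
            (if false = true then List.replicate k (Sum.inr false) else [])
            else List.replicate (0 + k * 0) (Sum.inr false)) = ([] : List (Γ ⊕ Bool))
        split_ifs <;> simp_all
      · cases i with
        | true =>
          show (if (Sum.inr true : K ⊕ Bool) = Sum.inl M.adr then
            (if false = true then List.replicate k (Sum.inr false) else [])
            else List.replicate (0 + k * 0) (Sum.inr false)) = ([] : List (Γ ⊕ Bool))
          rw [if_neg (by simp)]
          simp
        | false =>
          show (if (Sum.inr false : K ⊕ Bool) = Sum.inl M.adr then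
            (if false = true then List.replicate k (Sum.inr false) else [])
            else List.replicate (C + k * C) (Sum.inr false)) =
            List.replicate (C * (k + 1)) (Sum.inr false : Γ ⊕ Bool)
          rw [if_neg (by simp)]
          congr 1
          ring
  have hv' : ∀ j, j < k → (fun o : Option Δ => o.isSome) (v (List.replicate j false)) = true :=
    fun j hj => Option.isSome_iff_ne_none.2 (hv j hj)
  have hk' : (fun o : Option Δ => o.isSome) (v (List.replicate k false)) = false := by
    rw [hk]; rfl
  have hT : loadTime C false k ≤ (C + 3) * (k + 1) := by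
    simp only [loadTime, Bool.false_eq_true, if_false]
    nlinarith
  constructor
  · intro g
    have h2 := loader_time (gt M) C _ _ _ (Sum.inr false) _ false v hex hex rfl rfl rfl k hv' hk'
      (clkTime (C * (k + 1)) + 1) (by
        intro g
        rw [h1]
        exact (gt_end M _ v g M.init).1) g
    refine halted_mono (gtM M C) v g _ ?_ h2
    have h3 := clkTime_eq (C * (k + 1))
    have h4 : loadTime C false k ≤ 2 ^ ((C + 3) * (k + 1)) :=
      hT.trans (Nat.lt_two_pow_self).le
    have h5 : clkTime (C * (k + 1)) + 1 ≤ 2 ^ ((C + 3) * (k + 1)) := by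
      have h6 : clkTime (C * (k + 1)) + 1 ≤ 2 ^ (C * (k + 1) + 3) := by
        rw [pow_add]; omega
      refine h6.trans (Nat.pow_le_pow_right (by norm_num) (by nlinarith))
    calc loadTime C false k + (clkTime (C * (k + 1)) + 1)
        ≤ 2 ^ ((C + 3) * (k + 1)) + 2 ^ ((C + 3) * (k + 1)) := by omega
      _ = 2 ^ ((C + 3) * (k + 1) + 1) := by rw [pow_succ]; ring
      _ ≤ 2 ^ ((C + 4) * (k + 1)) := Nat.pow_le_pow_right (by norm_num) (by nlinarith)
  · intro hM
    rw [show (gtM M C).Accepts v ↔ _ from loader_accepts (gt M) C _ _ _ (Sum.inr false) _ false v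
      hex hex rfl rfl rfl k hv' hk', h1]
    exact gt_accepts M _ v M.init hM

theorem gtM_det [DecidableEq K] (C : ℕ) (h : M.Det) : (gtM M C).Det :=
  loader_det _ _ _ _ _ _ _ _ (gt_det M h)

end H85L
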