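import Pool.Agent.H85L.Basic

/-!
# The loader

`loader N C ex ld tok z test keep` first probes its view at the addresses `0 ^ j` as long as the
answer passes `test`; before that it pushes `ex i` letters `tok i` and after every successful probe
`ld i` letters `tok i` on each stack `i`. Then it removes the address again, unless `keep`, and
starts `N`.
-/

set_option autoImplicit false

namespace H85L

open Mach

/-- states of the loader -/
inductive LQ (Q : Type) (C : ℕ)
  | body (q : Q)
  | load (first : Bool) (j : Fin (C + 1))
  | probe
  | clean

instance {Q : Type} [Finite Q] (C : ℕ) : Finite (LQ Q C) := by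
  have : Function.Injective (fun x : LQ Q C => match x with
    | .body q => (Sum.inl q : Q ⊕ ((Bool × Fin (C + 1)) ⊕ Bool))
    | .load b j => Sum.inr (Sum.inl (b, j))
    | .probe => Sum.inr (Sum.inr false)
    | .clean => Sum.inr (Sum.inr true)) := by
    intro x y h
    cases x <;> cases y <;> simp_all
  exact Finite.of_injective _ this

variable {Δ Q Γ K : Type} [DecidableEq K] (N : Mach Δ Q Γ K) (C : ℕ) (ex ld : K → ℕ)
  (tok : K → Γ) (z : Γ) (test : Option Δ → Bool) (keep : Bool)

/-- the transitions of the loader -/
def loaderNext : LQ Q C → (K → Option Γ) → Option Δ → Bool → LQ Q C × (K → Op Γ)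
  | .body q, h, o, b => (.body (N.next q h o b).1, (N.next q h o b).2)
  | .load b j, _, _, _ =>
      (if hj : j.val + 1 < C + 1 then .load b ⟨j.val + 1, hj⟩ else .probe,
        fun i => if j.val < (if b then ex i else ld i) then .push (tok i) else .stay)
  | .probe, _, o, _ =>
      if test o then (.load false 0, fun i => if i = N.adr then .push z else .stay)
      else if keep then (.body N.start, fun _ => .stay) else (.clean, fun _ => .stay)
  | .clean, h, _, _ =>
      if (h N.adr).isSome then (.clean, fun i => if i = N.adr then .pop else .stay)
      else (.body N.start, fun _ => .stay)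

/-- when the loader halts -/
def loaderOut : LQ Q C → Option Bool
  | .body q => N.out q
  | _ => none

/-- the loader -/
def loader : Mach Δ (LQ Q C) Γ K where
  adr := N.adr
  bit := N.bit
  start := .load true 0
  out := loaderOut N C
  next := loaderNext N C ex ld tok z test keep

theorem loader_det (h : N.Det) : (loader N C ex ld tok z test keep).Det := by
  intro q hh o b b'
  cases q with
  | body q =>
    show loaderNext N C ex ld tok z test keep (.body q) hh o b =
      loaderNext N C ex ld tok z test keep (.body q) hh o b'
    simp only [loaderNext]
    rw [h q hh o b b']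
  | load f j => rfl
  | probe => rfl
  | clean => rfl


/-- a configuration of `N` as a configuration of the loader -/
def emb (c : Cfg Q Γ K) : Cfg (LQ Q C) Γ K := ⟨LQ.body c.q, c.s⟩

theorem step_emb (v : View Δ) (b : Bool) (c : Cfg Q Γ K) :
    (loader N C ex ld tok z test keep).step v b (emb C c) = emb C (N.step v b c) := by
  unfold step
  by_cases h : (N.out c.q).isSome
  · have h' : ((loader N C ex ld tok z test keep).out (emb C c).q).isSome := h
    rw [if_pos h', if_pos h]
  · have h' : ¬ ((loader N C ex ld tok z test keep).out (emb C c).q).isSome := h
    rw [if_neg h', if_neg h]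
    rfl

theorem runFrom_emb (v : View Δ) (g : ℕ → Bool) (c : Cfg Q Γ K) (t : ℕ) :
    (loader N C ex ld tok z test keep).runFrom v g (emb C c) t = emb C (N.runFrom v g c t) := by
  induction t with
  | zero => rfl
  | succ t ih => rw [runFrom_succ, ih, step_emb]; rfl

/-- not yet in the body -/
def Early : LQ Q C → Prop
  | .body _ => False
  | _ => True

theorem early_step (v : View Δ) (b : Bool) (c : Cfg (LQ Q C) Γ K)
    (h : Early C ((loader N C ex ld tok z test keep).step v b c).q) : Early C c.q := by
  obtain ⟨q, s⟩ := c
  cases q with
  | body q =>
    have := step_emb N C ex ld tok z test keep v b ⟨q, s⟩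
    change (loader N C ex ld tok z test keep).step v b ⟨LQ.body q, s⟩ = _ at this
    rw [this] at h
    exact h
  | load f j => trivial
  | probe => trivial
  | clean => trivial

theorem early_run (v : View Δ) (g : ℕ → Bool) (c : Cfg (LQ Q C) Γ K)
    {t T : ℕ} (hT : t ≤ T)
    (h : Early C ((loader N C ex ld tok z test keep).runFrom v g c T).q) :
    Early C ((loader N C ex ld tok z test keep).runFrom v g c t).q := by
  obtain ⟨k, rfl⟩ := Nat.exists_eq_add_of_le hT
  clear hT
  induction k with
  | zero => exact h
  | succ k ih => exact ih (early_step N C ex ld tok z test keep v _ _ h)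

theorem early_out {x : LQ Q C} (h : Early C x) :
    (loader N C ex ld tok z test keep).out x = none := by
  cases x with
  | body q => exact h.elim
  | load f j => rfl
  | probe => rfl
  | clean => rfl

theorem next_load (f : Bool) (j : Fin (C + 1)) (h : K → Option Γ) (o : Option Δ) (b : Bool) :
    (loader N C ex ld tok z test keep).next (LQ.load f j) h o b =
      (if hj : j.val + 1 < C + 1 then .load f ⟨j.val + 1, hj⟩ else .probe,
        fun i => if j.val < (if f then ex i else ld i) then .push (tok i) else .stay) := rfl

theorem next_probe (h : K → Option Γ) (o : Option Δ) (b : Bool) :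
    (loader N C ex ld tok z test keep).next LQ.probe h o b =
      if test o then (.load false 0, fun i => if i = N.adr then .push z else .stay)
      else if keep then (.body N.start, fun _ => .stay) else (.clean, fun _ => .stay) := rfl

theorem next_clean (h : K → Option Γ) (o : Option Δ) (b : Bool) :
    (loader N C ex ld tok z test keep).next LQ.clean h o b =
      if (h N.adr).isSome then (.clean, fun i => if i = N.adr then .pop else .stay)
      else (.body N.start, fun _ => .stay) := rfl

/-- letters `tok i` on top of `s i`, for the stacks with a load -/
theorem load_round (v : View Δ) (g : ℕ → Bool) (f : Bool) (s : K → List Γ) (j : ℕ)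
    (hj : j < C + 1) :
    (loader N C ex ld tok z test keep).runFrom v g ⟨LQ.load f 0, s⟩ j =
      ⟨LQ.load f ⟨j, hj⟩, fun i =>
        List.replicate (min j (if f then ex i else ld i)) (tok i) ++ s i⟩ := by
  induction j with
  | zero => simp [runFrom]
  | succ j ih =>
    rw [runFrom_succ, ih (by omega), step_live _ _ _ _ rfl]
    have h1 : j + 1 < C + 1 := hj
    simp only [next_load]
    ext1
    · show (if hj : j + 1 < C + 1 then LQ.load f ⟨j + 1, hj⟩ else LQ.probe) = _
      rw [dif_pos h1]
    · funext i
      show Op.app (if j < (if f then ex i else ld i) then Op.push (tok i) else Op.stay) _ = _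
      by_cases h2 : j < (if f then ex i else ld i)
      · rw [if_pos h2]
        simp only [Op.app]
        rw [Nat.min_eq_left h2.le, Nat.min_eq_left (by omega : j + 1 ≤ _),
          List.replicate_succ, List.cons_append]
      · rw [if_neg h2]
        simp only [Op.app]
        rw [Nat.min_eq_right (by omega), Nat.min_eq_right (by omega)]

theorem load_end (v : View Δ) (g : ℕ → Bool) (f : Bool) (s : K → List Γ)
    (hex : ∀ i, ex i ≤ C) (hld : ∀ i, ld i ≤ C) :
    (loader N C ex ld tok z test keep).runFrom v g ⟨LQ.load f 0, s⟩ (C + 1) =
      ⟨LQ.probe, fun i => List.replicate (if f then ex i else ld i) (tok i) ++ s i⟩ := by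
  rw [runFrom_succ, load_round N C ex ld tok z test keep v g f s C (by omega),
    step_live _ _ _ _ rfl]
  simp only [next_load]
  ext1
  · show (if hj : C + 1 < C + 1 then LQ.load f ⟨C + 1, hj⟩ else LQ.probe) = _
    rw [dif_neg (by omega)]
  · funext i
    show Op.app (if C < (if f then ex i else ld i) then Op.push (tok i) else Op.stay) _ = _
    have h3 : (if f then ex i else ld i) ≤ C := by
      split_ifs
      · exact hex i
      · exact hld i
    rw [if_neg (by omega)]
    simp only [Op.app]
    rw [Nat.min_eq_right h3]

/-- the stacks after `k` successful probes -/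
def stk (a : K) (k : ℕ) : K → List Γ := fun i =>
  if i = a then List.replicate k z else List.replicate (ex i + k * ld i) (tok i)

theorem stk_adr (a : K) (k : ℕ) : stk ex ld tok z a k a = List.replicate k z := by
  simp [stk]

theorem stk_ne (a : K) (k : ℕ) {i : K} (h : i ≠ a) :
    stk ex ld tok z a k i = List.replicate (ex i + k * ld i) (tok i) := by
  simp [stk, h]

/-- after the initial load and `k` successful rounds -/
theorem rounds (v : View Δ) (g : ℕ → Bool)
    (hex : ∀ i, ex i ≤ C) (hld : ∀ i, ld i ≤ C) (hexa : ex N.adr = 0) (hlda : ld N.adr = 0)
    (hz : N.bit z = false) (k : ℕ)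
    (hv : ∀ j, j < k → test (v (List.replicate j false)) = true) :
    (loader N C ex ld tok z test keep).run v g ((C + 1) + k * (C + 2)) =
      ⟨LQ.probe, stk ex ld tok z N.adr k⟩ := by
  induction k with
  | zero =>
    rw [zero_mul, add_zero]
    show (loader N C ex ld tok z test keep).runFrom v g ⟨LQ.load true 0, fun _ => []⟩ (C + 1) = _
    rw [load_end N C ex ld tok z test keep v g true _ hex hld]
    ext1
    · rfl
    · funext i
      simp only [if_true, List.append_nil]
      by_cases h : i = N.adr
      · rw [h, stk_adr, hexa]; rfl
      · rw [stk_ne _ _ _ _ _ _ h]; simp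
  | succ k ih =>
    have h1 : (C + 1) + (k + 1) * (C + 2) = ((C + 1) + k * (C + 2)) + (1 + (C + 1)) := by ring
    rw [h1]
    show (loader N C ex ld tok z test keep).runFrom v g _ _ = _
    rw [runFrom_add]
    have h2 := ih (fun j hj => hv j (by omega))
    rw [show (loader N C ex ld tok z test keep).runFrom v g
      (loader N C ex ld tok z test keep).init ((C + 1) + k * (C + 2)) =
      ⟨LQ.probe, stk ex ld tok z N.adr k⟩ from h2]
    rw [runFrom_add]
    have h3 : ((stk ex ld tok z N.adr k N.adr).map N.bit) = List.replicate k false := by
      rw [stk_adr, List.map_replicate, hz]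
    have h6 : (loader N C ex ld tok z test keep).runFrom v
        (fun i => g (C + 1 + k * (C + 2) + i)) ⟨LQ.probe, stk ex ld tok z N.adr k⟩ 1 =
        ⟨LQ.load false 0, fun i =>
          if i = N.adr then List.replicate (k + 1) z else stk ex ld tok z N.adr k i⟩ := by
      show (loader N C ex ld tok z test keep).step v _ _ = _
      rw [runFrom_zero, step_live _ _ _ _ rfl]
      simp only [next_probe]
      rw [if_pos (by
        show test (v ((stk ex ld tok z N.adr k N.adr).map N.bit)) = true
        rw [h3]; exact hv k (by omega))]
      ext1
      · rfl
      · funext i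
        show Op.app (if i = N.adr then Op.push z else Op.stay) _ = _
        by_cases h : i = N.adr
        · subst h
          simp only [if_true, Op.app, stk_adr]
          rfl
        · simp only [if_neg h, Op.app]
    rw [h6, load_end N C ex ld tok z test keep v _ false _ hex hld]
    ext1
    · rfl
    · funext i
      by_cases h : i = N.adr
      · subst h
        simp only [Bool.false_eq_true, if_false, hlda, List.replicate_zero, List.nil_append,
          if_true]
        rw [stk_adr]
      · simp only [Bool.false_eq_true, if_false, if_neg h]
        rw [stk_ne _ _ _ _ _ _ h, stk_ne _ _ _ _ _ _ h, ← List.replicate_add]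
        congr 1
        ring

/-- the configuration in which the body starts -/
def loaded (k : ℕ) : Cfg Q Γ K :=
  ⟨N.start, fun i => if i = N.adr then (if keep then List.replicate k z else [])
    else List.replicate (ex i + k * ld i) (tok i)⟩

/-- the number of moves before the body starts -/
def loadTime (k : ℕ) : ℕ := (C + 1) + k * (C + 2) + (if keep then 1 else k + 2)

theorem cleaning (v : View Δ) (g : ℕ → Bool) (k j : ℕ) (hj : j ≤ k) :
    (loader N C ex ld tok z test keep).runFrom v g ⟨LQ.clean, stk ex ld tok z N.adr k⟩ j =
      ⟨LQ.clean, fun i => if i = N.adr then List.replicate (k - j) z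
        else stk ex ld tok z N.adr k i⟩ := by
  induction j with
  | zero =>
    rw [runFrom_zero]
    ext1
    · rfl
    · funext i
      by_cases h : i = N.adr
      · subst h
        simp only [if_true, stk_adr, Nat.sub_zero]
      · simp only [if_neg h]
  | succ j ih =>
    rw [runFrom_succ, ih (by omega), step_live _ _ _ _ rfl]
    simp only [next_clean]
    obtain ⟨r, hr⟩ : ∃ r, k - j = r + 1 := ⟨k - (j + 1), by omega⟩
    have hr' : k - (j + 1) = r := by omega
    rw [hr, hr']
    simp only [if_true, List.replicate_succ, List.head?_cons, Option.isSome_some]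
    ext1
    · rfl
    · funext i
      show Op.app (if i = N.adr then Op.pop else Op.stay) _ = _
      by_cases h : i = N.adr
      · simp only [if_pos h, Op.app, List.tail_cons]
      · simp only [if_neg h, Op.app]

theorem load_main (v : View Δ) (g : ℕ → Bool)
    (hex : ∀ i, ex i ≤ C) (hld : ∀ i, ld i ≤ C) (hexa : ex N.adr = 0) (hlda : ld N.adr = 0)
    (hz : N.bit z = false) (k : ℕ)
    (hv : ∀ j, j < k → test (v (List.replicate j false)) = true)
    (hk : test (v (List.replicate k false)) = false) :
    (∀ t, t < loadTime C keep k → Early C ((loader N C ex ld tok z test keep).run v g t).q) ∧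
    (loader N C ex ld tok z test keep).run v g (loadTime C keep k) =
      emb C (loaded N ex ld tok z keep k) := by
  have h0 := rounds N C ex ld tok z test keep v g hex hld hexa hlda hz k hv
  have h3 : ((stk ex ld tok z N.adr k N.adr).map N.bit) = List.replicate k false := by
    rw [stk_adr, List.map_replicate, hz]
  have hprobe : ∀ g' : ℕ → Bool, (loader N C ex ld tok z test keep).runFrom v g'
      ⟨LQ.probe, stk ex ld tok z N.adr k⟩ 1 =
      ⟨if keep then .body N.start else .clean, stk ex ld tok z N.adr k⟩ := by
    intro g'
    show (loader N C ex ld tok z test keep).step v _ _ = _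
    rw [runFrom_zero, step_live _ _ _ _ rfl]
    simp only [next_probe]
    rw [if_neg (by
      show ¬ test (v ((stk ex ld tok z N.adr k N.adr).map N.bit)) = true
      rw [h3, hk]; simp)]
    cases keep <;> rfl
  cases hkeep : keep with
  | true =>
    subst hkeep
    have h1 : loadTime C true k = ((C + 1) + k * (C + 2)) + 1 := rfl
    refine ⟨fun t ht => ?_, ?_⟩
    · refine early_run N C ex ld tok z test true v g _ (T := (C + 1) + k * (C + 2)) (by omega) ?_
      have : (loader N C ex ld tok z test true).runFrom v g
        (loader N C ex ld tok z test true).init ((C + 1) + k * (C + 2)) =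
        ⟨LQ.probe, stk ex ld tok z N.adr k⟩ := h0
      rw [this]; trivial
    · rw [h1]
      show (loader N C ex ld tok z test true).runFrom v g _ _ = _
      rw [runFrom_add]
      have : (loader N C ex ld tok z test true).runFrom v g
        (loader N C ex ld tok z test true).init ((C + 1) + k * (C + 2)) =
        ⟨LQ.probe, stk ex ld tok z N.adr k⟩ := h0
      rw [this, hprobe]
      ext1
      · rfl
      · funext i
        show stk ex ld tok z N.adr k i = if i = N.adr then _ else _
        by_cases h : i = N.adr
        · rw [if_pos h, h, stk_adr]; rfl
        · rw [if_neg h, stk_ne _ _ _ _ _ _ h]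
  | false =>
    subst hkeep
    have h1 : loadTime C false k = ((C + 1) + k * (C + 2)) + (1 + (k + 1)) := by
      simp [loadTime]; ring
    have h4 : (loader N C ex ld tok z test false).runFrom v g
        (loader N C ex ld tok z test false).init ((C + 1) + k * (C + 2)) =
        ⟨LQ.probe, stk ex ld tok z N.adr k⟩ := h0
    have h5 : (loader N C ex ld tok z test false).runFrom v g
        (loader N C ex ld tok z test false).init (((C + 1) + k * (C + 2)) + (1 + k)) =
        ⟨LQ.clean, fun i => if i = N.adr then []
          else stk ex ld tok z N.adr k i⟩ := by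
      rw [runFrom_add, h4, runFrom_add, hprobe]
      show (loader N C ex ld tok z test false).runFrom v _ ⟨LQ.clean, _⟩ k = _
      rw [cleaning _ _ _ _ _ _ _ _ _ _ _ _ le_rfl, Nat.sub_self]
      rfl
    refine ⟨fun t ht => ?_, ?_⟩
    · refine early_run N C ex ld tok z test false v g _
        (T := ((C + 1) + k * (C + 2)) + (1 + k)) (by omega) ?_
      rw [h5]; trivial
    · rw [h1]
      show (loader N C ex ld tok z test false).runFrom v g _ _ = _
      rw [show ((C + 1) + k * (C + 2)) + (1 + (k + 1)) =
        (((C + 1) + k * (C + 2)) + (1 + k)) + 1 by ring, runFrom_succ, h5,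
        step_live _ _ _ _ rfl]
      simp only [next_clean, if_true, List.head?_nil, Option.isSome_none, Bool.false_eq_true,
        if_false]
      ext1
      · rfl
      · funext i
        show (if i = N.adr then [] else stk ex ld tok z N.adr k i : List Γ) =
          if i = N.adr then _ else _
        by_cases h : i = N.adr
        · rw [if_pos h, if_pos h]; rfl
        · rw [if_neg h, if_neg h, stk_ne _ _ _ _ _ _ h]

section Summary

variable (v : View Δ) (hex : ∀ i, ex i ≤ C) (hld : ∀ i, ld i ≤ C) (hexa : ex N.adr = 0)
    (hlda : ld N.adr = 0) (hz : N.bit z = false) (k : ℕ)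
    (hv : ∀ j, j < k → test (v (List.replicate j false)) = true)
    (hk : test (v (List.replicate k false)) = false)

include hex hld hexa hlda hz hv hk

theorem loader_run_late (g : ℕ → Bool) (t : ℕ) :
    (loader N C ex ld tok z test keep).run v g (loadTime C keep k + t) =
      emb C (N.runFrom v (fun i => g (loadTime C keep k + i)) (loaded N ex ld tok z keep k) t) := by
  show (loader N C ex ld tok z test keep).runFrom v g _ _ = _
  rw [runFrom_add]
  have h := (load_main N C ex ld tok z test keep v g hex hld hexa hlda hz k hv hk).2
  rw [show (loader N C ex ld tok z test keep).runFrom v g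
    (loader N C ex ld tok z test keep).init (loadTime C keep k) = _ from h, runFrom_emb]

theorem loader_accepts : (loader N C ex ld tok z test keep).Accepts v ↔
    ∃ g t, N.out (N.runFrom v g (loaded N ex ld tok z keep k) t).q = some true := by
  constructor
  · rintro ⟨g, t, h⟩
    by_cases ht : t < loadTime C keep k
    · have := (load_main N C ex ld tok z test keep v g hex hld hexa hlda hz k hv hk).1 t ht
      rw [early_out N C ex ld tok z test keep this] at h
      simp at h
    · obtain ⟨r, rfl⟩ := Nat.exists_eq_add_of_le (not_lt.1 ht)
      rw [loader_run_late N C ex ld tok z test keep v hex hld hexa hlda hz k hv hk] at h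
      exact ⟨_, r, h⟩
  · rintro ⟨g, t, h⟩
    refine ⟨fun i => g (i - loadTime C keep k), loadTime C keep k + t, ?_⟩
    rw [loader_run_late N C ex ld tok z test keep v hex hld hexa hlda hz k hv hk]
    have : (fun i => (fun i => g (i - loadTime C keep k)) (loadTime C keep k + i)) = g := by
      funext i
      show g (loadTime C keep k + i - loadTime C keep k) = g i
      rw [Nat.add_sub_cancel_left]
    rw [this]
    exact h

theorem loader_space (S : ℕ)
    (hS : ∀ g t i, ((N.runFrom v g (loaded N ex ld tok z keep k) t).s i).length ≤ S)
    (g : ℕ → Bool) (t : ℕ) (i : K) :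
    (((loader N C ex ld tok z test keep).run v g t).s i).length ≤ max (loadTime C keep k) S := by
  by_cases ht : t < loadTime C keep k
  · refine le_trans ?_ (le_max_left _ _)
    have := runFrom_length_le (loader N C ex ld tok z test keep) v g
      (loader N C ex ld tok z test keep).init t i
    refine this.trans ?_
    show ([] : List Γ).length + t ≤ _
    simp only [List.length_nil]
    omega
  · obtain ⟨r, rfl⟩ := Nat.exists_eq_add_of_le (not_lt.1 ht)
    rw [loader_run_late N C ex ld tok z test keep v hex hld hexa hlda hz k hv hk]
    exact (hS _ r i).trans (le_max_right _ _)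

theorem loader_time (T : ℕ)
    (hT : ∀ g, (N.out (N.runFrom v g (loaded N ex ld tok z keep k) T).q).isSome)
    (g : ℕ → Bool) :
    ((loader N C ex ld tok z test keep).out
      ((loader N C ex ld tok z test keep).run v g (loadTime C keep k + T)).q).isSome := by
  rw [loader_run_late N C ex ld tok z test keep v hex hld hexa hlda hz k hv hk]
  exact hT _

end Summary

end H85L
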