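import Pool.Agent.H85L.Double

/-!
# Letters written in binary, and the tally language of a set of words
-/

set_option autoImplicit false

namespace H85L

open Mach

/-- complete binary trees of letters -/
def Tr (Θ : Type) : ℕ → Type
  | 0 => Θ
  | j + 1 => Tr Θ j × Tr Θ j

instance Tr.finite {Θ : Type} [Finite Θ] : (j : ℕ) → Finite (Tr Θ j)
  | 0 => (inferInstance : Finite Θ)
  | j + 1 => by
    have := Tr.finite (Θ := Θ) j
    exact (inferInstance : Finite (Tr Θ j × Tr Θ j))

theorem card_tr (j : ℕ) : Nat.card (Tr Bool j) = 2 ^ 2 ^ j := by
  induction j with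
  | zero => show Nat.card Bool = _; simp
  | succ j ih =>
    show Nat.card (Tr Bool j × Tr Bool j) = _
    rw [Nat.card_prod, ih, ← pow_add, pow_succ]
    congr 1
    ring

/-- the letter at a leaf -/
def Tr.get {Θ : Type} : (j : ℕ) → Tr Θ j → List Bool → Θ
  | 0, x, _ => x
  | j + 1, x, [] => Tr.get j x.1 []
  | j + 1, x, b :: l => Tr.get j (if b then x.2 else x.1) l

/-- the tree with given leaves -/
def Tr.mk {Θ : Type} : (j : ℕ) → (List Bool → Θ) → Tr Θ j
  | 0, f => f []
  | j + 1, f => (Tr.mk j (fun l => f (false :: l)), Tr.mk j (fun l => f (true :: l)))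

theorem Tr.mk_get {Θ : Type} (j : ℕ) (x : Tr Θ j) : Tr.mk j (Tr.get j x) = x := by
  induction j with
  | zero => rfl
  | succ j ih =>
    show (Tr.mk j (fun l => Tr.get j x.1 l), Tr.mk j (fun l => Tr.get j x.2 l)) = x
    rw [show (fun l => Tr.get j x.1 l) = Tr.get j x.1 from rfl,
      show (fun l => Tr.get j x.2 l) = Tr.get j x.2 from rfl, ih, ih]
    rfl

theorem Tr.mk_congr {Θ : Type} (j : ℕ) : ∀ f f' : List Bool → Θ,
    (∀ l, l.length = j → f l = f' l) → Tr.mk j f = Tr.mk j f' := by
  induction j with
  | zero => intro f f' h; exact h [] rfl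
  | succ j ih =>
    intro f f' h
    show (_, _) = (_, _)
    rw [ih _ (fun l => f' (false :: l)) (fun l hl => h _ (by simp [hl])),
      ih _ (fun l => f' (true :: l)) (fun l hl => h _ (by simp [hl]))]

/-- the view in trees -/
def treeView {Θ : Type} (u : View Θ) : (j : ℕ) → View (Tr Θ j)
  | 0 => u
  | j + 1 => view2 (treeView u j)

theorem treeView_eq {Θ : Type} (a : List Bool → Θ) (N j : ℕ) : ∀ r : List Bool,
    treeView (fun q => if q.length ≤ N then some (a q) else none) j r =
      if r.length + j ≤ N then some (Tr.mk j (fun l => a (l.reverse ++ r))) else none := by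
  induction j with
  | zero => intro r; rfl
  | succ j ih =>
    intro r
    show pair2 _ _ = _
    rw [ih, ih]
    have h1 : (false :: r).length + j = r.length + (j + 1) := by simp; omega
    have h2 : (true :: r).length + j = r.length + (j + 1) := by simp; omega
    rw [h1, h2]
    split_ifs with h
    · show some ((_, _) : Tr Θ j × Tr Θ j) = some (_, _)
      simp only [List.reverse_cons, List.append_assoc, List.singleton_append]
    · rfl

/-- a machine which reads trees, on a view with single letters -/
theorem tree_exists (Θ : Type) [Finite Θ] (j : ℕ) : ∀ {Q Γ K : Type} [Finite Q] [Finite Γ]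
    [Finite K] (M : Mach (Tr Θ j) Q Γ K),
    ∃ (Q' Γ' K' : Type) (_ : Finite Q') (_ : Finite Γ') (_ : Finite K') (M' : Mach Θ Q' Γ' K'),
      (M.Det → M'.Det) ∧ ∀ u : View Θ,
        (∀ time B, M.Bounded time (treeView u j) B → M'.Bounded time u (B + 4 * j)) ∧
        (M'.Accepts u ↔ M.Accepts (treeView u j)) := by
  classical
  induction j with
  | zero =>
    intro Q Γ K hQ hΓ hK M
    exact ⟨Q, Γ, K, hQ, hΓ, hK, M, id, fun u => ⟨fun time B h => h, Iff.rfl⟩⟩
  | succ j ih =>
    intro Q Γ K hQ hΓ hK M
    have hf : Finite (Tr Θ j) := inferInstance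
    change Mach (Tr Θ j × Tr Θ j) Q Γ K at M
    obtain ⟨Q', Γ', K', hQ', hΓ', hK', M', h1, h2⟩ := ih (dbl M)
    refine ⟨Q', Γ', K', hQ', hΓ', hK', M', fun h => h1 (dbl_det M h), fun u => ⟨?_, ?_⟩⟩
    · intro time B hB
      have h3 := (h2 u).1 time (B + 4) ((dbl_main M (treeView u j)).1 time B hB)
      refine h3.mono ?_
      omega
    · exact (h2 u).2.trans (dbl_main M (treeView u j)).2

/-- The contents of the slot `n` of the oracle `A`: the letter at the address `r` is coded by the
bits of `A` at the addresses `l.reverse ++ r ++ 0 ^ n` with `l.length = j`. -/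
def slotView {Δ : Type} (j : ℕ) (dec : Tr Bool j → Option Δ) (A : List Bool → Bool) (n : ℕ) :
    View Δ := fun r =>
  if r.length + j ≤ n then dec (Tr.mk j (fun l => A (l.reverse ++ r ++ List.replicate n false)))
  else none

/-- for every set of words in the class `κ` there are codes for letters and tally languages
in the relativized class `κ` -/
theorem upper {κ : Kind} {Δ : Type} [Finite Δ] {B : Set (List Δ)} (hB : LogClass κ B) (j : ℕ)
    (dec : Tr Bool j → Option Δ) :
    ∃ L : (List Bool → Bool) → Set (List Unit),
      (∀ A, OracleClass κ A (L A)) ∧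
      (∀ A A' : List Bool → Bool, ∀ x, (∀ q, q.length ≤ 2 * x.length → A q = A' q) →
        (x ∈ L A ↔ x ∈ L A')) ∧
      ∀ (A : List Bool → Bool) (w : List Δ) (n : ℕ), slotView j dec A n = wordView w →
        (List.replicate n () ∈ L A ↔ w ∈ B) := by
  classical
  obtain ⟨Q, Γ, K, hQ, hΓ, hK, M, hdet, C, hM⟩ := hB
  obtain ⟨Q', Γ', K', hQ', hΓ', hK', M', hd, hM'⟩ := guard_exists M κ.time C
  refine ⟨fun A => {x | M'.Accepts (slotView j dec A x.length)}, ?_, ?_, ?_⟩
  · intro A
    set M1 : Mach (Tr Bool j) Q' Γ' K' := relabel M' (fun o => o.bind dec) with hM1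
    obtain ⟨Q2, Γ2, K2, hQ2, hΓ2, hK2, M2, hd2, hM2⟩ := tree_exists Bool j M1
    set M3 : Mach (Bool × Option Unit) Q2 Γ2 K2 := relabel M2 (fun o => o.map Prod.fst) with hM3
    set t : Option (Bool × Option Unit) → Bool := fun o => (o.bind Prod.snd).isSome with ht
    refine ⟨1, _, _, _, inferInstance, inferInstance, inferInstance, shiftL M3 t,
      fun h => shiftL_det M3 t (relabel_det _ _ (hd2 (relabel_det _ _ (hd (hdet h))))),
      2 * (C + 4) + 4 * j + 5, fun x => ?_⟩
    set n := x.length with hn
    -- the view of `M2`
    have hview : (fun r : List Bool => (oracleView A 1 x (r ++ List.replicate n false)).map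
        Prod.fst) = fun r => if r.length ≤ n then some (A (r ++ List.replicate n false))
        else none := by
      funext r
      unfold oracleView
      rw [List.length_append, List.length_replicate, ← hn]
      by_cases h : r.length ≤ n
      · rw [if_pos h, if_pos (by omega)]
        rfl
      · rw [if_neg h, if_neg (by omega)]
        rfl
    have hslot : (fun r : List Bool => ((treeView (fun q : List Bool => if q.length ≤ n then
        some (A (q ++ List.replicate n false)) else none) j) r).bind dec) =
        slotView j dec A n := by
      funext r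
      rw [treeView_eq (fun q => A (q ++ List.replicate n false)) n j r]
      unfold slotView
      split_ifs
      · rfl
      · rfl
    have hv : ∀ i, i < n → t (oracleView A 1 x (List.replicate i false)) = true := by
      intro i hi
      simp only [ht, oracleView, List.length_replicate]
      rw [if_pos (by omega)]
      simp [List.getElem?_eq_getElem (show i < x.length from hi)]
    have hvn : t (oracleView A 1 x (List.replicate n false)) = false := by
      simp only [ht, oracleView, List.length_replicate]
      rw [if_pos (by omega)]
      simp [hn]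
    obtain ⟨hb, ha⟩ := shiftL_main M3 t (oracleView A 1 x) n hv hvn
    -- the first address which is not answered
    have hex : ∃ k, slotView j dec A n (List.replicate k false) = none :=
      ⟨n + 1, by
        unfold slotView
        rw [if_neg]
        rw [List.length_replicate]
        omega⟩
    set k := Nat.find hex with hk
    have hkn : k ≤ n + 1 := Nat.find_min' hex (by
      unfold slotView
      rw [if_neg]
      rw [List.length_replicate]
      omega)
    have hb' := (hM' (slotView j dec A n) k (fun i hi => Nat.find_min hex hi)
      (Nat.find_spec hex)).1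
    constructor
    · have h1 : M1.Bounded κ.time (treeView (fun q : List Bool => if q.length ≤ n then
          some (A (q ++ List.replicate n false)) else none) j) ((C + 4) * (k + 1)) := by
        rw [hM1, relabel_bounded, hslot]
        exact hb'
      have h2 := (hM2 _).1 κ.time _ h1
      have h3 : M3.Bounded κ.time (fun r => oracleView A 1 x (r ++ List.replicate n false))
          ((C + 4) * (k + 1) + 4 * j) := by
        rw [hM3, relabel_bounded, hview]
        exact h2
      refine (hb κ.time _ h3).mono ?_
      have h4 : (C + 4) * (k + 1) ≤ (C + 4) * (2 * (n + 1)) :=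
        Nat.mul_le_mul_left _ (by omega)
      nlinarith
    · rw [ha, hM3, relabel_accepts, hview, (hM2 _).2, hM1, relabel_accepts, hslot]
      rfl
  · intro A A' x h
    have : slotView j dec A x.length = slotView j dec A' x.length := by
      funext r
      unfold slotView
      split_ifs with hr
      · congr 1
        refine Tr.mk_congr j _ _ fun l hl => h _ ?_
        simp only [List.length_append, List.length_reverse, List.length_replicate]
        omega
      · rfl
    show M'.Accepts _ ↔ M'.Accepts _
    rw [this]
  · intro A w n h
    show M'.Accepts (slotView j dec A (List.replicate n ()).length) ↔ _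
    rw [List.length_replicate, h]
    have h1 := (hM' (wordView w) (Nat.size w.length)
      (fun i hi => (wordView_zeros w i).2 hi)
      (by
        have := (wordView_zeros w (Nat.size w.length)).not.2 (lt_irrefl _)
        simpa using this)).2 (hM w).1
    rw [h1, (hM w).2]

end H85L
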