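import Pool.Agent.H85L.Split
import Pool.Agent.H85L.Tree

/-!
# From a machine with oracle to a machine with random access to a word
-/

set_option autoImplicit false

namespace H85L

open Mach

variable {Δ : Type}

/-- the oracle with the word `w` in the slot `n` and given values `σ` at short addresses -/
def orc (j : ℕ) (enc : Option Δ → Tr Bool j) (σ : List Bool → Bool) (K0 n : ℕ) (w : List Δ) :
    List Bool → Bool := fun q =>
  if q.length < K0 then σ q else if q.length < n + j then false
  else Tr.get j (enc (wordView w ((q.drop j).take (q.length - (n + j))))) ((q.take j).reverse)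

theorem slotView_orc (j : ℕ) (enc : Option Δ → Tr Bool j) (dec : Tr Bool j → Option Δ)
    (hdec : ∀ x, dec (enc x) = x) (σ : List Bool → Bool) (K0 n : ℕ) (w : List Δ) (hK : K0 ≤ n)
    (hn : Nat.size w.length + j ≤ n + 1) :
    slotView j dec (orc j enc σ K0 n w) n = wordView w := by
  funext r
  unfold slotView
  split_ifs with h
  · have h1 : Tr.mk j (fun l => orc j enc σ K0 n w (l.reverse ++ r ++ List.replicate n false)) =
        Tr.mk j (Tr.get j (enc (wordView w r))) := by
      refine Tr.mk_congr j _ _ fun l hl => ?_
      unfold orc
      have h2 : (l.reverse ++ r ++ List.replicate n false).length = j + r.length + n := by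
        simp [hl]
        omega
      rw [h2, if_neg (by omega), if_neg (by omega), List.append_assoc,
        List.drop_left' (by simp [hl]), List.take_left' (by simp [hl] : l.reverse.length = j),
        List.take_left' (by omega), List.reverse_reverse]
    rw [h1, Tr.mk_get, hdec]
  · unfold wordView
    symm
    rw [List.getElem?_eq_none_iff]
    have h1 := le_idx r
    have h2 : w.length < 2 ^ Nat.size w.length := Nat.lt_size_self _
    have h3 : 2 ^ Nat.size w.length ≤ 2 ^ r.length :=
      Nat.pow_le_pow_right (by norm_num) (by omega)
    omega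

/-- what is seen by a machine with oracle -/
def seen (j : ℕ) (enc : Option Δ → Tr Bool j) (σ : List Bool → Bool) (K0 : ℕ) (tp : List Bool)
    (f : Fin 3 → Bool) (o : Option Δ) : Option (Bool × Option Unit) :=
  if f 1 then some (if tp.length < K0 then σ tp else if f 0 then false
    else Tr.get j (enc o) ((tp.take j).reverse), if f 2 then some () else none) else none

/-- the initial values of the counters -/
def cE (e j c : ℕ) : Fin 3 → ℕ := ![e + j, (c + 1) * e + 1, e]

/-- the slopes of the initial values of the counters -/
def cL (e c : ℕ) : Fin 3 → ℕ := ![e, (c + 1) * e, e]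

theorem seen_eq (j : ℕ) (enc : Option Δ → Tr Bool j) (σ : List Bool → Bool) (K0 e s c : ℕ)
    (w : List Δ) (L : List Bool) :
    oracleView (orc j enc σ K0 (e * (s + 1)) w) c (List.replicate (e * (s + 1)) ()) L =
      seen j enc σ K0 (L.take (K0 + j)) (fun i => decide (L.length < cE e j c i + s * cL e c i))
        (wordView w ((L.drop j).take (L.length - (cE e j c 0 + s * cL e c 0)))) := by
  have h0 : cE e j c 0 + s * cL e c 0 = e * (s + 1) + j := by
    show e + j + s * e = _
    ring
  have h1 : cE e j c 1 + s * cL e c 1 = (c + 1) * (e * (s + 1)) + 1 := by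
    show (c + 1) * e + 1 + s * ((c + 1) * e) = _
    ring
  have h2 : cE e j c 2 + s * cL e c 2 = e * (s + 1) := by
    show e + s * e = _
    ring
  set n := e * (s + 1) with hn
  unfold oracleView seen
  simp only [h0, h1, h2, List.length_replicate, decide_eq_true_eq]
  by_cases h : L.length ≤ (c + 1) * n
  · rw [if_pos h, if_pos (by omega)]
    congr 2
    · unfold orc
      by_cases h3 : L.length < K0
      · have h4 : L.take (K0 + j) = L := List.take_of_length_le (by omega)
        rw [h4]
      · have h6 : ¬ (L.take (K0 + j)).length < K0 := by
          rw [List.length_take]; omega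
        simp only [h3, h6, if_false]
        by_cases h5 : L.length < n + j
        · simp only [h5, if_true]
        · simp only [h5, if_false]
          rw [List.take_take, Nat.min_eq_left (by omega : j ≤ K0 + j)]
    · rw [List.getElem?_replicate]
  · rw [if_neg h, if_neg (by omega)]

/-- a machine which decides the tally language for all oracles with given values at short
addresses gives a machine for the set of words -/
theorem lower {κ : Kind} {B : Set (List Δ)} (j : ℕ) (enc : Option Δ → Tr Bool j)
    (dec : Tr Bool j → Option Δ) (hdec : ∀ x, dec (enc x) = x)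
    (L : (List Bool → Bool) → Set (List Unit))
    (hL : ∀ (A : List Bool → Bool) (w : List Δ) (n : ℕ), slotView j dec A n = wordView w →
      (List.replicate n () ∈ L A ↔ w ∈ B))
    (σ : List Bool → Bool) (K0 c C : ℕ) {Q Γ K : Type} [Finite Q] [Finite Γ] [Finite K]
    (D : Mach (Bool × Option Unit) Q Γ K) (hdet : κ.det = true → D.Det)
    (hD : ∀ A : List Bool → Bool, (∀ q, q.length < K0 → A q = σ q) → ∀ x : List Unit,
      D.Bounded κ.time (oracleView A c x) (C * (x.length + 1)) ∧
        (x ∈ L A ↔ D.Accepts (oracleView A c x))) :
    LogClass κ B := by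
  classical
  set e := K0 + j + 1 with he
  refine ⟨_, _, _, inferInstance, inferInstance, inferInstance,
    spL D (K0 + j) j (seen j enc σ K0) (cE e j c) (cL e c),
    fun h => spL_det _ _ _ _ _ _ (hdet h),
    C * (e + 1) + (∑ i, (cE e j c i + cL e c i) + 3) + 1, fun w => ?_⟩
  set s := Nat.size w.length with hs
  set n := e * (s + 1) with hn
  have hne : n = K0 * s + j * s + s + (K0 + j + 1) := by rw [hn, he]; ring
  have h1 : slotView j dec (orc j enc σ K0 n w) n = wordView w :=
    slotView_orc j enc dec hdec σ K0 n w (by omega) (by
      rw [← hs]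
      omega)
  have hag : ∀ q : List Bool, q.length < K0 → orc j enc σ K0 n w q = σ q := by
    intro q hq
    unfold orc
    rw [if_pos hq]
  have h2 := hD (orc j enc σ K0 n w) hag (List.replicate n ())
  have h3 := hL (orc j enc σ K0 n w) w n h1
  have hmain := spL_main D (K0 + j) j (seen j enc σ K0) (cE e j c) (cL e c) s
    (by show j ≤ e + j + s * e; omega) (by omega)
    (oracleView (orc j enc σ K0 n w) c (List.replicate n ())) (wordView w)
    (fun L => seen_eq j enc σ K0 e s c w L)
    (fun i hi => (wordView_zeros w i).2 hi)
    (by
      have := (wordView_zeros w s).not.2 (lt_irrefl _)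
      simpa using this)
  constructor
  · refine (hmain.1 κ.time _ h2.1).mono ?_
    rw [List.length_replicate]
    have h5 : (e + 1) * (s + 1) = n + (s + 1) := by rw [hn]; ring
    have h4 : C * (n + 1) ≤ C * ((e + 1) * (s + 1)) := Nat.mul_le_mul_left _ (by
      rw [h5]
      omega)
    show C * (n + 1) + ((∑ i, (cE e j c i + cL e c i) + 3) * (s + 1) + 1) ≤
      (C * (e + 1) + (∑ i, (cE e j c i + cL e c i) + 3) + 1) * (s + 1)
    nlinarith
  · rw [hmain.2, ← h2.2, h3]

end H85L
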