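import Pool.Agent.H85L.Generic
import Pool.Agent.H85L.Collapse

/-!
# The theorems
-/

set_option autoImplicit false

namespace H85L

instance : Countable Kind := by
  have : Function.Injective (fun κ : Kind => (κ.det, κ.time)) := by
    intro κ κ' h
    cases κ
    cases κ'
    simp_all
  exact this.countable

theorem relativizations :
    (∃ A : List Bool → Bool, ∀ κ₁ κ₂ : Kind, OracleIncl A κ₂ κ₁) ∧
    (∀ κ₁ κ₂ : Kind, LogIncl κ₂ κ₁ → ∀ A : List Bool → Bool, OracleIncl A κ₂ κ₁) ∧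
    ∀ᶠ A in residual (List Bool → Bool), ∀ κ₁ κ₂ : Kind, ¬ LogIncl κ₂ κ₁ →
      ∃ L : Set (List Unit), OracleClass κ₂ A L ∧ ¬ OracleClass κ₁ A L := by
  refine ⟨⟨uor, fun κ₁ κ₂ Δ hΔ L h => collapse κ₁ κ₂ L h⟩, ?_, ?_⟩
  · intro κ₁ κ₂ h A Δ hΔ L hL
    exact upward_log κ₁ κ₂ h A L hL
  · rw [eventually_countable_forall]
    intro κ₁
    rw [eventually_countable_forall]
    intro κ₂
    by_cases h : LogIncl κ₂ κ₁
    · exact Filter.Eventually.of_forall fun A h' => absurd h h'
    · have h' := h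
      unfold LogIncl at h'
      push Not at h'
      obtain ⟨Δ, hΔ, B, h2, h1⟩ := h'
      filter_upwards [generic h2 h1] with A hA _
      exact hA

theorem tally :
    (∀ κ₁ κ₂ : Kind, LinIncl κ₂ κ₁ → ∀ T : ℕ → Bool, OracleIncl (fun q => T q.length) κ₂ κ₁) ∧
    ∀ᶠ T in residual (ℕ → Bool), ∀ κ₁ κ₂ : Kind,
      OracleIncl (fun q => T q.length) κ₂ κ₁ → LinIncl κ₂ κ₁ := by
  constructor
  · intro κ₁ κ₂ h T Δ hΔ L hL
    exact upward_lin κ₁ κ₂ h T L hL
  · rw [eventually_countable_forall]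
    intro κ₁
    rw [eventually_countable_forall]
    intro κ₂
    by_cases h : LinIncl κ₂ κ₁
    · exact Filter.Eventually.of_forall fun T _ => h
    · have h' := h
      unfold LinIncl at h'
      push Not at h'
      obtain ⟨Δ, hΔ, L, h2, h1⟩ := h'
      filter_upwards [generic_tally h1] with T hT h3
      exact absurd (h3 Δ hΔ L (oracle_of_lin _ h2)) hT

theorem empty_oracle (κ : Kind) {Δ : Type} (L : Set (List Δ)) :
    OracleClass κ (fun _ => false) L ↔ LinClass κ L :=
  ⟨lin_of_finite _ 0 fun _ _ => rfl, oracle_of_lin _⟩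

end H85L
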