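import Pool.Agent.H85L.Sim
import Pool.Agent.H85L.Guard

/-!
# Running a machine on shifted addresses
-/

set_option autoImplicit false

namespace H85L

open Mach

variable {Δ Q Γ K : Type} (M : Mach Δ Q Γ K)

/-- the machine `M` on stacks which may have letters `none` at the bottom -/
def shiftM : Mach Δ Q (Option Γ) K where
  adr := M.adr
  bit := fun x => x.elim false M.bit
  start := M.start
  out := M.out
  next := fun q h o b =>
    ((M.next q (fun i => (h i).join) o b).1, fun i =>
      match (M.next q (fun i => (h i).join) o b).2 i with
      | .stay => .stay
      | .push g => .push (some g)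
      | .pop => if (h i).join.isSome then .pop else .stay)

theorem shiftM_det (h : M.Det) : (shiftM M).Det := by
  intro q hh o b b'
  show ((M.next q _ o b).1, _) = ((M.next q _ o b').1, _)
  rw [h q _ o b b']

variable [DecidableEq K]

/-- the stacks of `M` above the letters `none` -/
def shiftF (n : ℕ) (c : Cfg Q Γ K) : Cfg Q (Option Γ) K :=
  ⟨c.q, fun i => (c.s i).map some ++ (if i = M.adr then List.replicate n none else [])⟩

theorem head_shift (l : List Γ) (n : ℕ) (p : Prop) [Decidable p] :
    ((l.map (some : Γ → Option Γ) ++ (if p then List.replicate n none else [])).head?).join =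
      l.head? := by
  cases l with
  | nil =>
    simp only [List.map_nil, List.nil_append, List.head?_nil]
    split_ifs
    · cases n <;> simp [List.replicate_succ]
    · rfl
  | cons g l => rfl

theorem shift_sim (v' : View Δ) (n : ℕ) :
    Sim M (shiftM M) (fun r => v' (r ++ List.replicate n false)) v' 0 (shiftF M n) where
  out := fun _ => rfl
  mid := fun c _ g s h1 h2 => by omega
  step := by
    intro c hc g
    show (shiftM M).step v' (g 0) (shiftF M n c) = _
    have hc' : (shiftM M).out (shiftF M n c).q = none := hc
    rw [step_live _ _ _ _ hc, step_live _ _ _ _ hc']
    have h1 : ((shiftF M n c).s (shiftM M).adr).map (shiftM M).bit =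
        (c.s M.adr).map M.bit ++ List.replicate n false := by
      show ((c.s M.adr).map some ++ (if M.adr = M.adr then List.replicate n none else [])).map
        (fun x : Option Γ => x.elim false M.bit) = _
      rw [if_pos rfl, List.map_append, List.map_map, List.map_replicate]
      rfl
    have h2 : (fun i => (((shiftF M n c).s i).head?).join) = fun i => (c.s i).head? := by
      funext i
      exact head_shift _ _ _
    have h3 : (shiftM M).next (shiftF M n c).q (fun i => ((shiftF M n c).s i).head?)
        (v' (((shiftF M n c).s (shiftM M).adr).map (shiftM M).bit)) (g 0) =
        ((M.next c.q (fun i => (c.s i).head?)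
          (v' ((c.s M.adr).map M.bit ++ List.replicate n false)) (g 0)).1, fun i =>
          match (M.next c.q (fun i => (c.s i).head?)
            (v' ((c.s M.adr).map M.bit ++ List.replicate n false)) (g 0)).2 i with
          | .stay => .stay
          | .push g => .push (some g)
          | .pop => if ((c.s i).head?).isSome then .pop else .stay) := by
      rw [h1]
      show ((M.next c.q (fun i => (((shiftF M n c).s i).head?).join) _ (g 0)).1, _) = _
      rw [h2]
      congr 1
      funext i
      have h4 : (((shiftF M n c).s i).head?).join = (c.s i).head? := congrFun h2 i
      rw [h4]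
      rfl
    rw [h3]
    set r := M.next c.q (fun i => (c.s i).head?)
      (v' ((c.s M.adr).map M.bit ++ List.replicate n false)) (g 0)
    ext1
    · rfl
    · funext i
      show Op.app (match r.2 i with
          | .stay => .stay
          | .push g => .push (some g)
          | .pop => if ((c.s i).head?).isSome then .pop else .stay)
        ((c.s i).map some ++ _) = ((r.2 i).app (c.s i)).map some ++ _
      cases hr : r.2 i with
      | stay => rfl
      | push x => rfl
      | pop =>
        cases hl : c.s i with
        | nil => simp [Op.app]
        | cons a l => simp [Op.app]

/-- the body of the machine for the tally language and its loader -/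
def shiftL (t : Option Δ → Bool) : Mach Δ (LQ Q 0) (Option Γ) K :=
  loader (shiftM M) 0 (fun _ => 0) (fun _ => 0) (fun _ => none) none t true

theorem shiftL_det (t : Option Δ → Bool) (h : M.Det) : (shiftL M t).Det :=
  loader_det _ _ _ _ _ _ _ _ (shiftM_det M h)

theorem shiftL_main (t : Option Δ → Bool) (v' : View Δ) (n : ℕ)
    (hv : ∀ j, j < n → t (v' (List.replicate j false)) = true)
    (hn : t (v' (List.replicate n false)) = false) :
    (∀ time B, M.Bounded time (fun r => v' (r ++ List.replicate n false)) B →
      (shiftL M t).Bounded time v' (B + 2 * n + 3)) ∧
    ((shiftL M t).Accepts v' ↔ M.Accepts (fun r => v' (r ++ List.replicate n false))) := by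
  have hsim := shift_sim M v' n
  have h1 : loaded (shiftM M) (fun _ => 0) (fun _ => 0) (fun _ => none) none true n =
      shiftF M n M.init := by
    ext1
    · rfl
    · funext i
      show (if i = M.adr then (if true = true then List.replicate n none else [])
        else List.replicate (0 + n * 0) none) = [] ++ if i = M.adr then List.replicate n none else []
      by_cases h : i = M.adr
      · simp [h]
      · simp [h]
  have hT : loadTime 0 true n = 2 * n + 2 := by simp [loadTime]; ring
  constructor
  · intro time B hB
    unfold Bounded at *
    cases time with
    | true =>
      simp only [if_true] at hB ⊢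
      intro g
      have h2 := loader_time (shiftM M) 0 (fun _ => 0) (fun _ => 0) (fun _ => none) none t true v'
        (fun _ => le_rfl) (fun _ => le_rfl) rfl rfl rfl n hv hn (2 ^ B) (by
          intro g
          rw [h1]
          have h3 := hsim.time M.init (2 ^ B) hB g
          simpa using h3) g
      refine halted_mono (shiftL M t) v' g _ ?_ h2
      rw [hT]
      have h4 : 2 * n + 2 ≤ 2 ^ (2 * n + 2) := Nat.lt_two_pow_self.le
      calc 2 * n + 2 + 2 ^ B ≤ 2 ^ (B + 2 * n + 2) + 2 ^ (B + 2 * n + 2) := by
            refine Nat.add_le_add (h4.trans ?_) ?_
            · exact Nat.pow_le_pow_right (by norm_num) (by omega)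
            · exact Nat.pow_le_pow_right (by norm_num) (by omega)
        _ = 2 ^ (B + 2 * n + 3) := by rw [pow_succ 2 (B + 2 * n + 2)]; ring
    | false =>
      simp only [Bool.false_eq_true, if_false] at hB ⊢
      intro g T i
      refine (loader_space (shiftM M) 0 (fun _ => 0) (fun _ => 0) (fun _ => none) none t true v'
        (fun _ => le_rfl) (fun _ => le_rfl) rfl rfl rfl n hv hn (B + n) (by
          intro g T i
          rw [h1]
          have h3 := hsim.space M.init (B + n) (by
            intro g T i
            show ((((M.runFrom _ g M.init T).s i).map some ++
              (if i = M.adr then List.replicate n none else []) : List (Option Γ))).length ≤ _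
            rw [List.length_append, List.length_map]
            refine Nat.add_le_add (hB g T i) ?_
            split_ifs
            · simp
            · simp) g T i
          simpa using h3) g T i).trans ?_
      rw [hT]
      omega
  · rw [show (shiftL M t).Accepts v' ↔ _ from loader_accepts (shiftM M) 0 (fun _ => 0)
      (fun _ => 0) (fun _ => none) none t true v' (fun _ => le_rfl) (fun _ => le_rfl) rfl rfl rfl
      n hv hn, h1]
    exact hsim.accepts M.init

end H85L
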