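import Pool.Agent.H85L.Shift

/-!
# A machine which splits its address

The machine `sp D W T obs` keeps, besides the stacks of `D`, a stack for the part of the address of
`D` between the top `T` letters and the bottom `N 0` letters (this is its own address), and
counters, which allow it to compare the length of the address of `D` with the numbers `N i`.
-/

set_option autoImplicit false

namespace H85L

open Mach

/-- short binary words -/
abbrev SW (W : ℕ) := {l : List Bool // l.length ≤ W}

instance (W : ℕ) : Finite (SW W) := by
  have h : {l : List Bool | l.length ≤ W}.Finite := List.finite_length_le Bool W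
  exact h.to_subtype

/-- cells of the shadow stack: a letter of `D`, flags, and top bits -/
abbrev Cell (Γ : Type) (W : ℕ) := Γ × (Fin 3 → Bool) × SW W

/-- the letters of the machine: letters of `D`, cells of the shadow stack, and bits -/
abbrev SL (Γ : Type) (W : ℕ) := Γ ⊕ Cell Γ W ⊕ Bool

/-- the first `W` bits -/
def tk (W : ℕ) (l : List Bool) : SW W := ⟨l.take W, by simp⟩

theorem tk_cons_take (W : ℕ) (b : Bool) (l : List Bool) : tk W (b :: l.take W) = tk W (b :: l) := by
  apply Subtype.ext
  show List.take W (b :: l.take W) = List.take W (b :: l)
  cases W with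
  | zero => simp
  | succ W => simp [List.take_take]

/-- a letter of `D` -/
def decO {Γ : Type} {W : ℕ} : Option (SL Γ W) → Option Γ
  | some (Sum.inl g) => some g
  | _ => none

/-- a cell of the shadow stack -/
def decH {Γ : Type} {W : ℕ} : Option (SL Γ W) → Option (Cell Γ W)
  | some (Sum.inr (Sum.inl y)) => some y
  | _ => none

/-- the bits on top of the stack -/
def topBits {Γ : Type} {W : ℕ} (y : Option (Cell Γ W)) : List Bool := y.elim [] (fun y => y.2.2.1)

/-- the flag on top of the stack -/
def topFl {Γ : Type} {W : ℕ} (i : Fin 3) (y : Option (Cell Γ W)) : Bool :=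
  y.elim false (fun y => y.2.1 i)

/-- the operation on a counter -/
def opC {Γ Γ' : Type} (t : Γ') (avail flag : Bool) : Op Γ → Op Γ'
  | .stay => .stay
  | .push _ => if avail then .pop else .stay
  | .pop => if flag then .push t else .stay

/-- is there a cell below height `N` on top? -/
def topFlag {Γ : Type} (N : ℕ) : List Γ → Bool
  | [] => false
  | _ :: l => decide (l.length < N)

theorem opC_app {Γ Γ' : Type} (t : Γ') (N : ℕ) (l : List Γ) (o : Op Γ) :
    (opC t (decide (l.length < N)) (topFlag N l) o).app (List.replicate (N - l.length) t) =
      List.replicate (N - (o.app l).length) t := by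
  cases o with
  | stay => rfl
  | push g =>
    simp only [opC, Op.app, List.length_cons]
    by_cases h : l.length < N
    · simp only [h, decide_true, if_true, List.tail_replicate]
      congr 1
    · simp only [h, decide_false, Bool.false_eq_true, if_false]
      rw [show N - l.length = 0 by omega, show N - (l.length + 1) = 0 by omega]
  | pop =>
    cases l with
    | nil => simp [opC, topFlag, Op.app]
    | cons g l =>
      simp only [opC, topFlag, Op.app, List.tail_cons, List.length_cons]
      by_cases h : l.length < N
      · simp only [h, decide_true, if_true]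
        rw [← List.replicate_succ]
        congr 1
        omega
      · simp only [h, decide_false, Bool.false_eq_true, if_false]
        rw [show N - l.length = 0 by omega, show N - (l.length + 1) = 0 by omega]

variable {Δ Δ' Q Γ K : Type}

section

variable (bit : Γ → Bool) (W T : ℕ) (N : Fin 3 → ℕ)

/-- the shadow stack -/
def hc : List Γ → List (SL Γ W)
  | [] => []
  | g :: l => Sum.inr (Sum.inl (g, fun i => decide (l.length < N i),
      tk W ((g :: l).map bit))) :: hc l

/-- the part of the address -/
def pt (l : List Γ) : List (SL Γ W) :=
  (((l.map bit).drop T).take (l.length - N 0)).map (fun b => Sum.inr (Sum.inr b))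

/-- the operation on the shadow stack -/
def opH (y : Option (Cell Γ W)) (e : Fin 3 → Bool) : Op Γ → Op (SL Γ W)
  | .stay => .stay
  | .pop => .pop
  | .push g => .push (Sum.inr (Sum.inl (g, e, tk W (bit g :: topBits y))))

/-- the operation on the part of the address -/
def opP (y : Option (Cell Γ W)) (e : Bool) : Op Γ → Op (SL Γ W)
  | .stay => .stay
  | .pop => if y.elim true (fun y => y.2.1 0) then .stay else .pop
  | .push g => if e then .stay else .push (Sum.inr (Sum.inr ((bit g :: topBits y).getD T false)))

theorem hc_length (l : List Γ) : (hc bit W N l).length = l.length := by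
  induction l with
  | nil => rfl
  | cons g l ih => simp [hc, ih]

theorem decH_head (l : List Γ) : decH (hc bit W N l).head? =
    match l with
    | [] => none
    | g :: l => some (g, fun i => decide (l.length < N i), tk W ((g :: l).map bit)) := by
  cases l <;> rfl

theorem topBits_head (l : List Γ) : topBits (decH (hc bit W N l).head?) = (l.map bit).take W := by
  rw [decH_head]
  cases l with
  | nil => simp [topBits]
  | cons g l => rfl

theorem topFl_head (l : List Γ) (i : Fin 3) :
    topFl i (decH (hc bit W N l).head?) = topFlag (N i) l := by
  rw [decH_head]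
  cases l <;> rfl

theorem fst_head (l : List Γ) : (decH (hc bit W N l).head?).map Prod.fst = l.head? := by
  rw [decH_head]
  cases l <;> rfl

theorem opH_app (l : List Γ) (o : Op Γ) :
    (opH bit W (decH (hc bit W N l).head?) (fun i => decide (l.length < N i)) o).app
      (hc bit W N l) = hc bit W N (o.app l) := by
  cases o with
  | stay => rfl
  | pop => cases l <;> rfl
  | push g =>
    show Sum.inr (Sum.inl (g, _, tk W (bit g :: topBits _))) :: _ = _ :: _
    rw [topBits_head, tk_cons_take]
    rfl

theorem pt_short {l : List Γ} (h : l.length ≤ N 0) : pt bit W T N l = [] := by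
  unfold pt
  rw [Nat.sub_eq_zero_of_le h]
  simp

theorem pt_cons {l : List Γ} (g : Γ) (hT : T ≤ N 0) (h : N 0 ≤ l.length) :
    pt bit W T N (g :: l) =
      Sum.inr (Sum.inr ((bit g :: l.map bit).getD T false)) :: pt bit W T N l := by
  unfold pt
  have h1 : T < ((g :: l).map bit).length := by simp; omega
  rw [List.drop_eq_getElem_cons h1, show (g :: l).length - N 0 = (l.length - N 0) + 1 by
    simp; omega, List.take_succ_cons, List.map_cons]
  congr 1
  · congr 2
    have h2 : T < (bit g :: l.map bit).length := by simp; omega
    rw [List.getD_eq_getElem _ _ h2]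
    rfl

theorem opP_app (hT : T ≤ N 0) (hW : T ≤ W) (l : List Γ) (o : Op Γ) :
    (opP bit W T (decH (hc bit W N l).head?) (decide (l.length < N 0)) o).app
      (pt bit W T N l) = pt bit W T N (o.app l) := by
  cases o with
  | stay => rfl
  | pop =>
    rw [decH_head]
    cases l with
    | nil => rfl
    | cons g l =>
      simp only [opP, Option.elim, Op.app, List.tail_cons]
      by_cases h : l.length < N 0
      · simp only [h, decide_true, if_true]
        rw [pt_short bit W T N (by simp; omega), pt_short bit W T N h.le]
      · simp only [h, decide_false, Bool.false_eq_true, if_false]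
        rw [pt_cons bit W T N g hT (by omega), List.tail_cons]
  | push g =>
    simp only [opP, Op.app]
    by_cases h : l.length < N 0
    · simp only [h, decide_true, if_true]
      rw [pt_short bit W T N h.le, pt_short bit W T N (by simp; omega)]
    · simp only [h, decide_false, Bool.false_eq_true, if_false]
      rw [pt_cons bit W T N g hT (by omega), topBits_head]
      congr 3
      -- the letter with number `T`
      cases T with
      | zero => rfl
      | succ T =>
        rw [List.getD_cons_succ, List.getD_cons_succ]
        have h1 : T < ((l.map bit).take W).length := by simp; omega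
        have h2 : T < (l.map bit).length := by simp; omega
        rw [List.getD_eq_getElem _ _ h1, List.getD_eq_getElem _ _ h2, List.getElem_take]

end

variable [DecidableEq K] (D : Mach Δ' Q Γ K) (W T : ℕ)
  (obs : List Bool → (Fin 3 → Bool) → Option Δ → Option Δ')

/-- are there tokens? -/
def av (h : K ⊕ Option (Fin 3) → Option (SL Γ W)) (i : Fin 3) : Bool :=
  (h (Sum.inr (some i))).isSome

/-- the move of `D` -/
def spRes (q : Q) (h : K ⊕ Option (Fin 3) → Option (SL Γ W)) (o : Option Δ) (b : Bool) :
    Q × (K → Op Γ) :=
  D.next q (fun i => if i = D.adr then (decH (h (Sum.inl D.adr))).map Prod.fst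
    else decO (h (Sum.inl i)))
    (obs (topBits (decH (h (Sum.inl D.adr)))) (av W h) o) b

/-- the machine -/
def sp : Mach Δ Q (SL Γ W) (K ⊕ Option (Fin 3)) where
  adr := Sum.inr none
  bit := Sum.elim D.bit (Sum.elim (fun _ => false) id)
  start := D.start
  out := D.out
  next := fun q h o b =>
    ((spRes D W obs q h o b).1, Sum.elim
      (fun i => if i = D.adr then opH D.bit W (decH (h (Sum.inl D.adr))) (av W h)
          ((spRes D W obs q h o b).2 i)
        else ((spRes D W obs q h o b).2 i).map Sum.inl)
      (fun j => j.elim (opP D.bit W T (decH (h (Sum.inl D.adr))) (av W h 0)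
          ((spRes D W obs q h o b).2 D.adr))
        (fun j => opC (Sum.inr (Sum.inr false)) (av W h j)
          (topFl j (decH (h (Sum.inl D.adr)))) ((spRes D W obs q h o b).2 D.adr))))

theorem sp_det (h : D.Det) : (sp D W T obs).Det := by
  intro q hh o b b'
  have h1 : spRes D W obs q hh o b = spRes D W obs q hh o b' := h q _ _ b b'
  show ((spRes D W obs q hh o b).1, _) = ((spRes D W obs q hh o b').1, _)
  rw [h1]

/-- the configuration -/
def spF (N : Fin 3 → ℕ) (c : Cfg Q Γ K) : Cfg Q (SL Γ W) (K ⊕ Option (Fin 3)) :=
  ⟨c.q, Sum.elim (fun i => if i = D.adr then hc D.bit W N (c.s i) else (c.s i).map Sum.inl)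
    (fun j => j.elim (pt D.bit W T N (c.s D.adr))
      (fun j => List.replicate (N j - (c.s D.adr).length) (Sum.inr (Sum.inr false))))⟩

theorem decO_head (l : List Γ) :
    decO ((l.map (Sum.inl : Γ → SL Γ W)).head?) = l.head? := by
  cases l <;> rfl

theorem rep_isSome {α : Type} (N m : ℕ) (t : α) :
    ((List.replicate (N - m) t).head?).isSome = decide (m < N) := by
  rw [List.head?_replicate]
  by_cases h : m < N
  · rw [if_neg (by omega)]; simp [h]
  · rw [if_pos (by omega)]; simp [h]

theorem sp_sim {N : Fin 3 → ℕ} (hT : T ≤ N 0) (hW : T ≤ W) (V : View Δ') (v : View Δ)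
    (hV : ∀ L : List Bool, V L = obs (L.take W) (fun i => decide (L.length < N i))
      (v ((L.drop T).take (L.length - N 0)))) :
    Sim D (sp D W T obs) V v 0 (spF D W T N) where
  out := fun _ => rfl
  mid := fun c _ g s h1 h2 => by omega
  step := by
    intro c hc' g
    show (sp D W T obs).step v (g 0) (spF D W T N c) = _
    have hc2 : (sp D W T obs).out (spF D W T N c).q = none := hc'
    rw [step_live _ _ _ _ hc', step_live _ _ _ _ hc2]
    set l := c.s D.adr with hl
    -- what is seen
    set F := spF D W T N c with hF
    have hHs : F.s (Sum.inl D.adr) = hc D.bit W N l := by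
      show (if D.adr = D.adr then hc D.bit W N (c.s D.adr) else _) = _
      rw [if_pos rfl]
    have hPs : F.s (Sum.inr none) = pt D.bit W T N l := rfl
    have hCs : ∀ j, F.s (Sum.inr (some j)) =
      List.replicate (N j - l.length) (Sum.inr (Sum.inr false)) := fun j => rfl
    have hav : av W (fun i => (F.s i).head?) = fun i => decide (l.length < N i) := by
      funext i
      show ((F.s (Sum.inr (some i))).head?).isSome = _
      rw [hCs]; exact rep_isSome _ _ _
    have hadr : ((F.s (sp D W T obs).adr).map (sp D W T obs).bit) =
        ((l.map D.bit).drop T).take (l.length - N 0) := by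
      show ((pt D.bit W T N l).map (Sum.elim D.bit (Sum.elim (fun _ => false) id))) = _
      unfold pt
      rw [List.map_map]
      exact List.map_id _
    set o := v ((F.s (sp D W T obs).adr).map (sp D W T obs).bit) with ho
    have hobs : obs (topBits (decH ((F.s (Sum.inl D.adr)).head?)))
        (av W (fun i => (F.s i).head?)) o = V (l.map D.bit) := by
      rw [hV, hHs, hav, ho, hadr, topBits_head, List.length_map]
    have hheads : (fun i => if i = D.adr then (decH ((F.s (Sum.inl D.adr)).head?)).map Prod.fst
        else decO ((F.s (Sum.inl i)).head?)) = fun i => (c.s i).head? := by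
      funext i
      by_cases h : i = D.adr
      · rw [if_pos h, hHs, fst_head, h]
      · rw [if_neg h]
        have : F.s (Sum.inl i) = (c.s i).map Sum.inl := by
          show (if i = D.adr then _ else _) = _
          rw [if_neg h]
        rw [this]
        exact decO_head W _
    have hres : spRes D W obs F.q (fun i => (F.s i).head?) o (g 0) =
        D.next c.q (fun i => (c.s i).head?) (V (l.map D.bit)) (g 0) := by
      unfold spRes
      rw [hobs, hheads]
      rfl
    set r := D.next c.q (fun i => (c.s i).head?) (V (l.map D.bit)) (g 0) with hr
    show (⟨(spRes D W obs F.q (fun i => (F.s i).head?) o (g 0)).1, fun x => (Sum.elim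
      (fun i => if i = D.adr then opH D.bit W (decH ((F.s (Sum.inl D.adr)).head?))
          (av W (fun i => (F.s i).head?))
          ((spRes D W obs F.q (fun i => (F.s i).head?) o (g 0)).2 i)
        else ((spRes D W obs F.q (fun i => (F.s i).head?) o (g 0)).2 i).map Sum.inl)
      (fun j => j.elim (opP D.bit W T (decH ((F.s (Sum.inl D.adr)).head?))
          (av W (fun i => (F.s i).head?) 0)
          ((spRes D W obs F.q (fun i => (F.s i).head?) o (g 0)).2 D.adr))
        (fun j => opC (Sum.inr (Sum.inr false)) (av W (fun i => (F.s i).head?) j)
          (topFl j (decH ((F.s (Sum.inl D.adr)).head?)))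
          ((spRes D W obs F.q (fun i => (F.s i).head?) o (g 0)).2 D.adr))) x :
          Op (SL Γ W)).app (F.s x)⟩ : Cfg Q (SL Γ W) (K ⊕ Option (Fin 3))) =
      spF D W T N ⟨r.1, fun i => (r.2 i).app (c.s i)⟩
    rw [hres, hav, hHs]
    ext1
    · rfl
    · funext x
      rcases x with i | j
      · show Op.app (if i = D.adr then _ else _) (F.s (Sum.inl i)) =
          (if i = D.adr then hc D.bit W N ((r.2 i).app (c.s i))
            else ((r.2 i).app (c.s i)).map Sum.inl)
        by_cases h : i = D.adr
        · subst h
          rw [if_pos rfl, if_pos rfl, hHs]
          exact opH_app D.bit W N l (r.2 D.adr)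
        · rw [if_neg h, if_neg h]
          have : F.s (Sum.inl i) = (c.s i).map Sum.inl := by
            show (if i = D.adr then _ else _) = _
            rw [if_neg h]
          rw [this]
          exact Op.app_map _ _ _
      · cases j with
        | none => exact opP_app D.bit W T N hT hW l (r.2 D.adr)
        | some j =>
          show (opC (Sum.inr (Sum.inr false)) (decide (l.length < N j))
            (topFl j (decH (hc D.bit W N l).head?)) (r.2 D.adr)).app (F.s (Sum.inr (some j))) =
            List.replicate (N j - ((r.2 D.adr).app (c.s D.adr)).length) (Sum.inr (Sum.inr false))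
          rw [topFl_head, hCs]
          exact opC_app _ (N j) l (r.2 D.adr)

/-- the machine with its loader: `eC i + s * lC i` is the initial value of the counter `i`
if `s` probes are successful -/
def spL (eC lC : Fin 3 → ℕ) :
    Mach Δ (LQ Q (∑ i, (eC i + lC i))) (SL Γ W) (K ⊕ Option (Fin 3)) :=
  loader (sp D W T obs) (∑ i, (eC i + lC i))
    (Sum.elim (fun _ => 0) (fun j => j.elim 0 eC))
    (Sum.elim (fun _ => 0) (fun j => j.elim 0 lC))
    (fun _ => Sum.inr (Sum.inr false)) (Sum.inr (Sum.inr false)) (fun o => o.isSome) false

theorem spL_det (eC lC : Fin 3 → ℕ) (h : D.Det) : (spL D W T obs eC lC).Det :=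
  loader_det _ _ _ _ _ _ _ _ (sp_det D W T obs h)

theorem spL_main (eC lC : Fin 3 → ℕ) (s : ℕ) (hT : T ≤ eC 0 + s * lC 0) (hW : T ≤ W)
    (V : View Δ') (v : View Δ)
    (hV : ∀ L : List Bool, V L = obs (L.take W) (fun i => decide (L.length < eC i + s * lC i))
      (v ((L.drop T).take (L.length - (eC 0 + s * lC 0)))))
    (hv : ∀ j, j < s → v (List.replicate j false) ≠ none)
    (hs : v (List.replicate s false) = none) :
    (∀ time B, D.Bounded time V B → (spL D W T obs eC lC).Bounded time v
      (B + ((∑ i, (eC i + lC i) + 3) * (s + 1) + 1))) ∧
    ((spL D W T obs eC lC).Accepts v ↔ D.Accepts V) := by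
  set C := ∑ i, (eC i + lC i) with hC
  set N : Fin 3 → ℕ := fun i => eC i + s * lC i with hN
  set ex : K ⊕ Option (Fin 3) → ℕ := Sum.elim (fun _ => 0) (fun j => j.elim 0 eC) with hex
  set ld : K ⊕ Option (Fin 3) → ℕ := Sum.elim (fun _ => 0) (fun j => j.elim 0 lC) with hld
  have hsum : ∀ i, eC i + lC i ≤ C := fun i =>
    Finset.single_le_sum (f := fun i => eC i + lC i) (fun _ _ => Nat.zero_le _)
      (Finset.mem_univ i)
  have hexC : ∀ i, ex i ≤ C := by
    rintro (i | j)
    · simp [hex]
    · cases j with
      | none => simp [hex]
      | some j =>
        show eC j ≤ C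
        have := hsum j
        omega
  have hldC : ∀ i, ld i ≤ C := by
    rintro (i | j)
    · simp [hld]
    · cases j with
      | none => simp [hld]
      | some j =>
        show lC j ≤ C
        have := hsum j
        omega
  have hsim := sp_sim D W T obs (N := N) hT hW V v hV
  have h1 : loaded (sp D W T obs) ex ld (fun _ => Sum.inr (Sum.inr false))
      (Sum.inr (Sum.inr false)) false s = spF D W T N D.init := by
    ext1
    · rfl
    · funext x
      rcases x with i | j
      · show (if (Sum.inl i : K ⊕ Option (Fin 3)) = Sum.inr none then
            (if false = true then List.replicate s (Sum.inr (Sum.inr false)) else []) else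
          List.replicate (0 + s * 0) (Sum.inr (Sum.inr false))) =
          (if i = D.adr then hc D.bit W N [] else [])
        rw [if_neg (by simp)]
        simp only [Nat.mul_zero, Nat.add_zero, List.replicate_zero]
        split_ifs <;> rfl
      · cases j with
        | none =>
          show (if (Sum.inr none : K ⊕ Option (Fin 3)) = Sum.inr none then
            (if false = true then List.replicate s (Sum.inr (Sum.inr false)) else []) else
            List.replicate (0 + s * 0) (Sum.inr (Sum.inr false))) = pt D.bit W T N []
          simp [pt]
        | some j =>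
          show (if (Sum.inr (some j) : K ⊕ Option (Fin 3)) = Sum.inr none then
            (if false = true then List.replicate s (Sum.inr (Sum.inr false)) else []) else
            List.replicate (eC j + s * lC j) (Sum.inr (Sum.inr false))) =
            List.replicate (N j - 0) (Sum.inr (Sum.inr false))
          rw [if_neg (by simp)]
          rfl
  have hv' : ∀ j, j < s → (fun o : Option Δ => o.isSome) (v (List.replicate j false)) = true :=
    fun j hj => Option.isSome_iff_ne_none.2 (hv j hj)
  have hs' : (fun o : Option Δ => o.isSome) (v (List.replicate s false)) = false := by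
    rw [hs]; rfl
  have hLT : loadTime C false s ≤ (C + 3) * (s + 1) := by
    simp only [loadTime, Bool.false_eq_true, if_false]
    nlinarith
  have hNC : ∀ j, N j ≤ (C + 3) * (s + 1) := by
    intro j
    have h2 := hsum j
    have h3 : s * lC j ≤ s * C := Nat.mul_le_mul_left _ (by omega)
    show eC j + s * lC j ≤ _
    nlinarith
  constructor
  · intro time B hB
    unfold Bounded at *
    cases time with
    | true =>
      simp only [if_true] at hB ⊢
      intro g
      have h2 := loader_time (sp D W T obs) C ex ld (fun _ => Sum.inr (Sum.inr false))
        (Sum.inr (Sum.inr false)) (fun o => o.isSome) false v hexC hldC rfl rfl rfl s hv' hs'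
        (2 ^ B) (by
          intro g
          rw [h1]
          have h3 := hsim.time D.init (2 ^ B) hB g
          simpa using h3) g
      refine halted_mono (spL D W T obs eC lC) v g _ ?_ h2
      have h4 : loadTime C false s ≤ 2 ^ ((C + 3) * (s + 1)) :=
        hLT.trans (Nat.lt_two_pow_self).le
      calc loadTime C false s + 2 ^ B
          ≤ 2 ^ (B + (C + 3) * (s + 1)) + 2 ^ (B + (C + 3) * (s + 1)) := by
            refine Nat.add_le_add (h4.trans ?_) ?_
            · exact Nat.pow_le_pow_right (by norm_num) (by omega)
            · exact Nat.pow_le_pow_right (by norm_num) (by omega)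
        _ = 2 ^ (B + ((C + 3) * (s + 1) + 1)) := by
            rw [← add_assoc, pow_succ 2 (B + (C + 3) * (s + 1))]; ring
    | false =>
      simp only [Bool.false_eq_true, if_false] at hB ⊢
      intro g t i
      refine (loader_space (sp D W T obs) C ex ld (fun _ => Sum.inr (Sum.inr false))
        (Sum.inr (Sum.inr false)) (fun o => o.isSome) false v hexC hldC rfl rfl rfl s hv' hs'
        (B + (C + 3) * (s + 1)) (by
          intro g t i
          rw [h1]
          have h3 := hsim.space D.init (B + (C + 3) * (s + 1)) (by
            intro g t i
            have hBl := hB g t D.adr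
            rcases i with i | j
            · show (if i = D.adr then hc D.bit W N ((D.runFrom V g D.init t).s i) else
                ((D.runFrom V g D.init t).s i).map Sum.inl).length ≤ _
              have hBi := hB g t i
              split_ifs
              · rw [hc_length]
                exact (show ((D.run V g t).s i).length ≤ B + (C + 3) * (s + 1) by omega)
              · rw [List.length_map]
                exact (show ((D.run V g t).s i).length ≤ B + (C + 3) * (s + 1) by omega)
            · cases j with
              | none =>
                show (pt D.bit W T N ((D.run V g t).s D.adr)).length ≤ _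
                unfold pt
                rw [List.length_map, List.length_take, List.length_drop, List.length_map]
                omega
              | some j =>
                show (List.replicate (N j - ((D.run V g t).s D.adr).length) _).length ≤ _
                rw [List.length_replicate]
                have := hNC j
                omega) g t i
          simpa using h3) g t i).trans ?_
      show max (loadTime C false s) (B + (C + 3) * (s + 1)) ≤ B + ((C + 3) * (s + 1) + 1)
      exact max_le (hLT.trans (by omega)) (by omega)
  · rw [show (spL D W T obs eC lC).Accepts v ↔ _ from loader_accepts (sp D W T obs) C ex ld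
      (fun _ => Sum.inr (Sum.inr false)) (Sum.inr (Sum.inr false)) (fun o => o.isSome) false v
      hexC hldC rfl rfl rfl s hv' hs', h1]
    exact hsim.accepts D.init

end H85L
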