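import Pool.Agent.H85L.Codes

/-!
# A machine which asks one question, the code of its input
-/

set_option autoImplicit false

namespace H85L

open Mach

theorem det_run_main {Δ Q Γ K : Type} (M : Mach Δ Q Γ K) (v : View Δ) (T : ℕ) (b : Bool)
    (h : ∀ g, M.out (M.run v g T).q = some b) :
    (M.Accepts v ↔ b = true) ∧ ∀ time, M.Bounded time v T := by
  constructor
  · constructor
    · rintro ⟨g, t, ht⟩
      have h1 := h g
      rcases le_total t T with hle | hle
      · obtain ⟨r, rfl⟩ := Nat.exists_eq_add_of_le hle
        have h2 : M.run v g (t + r) = M.run v g t :=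
          M.runFrom_halted v g M.init t r (by
            have : M.out (M.runFrom v g M.init t).q = some true := ht
            rw [this]; rfl)
        rw [h2, ht] at h1
        exact (Option.some.inj h1).symm
      · obtain ⟨r, rfl⟩ := Nat.exists_eq_add_of_le hle
        have h2 : M.run v g (T + r) = M.run v g T :=
          M.runFrom_halted v g M.init T r (by
            have : M.out (M.runFrom v g M.init T).q = some b := h1
            rw [this]; rfl)
        rw [h2, h1] at ht
        exact Option.some.inj ht
    · intro hb
      exact ⟨fun _ => false, T, by rw [h, hb]⟩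
  · intro time
    unfold Bounded
    cases time with
    | true =>
      rw [if_pos rfl]
      intro g
      have h1 : (M.out (M.runFrom v g M.init T).q).isSome := by
        have : M.out (M.runFrom v g M.init T).q = some b := h g
        rw [this]; rfl
      exact M.halted_mono v g M.init (Nat.lt_two_pow_self).le h1
    | false =>
      rw [if_neg (by simp)]
      intro g t i
      have h0 : ∀ t, ((M.run v g t).s i).length ≤ t := by
        intro t
        have := M.runFrom_length_le v g M.init t i
        rw [show M.init.s i = [] from rfl, List.length_nil, Nat.zero_add] at this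
        exact this
      rcases le_total t T with hle | hle
      · exact (h0 t).trans hle
      · obtain ⟨r, rfl⟩ := Nat.exists_eq_add_of_le hle
        have h2 : M.run v g (T + r) = M.run v g T :=
          M.runFrom_halted v g M.init T r (by
            have : M.out (M.runFrom v g M.init T).q = some b := h g
            rw [this]; rfl)
        rw [h2]
        exact h0 T

/-- the states -/
inductive SQ (e N : ℕ)
  | read
  | write (j : Fin (e + 1))
  | code (j : Fin (N + 1))
  | ask
  | halt (b : Bool)

instance (e N : ℕ) : Finite (SQ e N) := by
  have : Function.Injective (fun x : SQ e N => match x with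
    | .read => (Sum.inl false : Bool ⊕ (Fin (e + 1) ⊕ (Fin (N + 1) ⊕ Bool)))
    | .ask => Sum.inl true
    | .write j => Sum.inr (Sum.inl j)
    | .code j => Sum.inr (Sum.inr (Sum.inl j))
    | .halt b => Sum.inr (Sum.inr (Sum.inr b))) := by
    intro x y h
    cases x <;> cases y <;> simp_all
  exact Finite.of_injective _ this

variable {m : ℕ} (e N : ℕ) (b0 : Bool)

/-- transitions; the address stack is `false`, the other stack is `true` -/
def starNext : SQ e N → (Bool → Option (Fin m ⊕ Bool)) → Option (Bool × Option (Fin m)) → Bool →
    SQ e N × (Bool → Op (Fin m ⊕ Bool))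
  | .read, _, some (_, some w), _ =>
    (.read, fun i => if i then .push (Sum.inl w) else .push (Sum.inr false))
  | .read, _, _, _ => (.write 0, fun _ => .stay)
  | .write j, h, _, _ =>
    match h true with
    | some (Sum.inl w) =>
      (if hj : j.val + 1 < e + 1 then .write ⟨j.val + 1, hj⟩ else .write 0,
        fun i => if i then (if j.val + 1 < e + 1 then .stay else .pop)
          else .push (Sum.inr (decide (j.val = w.val))))
    | _ => (.code 0, fun _ => .stay)
  | .code j, _, _, _ =>
    (if hj : j.val + 1 < N + 1 then .code ⟨j.val + 1, hj⟩ else .ask,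
      fun i => if i then .stay else .push (Sum.inr (decide (0 < j.val))))
  | .ask, _, some (a, _), _ => (.halt a, fun _ => .stay)
  | .ask, _, none, _ => (.halt b0, fun _ => .stay)
  | .halt b, _, _, _ => (.halt b, fun _ => .stay)

/-- the machine -/
def star : Mach (Bool × Option (Fin m)) (SQ e N) (Fin m ⊕ Bool) Bool where
  adr := false
  bit := Sum.elim (fun _ => false) id
  start := .read
  out := fun q => match q with
    | .halt b => some b
    | _ => none
  next := starNext e N b0

theorem star_det : (star (m := m) e N b0).Det := by
  intro q h o b b'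
  cases q with
  | read =>
    rcases o with _ | ⟨a, _ | w⟩ <;> rfl
  | write j => rfl
  | code j => rfl
  | ask =>
    rcases o with _ | ⟨a, w⟩ <;> rfl
  | halt b => rfl

/-- the first `j` bits of the block of a letter, last bit first -/
def blk (w : ℕ) : ℕ → List Bool
  | 0 => []
  | j + 1 => decide (j = w) :: blk w j

/-- a configuration of the machine -/
def cf (q : SQ e N) (a : List Bool) (s : List (Fin m)) : Cfg (SQ e N) (Fin m ⊕ Bool) Bool :=
  ⟨q, fun i => if i then s.map Sum.inl else a.map Sum.inr⟩

theorem cf_adr (q : SQ e N) (a : List Bool) (s : List (Fin m)) :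
    (((cf e N q a s).s (star (m := m) e N b0).adr).map (star (m := m) e N b0).bit) = a := by
  show ((if false = true then s.map Sum.inl else a.map Sum.inr).map
    (Sum.elim (fun _ => false) id)) = a
  rw [if_neg (by simp), List.map_map]
  exact List.map_id _

variable (v : View (Bool × Option (Fin m)))

theorem step_read (g : Bool) (a : List Bool) (s : List (Fin m)) (x : Bool) (w : Fin m)
    (h : v a = some (x, some w)) :
    (star e N b0).step v g (cf e N .read a s) = cf e N .read (false :: a) (w :: s) := by
  rw [step_live _ _ _ _ rfl, cf_adr, h]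
  ext1
  · rfl
  · funext i
    cases i <;> rfl

theorem step_read_end (g : Bool) (a : List Bool) (s : List (Fin m)) (x : Bool)
    (h : v a = some (x, none)) :
    (star e N b0).step v g (cf e N .read a s) = cf e N (.write 0) a s := by
  rw [step_live _ _ _ _ rfl, cf_adr, h]
  ext1
  · rfl
  · funext i
    cases i <;> rfl

theorem step_write (g : Bool) (a : List Bool) (s : List (Fin m)) (w : Fin m) (j : ℕ)
    (hj : j + 1 < e + 1) :
    (star e N b0).step v g (cf e N (.write ⟨j, by omega⟩) a (w :: s)) =
      cf e N (.write ⟨j + 1, hj⟩) (decide (j = w.val) :: a) (w :: s) := by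
  rw [step_live _ _ _ _ rfl, cf_adr]
  ext1
  · show (if hj : j + 1 < e + 1 then SQ.write ⟨j + 1, hj⟩ else SQ.write 0) = _
    rw [dif_pos hj]
    rfl
  · funext i
    cases i with
    | false => rfl
    | true =>
      show Op.app (if j + 1 < e + 1 then .stay else .pop) _ = _
      rw [if_pos hj]
      rfl

theorem step_write_end (g : Bool) (a : List Bool) (s : List (Fin m)) (w : Fin m) :
    (star e N b0).step v g (cf e N (.write ⟨e, by omega⟩) a (w :: s)) =
      cf e N (.write 0) (decide (e = w.val) :: a) s := by
  rw [step_live _ _ _ _ rfl, cf_adr]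
  ext1
  · show (if hj : e + 1 < e + 1 then SQ.write ⟨e + 1, hj⟩ else SQ.write 0) = _
    rw [dif_neg (by omega)]
    rfl
  · funext i
    cases i with
    | false => rfl
    | true =>
      show Op.app (if e + 1 < e + 1 then .stay else .pop) _ = _
      rw [if_neg (by omega)]
      rfl

theorem step_write_nil (g : Bool) (a : List Bool) (j : Fin (e + 1)) :
    (star (m := m) e N b0).step v g (cf e N (.write j) a []) = cf e N (.code 0) a [] := by
  rw [step_live _ _ _ _ rfl, cf_adr]
  ext1
  · rfl
  · funext i
    cases i <;> rfl

theorem step_code (g : Bool) (a : List Bool) (s : List (Fin m)) (j : ℕ) (hj : j + 1 < N + 1) :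
    (star e N b0).step v g (cf e N (.code ⟨j, by omega⟩) a s) =
      cf e N (.code ⟨j + 1, hj⟩) (decide (0 < j) :: a) s := by
  rw [step_live _ _ _ _ rfl, cf_adr]
  ext1
  · show (if hj : j + 1 < N + 1 then SQ.code ⟨j + 1, hj⟩ else SQ.ask) = _
    rw [dif_pos hj]
    rfl
  · funext i
    cases i <;> rfl

theorem step_code_end (g : Bool) (a : List Bool) (s : List (Fin m)) :
    (star e N b0).step v g (cf e N (.code ⟨N, by omega⟩) a s) =
      cf e N .ask (decide (0 < N) :: a) s := by
  rw [step_live _ _ _ _ rfl, cf_adr]
  ext1
  · show (if hj : N + 1 < N + 1 then SQ.code ⟨N + 1, hj⟩ else SQ.ask) = _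
    rw [dif_neg (by omega)]
    rfl
  · funext i
    cases i <;> rfl

theorem step_ask (g : Bool) (a : List Bool) (s : List (Fin m)) :
    (star e N b0).step v g (cf e N .ask a s) =
      cf e N (.halt (((v a).map Prod.fst).getD b0)) a s := by
  rw [step_live _ _ _ _ rfl, cf_adr]
  cases h : v a with
  | none =>
    ext1
    · rfl
    · funext i
      cases i <;> rfl
  | some y =>
    obtain ⟨y1, y2⟩ := y
    ext1
    · rfl
    · funext i
      cases i <;> rfl

/-- `star` reaches `c'` from `c` in exactly `t` moves -/
def Reach (t : ℕ) (c c' : Cfg (SQ e N) (Fin m ⊕ Bool) Bool) : Prop :=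
  ∀ g, (star e N b0).runFrom v g c t = c'

variable {e N b0 v}

theorem Reach.trans {s t : ℕ} {c c' c'' : Cfg (SQ e N) (Fin m ⊕ Bool) Bool}
    (h1 : Reach e N b0 v s c c') (h2 : Reach e N b0 v t c' c'') :
    Reach e N b0 v (s + t) c c'' := by
  intro g
  rw [runFrom_add, h1]
  exact h2 _

theorem reach_one {c c' : Cfg (SQ e N) (Fin m ⊕ Bool) Bool}
    (h : ∀ g, (star e N b0).step v g c = c') : Reach e N b0 v 1 c c' := fun g => h _

theorem reach_zero (c : Cfg (SQ e N) (Fin m ⊕ Bool) Bool) : Reach e N b0 v 0 c c :=
  fun _ => rfl

/-- reading -/
theorem reach_read (x : List (Fin m))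
    (hv : ∀ i w, x[i]? = some w → ∃ y, v (List.replicate i false) = some (y, some w)) (i : ℕ)
    (hi : i ≤ x.length) :
    Reach e N b0 v i (cf e N .read [] [])
      (cf e N .read (List.replicate i false) (x.take i).reverse) := by
  induction i with
  | zero => exact reach_zero _
  | succ i ih =>
    refine (ih (by omega)).trans (reach_one fun g => ?_)
    have hi' : i < x.length := by omega
    obtain ⟨y, hy⟩ := hv i x[i] (List.getElem?_eq_getElem hi')
    rw [step_read e N b0 v g _ _ y x[i] hy, List.take_succ_eq_append_getElem hi',
      List.reverse_append]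
    rfl

/-- writing the block of a letter -/
theorem reach_block (a : List Bool) (s : List (Fin m)) (w : Fin m) (j : ℕ) (hj : j < e + 1) :
    Reach e N b0 v j (cf e N (.write 0) a (w :: s))
      (cf e N (.write ⟨j, hj⟩) (blk w.val j ++ a) (w :: s)) := by
  induction j with
  | zero => exact reach_zero _
  | succ j ih =>
    refine (ih (by omega)).trans (reach_one fun g => ?_)
    rw [step_write e N b0 v g _ _ w j hj]
    rfl

theorem reach_letter (a : List Bool) (s : List (Fin m)) (w : Fin m) :
    Reach e N b0 v (e + 1) (cf e N (.write 0) a (w :: s))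
      (cf e N (.write 0) (blk w.val (e + 1) ++ a) s) := by
  refine (reach_block a s w e (by omega)).trans (reach_one fun g => ?_)
  rw [step_write_end e N b0 v g _ _ w]
  rfl

/-- writing all blocks -/
theorem reach_blocks (y : List (Fin m)) : ∀ a : List Bool,
    Reach e N b0 v (y.length * (e + 1)) (cf e N (.write 0) a y)
      (cf e N (.write 0) (y.reverse.flatMap (fun w => blk w.val (e + 1)) ++ a) []) := by
  induction y with
  | nil =>
    intro a
    simp only [List.length_nil, Nat.zero_mul, List.reverse_nil, List.flatMap_nil,
      List.nil_append]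
    exact reach_zero _
  | cons w y ih =>
    intro a
    have h1 := (reach_letter (e := e) (N := N) (b0 := b0) (v := v) a y w).trans
      (ih (blk w.val (e + 1) ++ a))
    rw [show (w :: y).length * (e + 1) = e + 1 + y.length * (e + 1) by
      rw [List.length_cons]; ring]
    have h2 : (w :: y).reverse.flatMap (fun w => blk w.val (e + 1)) ++ a =
        y.reverse.flatMap (fun w => blk w.val (e + 1)) ++ (blk w.val (e + 1) ++ a) := by
      rw [List.reverse_cons, List.flatMap_append, List.append_assoc]
      congr 1
      simp
    rw [h2]
    exact h1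

/-- writing the number -/
theorem reach_code (a : List Bool) (s : List (Fin m)) (j : ℕ) (hj : j + 1 < N + 1) :
    Reach e N b0 v (j + 1) (cf e N (.code 0) a s)
      (cf e N (.code ⟨j + 1, hj⟩) (List.replicate j true ++ false :: a) s) := by
  induction j with
  | zero =>
    exact reach_one fun g => step_code e N b0 v g a s 0 hj
  | succ j ih =>
    refine (ih (by omega)).trans (reach_one fun g => ?_)
    rw [step_code e N b0 v g _ _ (j + 1) hj]
    congr 1

theorem reach_number (a : List Bool) (s : List (Fin m)) :
    Reach e N b0 v (N + 1) (cf e N (.code 0) a s)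
      (cf e N .ask (List.replicate N true ++ false :: a) s) := by
  cases N with
  | zero =>
    refine reach_one fun g => ?_
    exact step_code_end e 0 b0 v g a s
  | succ N =>
    refine (reach_code a s N (by omega)).trans (reach_one fun g => ?_)
    rw [step_code_end e (N + 1) b0 v g]
    congr 1

/-- the question on the input `x` -/
def quest (e N : ℕ) (x : List (Fin m)) : List Bool :=
  List.replicate N true ++ false :: (x.flatMap (fun w => blk w.val (e + 1)) ++
    List.replicate x.length false)

theorem star_main (x : List (Fin m))
    (hv : ∀ i w, x[i]? = some w → ∃ y, v (List.replicate i false) = some (y, some w))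
    (hx : ∃ y, v (List.replicate x.length false) = some (y, none)) :
    Reach e N b0 v (x.length + 1 + x.length * (e + 1) + 1 + (N + 1) + 1) (star e N b0).init
      (cf e N (.halt (((v (quest e N x)).map Prod.fst).getD b0)) (quest e N x) []) := by
  have h0 : (star (m := m) e N b0).init = cf e N .read [] [] := by
    ext1
    · rfl
    · funext i
      cases i <;> rfl
  rw [h0]
  obtain ⟨y, hy⟩ := hx
  have h1 := reach_read (e := e) (N := N) (b0 := b0) (v := v) x hv x.length le_rfl
  rw [List.take_length] at h1
  have h2 := h1.trans (reach_one fun g => step_read_end e N b0 v g _ x.reverse y hy)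
  have h3 := h2.trans (by
    have := reach_blocks (e := e) (N := N) (b0 := b0) (v := v) x.reverse
      (List.replicate x.length false)
    rwa [List.length_reverse, List.reverse_reverse] at this)
  have h4 := h3.trans (reach_one fun g => step_write_nil e N b0 v g _ 0)
  have h5 := h4.trans (reach_number _ _)
  exact h5.trans (reach_one fun g => step_ask e N b0 v g _ _)

end H85L
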